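import Mathlib

section

namespace Pool.Agent.MP_9c82b4_lc

open Set MeasureTheory ProbabilityTheory Filter
open scoped ENNReal

abbrev Θ : Type 1 := Ordinal.{0}

inductive Ξ : Type 1
  | R (ξ : Θ) (n : ℕ)
  | H (τ β : Θ) (m : ℕ)
  | O (ξ : Θ)

noncomputable def Ξ.lev : Ξ → Θ
  | .R ξ _ => ξ
  | .H τ β _ => max τ β
  | .O ξ => ξ

abbrev X : Type 1 := Ξ → ℕ

def cyl (κ : Ξ) (v : ℕ) : Set X := {x | x κ = v}

@[reducible] def gen (K : Set Ξ) : MeasurableSpace X :=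
  .generateFrom {S | ∃ κ ∈ K, ∃ v, S = cyl κ v}

def mK (A : Set Θ) : Set Ξ := {κ | κ.lev ∈ A}

def fK (A : Set Θ) : Set Ξ := {κ | ∃ ξ ∈ A, ∃ n, κ = .R ξ n}

theorem fK_sub (A : Set Θ) : fK A ⊆ mK A := by
  rintro _ ⟨ξ, h, n, rfl⟩
  exact h

theorem mK_mono {A B : Set Θ} (h : A ⊆ B) : mK A ⊆ mK B := fun _ hκ => h hκ

theorem fK_mono {A B : Set Θ} (h : A ⊆ B) : fK A ⊆ fK B := fun _ ⟨ξ, h₁, h₂⟩ => ⟨ξ, h h₁, h₂⟩

theorem gen_mono {K K' : Set Ξ} (h : K ⊆ K') : gen K ≤ gen K' :=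
  MeasurableSpace.generateFrom_mono fun _ ⟨κ, h₁, h₂⟩ => ⟨κ, h h₁, h₂⟩

theorem gen_cyl {K : Set Ξ} {κ : Ξ} (h : κ ∈ K) (v : ℕ) : MeasurableSet[gen K] (cyl κ v) :=
  MeasurableSpace.measurableSet_generateFrom ⟨κ, h, v, rfl⟩

theorem gen_eval {K : Set Ξ} {κ : Ξ} (h : κ ∈ K) : Measurable[gen K] fun x : X => x κ :=
  @measurable_to_countable' ℕ X _ _ (gen K) _ fun v => gen_cyl h v

theorem gen_le (K : Set Ξ) : gen K ≤ (inferInstance : MeasurableSpace X) := by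
  refine MeasurableSpace.generateFrom_le ?_
  rintro _ ⟨κ, -, v, rfl⟩
  exact (measurable_pi_apply κ : Measurable fun x : X => x κ) (measurableSet_singleton v)

theorem gen_ct {K : Set Ξ} {S : Set X} (h : MeasurableSet[gen K] S) :
    ∃ K₀ ⊆ K, K₀.Countable ∧ MeasurableSet[gen K₀] S := by
  induction S, h using MeasurableSpace.generateFrom_induction with
  | hC S hS _ =>
    obtain ⟨κ, hκ, v, rfl⟩ := hS
    exact ⟨{κ}, by simpa using hκ, countable_singleton _, gen_cyl (mem_singleton κ) v⟩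
  | empty => exact ⟨∅, empty_subset _, countable_empty, @MeasurableSet.empty _ (gen _)⟩
  | compl S _ ih =>
    obtain ⟨K₀, h₁, h₂, h₃⟩ := ih
    exact ⟨K₀, h₁, h₂, h₃.compl⟩
  | iUnion f _ ih =>
    choose K₀ h₁ h₂ h₃ using ih
    exact ⟨⋃ n, K₀ n, iUnion_subset h₁, countable_iUnion h₂,
      MeasurableSet.iUnion fun n => gen_mono (subset_iUnion K₀ n) _ (h₃ n)⟩

theorem gen_inv {K : Set Ξ} {S : Set X} (h : MeasurableSet[gen K] S) {x y : X}
    (e : ∀ κ ∈ K, x κ = y κ) : x ∈ S ↔ y ∈ S := by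
  induction S, h using MeasurableSpace.generateFrom_induction with
  | hC S hS _ =>
    obtain ⟨κ, hκ, v, rfl⟩ := hS
    simp only [cyl, mem_ofPred_eq, e κ hκ]
  | empty => simp
  | compl S _ ih => simp [ih]
  | iUnion f _ ih => simp [ih]

/-- Measurable at level `A`. -/
abbrev MS (A : Set Θ) (S : Set X) : Prop := MeasurableSet[gen (mK A)] S

/-- Measurable in the random coordinates of level `A`. -/
abbrev FS (A : Set Θ) (S : Set X) : Prop := MeasurableSet[gen (fK A)] S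

theorem FS.ms {A : Set Θ} {S : Set X} (h : FS A S) : MS A S := gen_mono (fK_sub A) _ h

theorem FS.mono {A B : Set Θ} {S : Set X} (h : FS A S) (hAB : A ⊆ B) : FS B S :=
  gen_mono (fK_mono hAB) _ h

theorem MS.mono {A B : Set Θ} {S : Set X} (h : MS A S) (hAB : A ⊆ B) : MS B S :=
  gen_mono (mK_mono hAB) _ h

theorem FS.meas {A : Set Θ} {S : Set X} (h : FS A S) : MeasurableSet S := gen_le _ _ h

theorem FS.univ (A : Set Θ) : FS A univ := @MeasurableSet.univ _ (gen _)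

theorem MS.univ (A : Set Θ) : MS A univ := @MeasurableSet.univ _ (gen _)

theorem FS.ct {A : Set Θ} {S : Set X} (h : FS A S) :
    ∃ A₀ ⊆ A, A₀.Countable ∧ FS A₀ S := by
  obtain ⟨K₀, h₁, h₂, h₃⟩ := gen_ct h
  refine ⟨Ξ.lev '' K₀, ?_, h₂.image _, gen_mono (fun κ hκ => ?_) _ h₃⟩
  · rintro _ ⟨κ, hκ, rfl⟩
    exact fK_sub A (h₁ hκ)
  · obtain ⟨ξ, -, n, rfl⟩ := h₁ hκ
    exact ⟨ξ, ⟨_, hκ, rfl⟩, n, rfl⟩

theorem MS.ct {A : Set Θ} {S : Set X} (h : MS A S) :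
    ∃ A₀ ⊆ A, A₀.Countable ∧ MS A₀ S := by
  obtain ⟨K₀, h₁, h₂, h₃⟩ := gen_ct h
  refine ⟨Ξ.lev '' K₀, ?_, h₂.image _, gen_mono (fun κ hκ => mem_image_of_mem Ξ.lev hκ) _ h₃⟩
  rintro _ ⟨κ, hκ, rfl⟩
  exact h₁ hκ

/-! ### The measure -/

def KK (i : ℕ) : ℕ := 4 ^ ((i + 3) ^ 3)

def bb (n : ℕ) : ℕ := KK n * (n + 1) ^ 2 * 2 ^ n

theorem KK_pos (i : ℕ) : 0 < KK i := by unfold KK; positivity

theorem KK_mono : Monotone KK := fun _ _ h =>
  Nat.pow_le_pow_right (by norm_num) (Nat.pow_le_pow_left (by omega) _)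

theorem bb_pos (n : ℕ) : 0 < bb n := by have := KK_pos n; unfold bb; positivity

def wd : Ξ → ℕ
  | .R _ n => bb n
  | _ => 1

theorem wd_pos (κ : Ξ) : 0 < wd κ := by
  cases κ
  exacts [bb_pos _, Nat.one_pos, Nat.one_pos]

noncomputable def nu (κ : Ξ) : Measure ℕ := uniformOn (Finset.range (wd κ) : Set ℕ)

instance (κ : Ξ) : IsProbabilityMeasure (nu κ) :=
  isProbabilityMeasure_uniformOn (Finset.finite_toSet _) ⟨0, by simpa using wd_pos κ⟩

noncomputable def pr : Measure X := Measure.infinitePi nu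

instance : IsProbabilityMeasure pr := by unfold pr; infer_instance

theorem pr_indep {K : Set Ξ} {κ : Ξ} (hκ : κ ∉ K) {E : Set X} (hE : MeasurableSet[gen K] E)
    (v : Set ℕ) : pr (E ∩ {x | x κ ∈ v}) = pr E * nu κ v := by
  have h₁ : iIndepFun (fun (κ : Ξ) (x : X) => x κ) pr :=
    iIndepFun_infinitePi (X := fun _ ω => ω) (by fun_prop)
  rw [iIndepFun_iff_iIndep] at h₁
  have h₂ := indep_iSup_of_disjoint (S := K) (T := {κ})
    (fun i => (measurable_pi_apply i).comap_le) h₁ (by simpa using hκ)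
  rw [Indep_iff] at h₂
  have h₃ : gen K ≤ ⨆ i ∈ K, MeasurableSpace.comap (fun x : X => x i) inferInstance := by
    refine MeasurableSpace.generateFrom_le ?_
    rintro _ ⟨κ, hκ, v, rfl⟩
    refine (le_iSup₂ (f := fun i (_ : i ∈ K) =>
      MeasurableSpace.comap (fun x : X => x i) inferInstance) κ hκ) _ ?_
    exact ⟨{v}, measurableSet_singleton v, rfl⟩
  rw [h₂ E _ (h₃ _ hE)]
  · congr 1
    exact (measurePreserving_eval_infinitePi nu κ).measure_preimage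
      (MeasurableSet.of_discrete (s := v)).nullMeasurableSet
  · refine (le_iSup₂ (f := fun i (_ : i ∈ ({κ} : Set Ξ)) =>
      MeasurableSpace.comap (fun x : X => x i) inferInstance) κ rfl) _ ?_
    exact ⟨v, MeasurableSet.of_discrete, rfl⟩

theorem nu_le (κ : Ξ) (v : Finset ℕ) : nu κ v ≤ v.card / wd κ := by
  unfold nu
  rw [uniformOn_apply_finset, Finset.card_range]
  gcongr
  exact Finset.inter_subset_right

theorem ae_lt_wd (κ : Ξ) : ∀ᵐ x ∂pr, x κ < wd κ := by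
  have h := pr_indep (K := ∅) (κ := κ) (by simp) (@MeasurableSet.univ _ (gen ∅)) {n | ¬ n < wd κ}
  have h₂ : nu κ {n | ¬ n < wd κ} = 0 := by
    unfold nu
    rw [uniformOn_eq_zero_iff (Finset.finite_toSet _)]
    ext n
    simp
  rw [h₂, mul_zero, univ_inter] at h
  exact h

/-- Almost everywhere inclusion. -/
def Sub0 (a b : Set X) : Prop := ∀ᵐ x ∂pr, x ∈ a → x ∈ b

theorem sub0_iff {a b : Set X} : Sub0 a b ↔ pr (a \ b) = 0 := by
  unfold Sub0
  rw [ae_iff]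
  simp only [Classical.not_imp]
  rfl

theorem Sub0.refl (a : Set X) : Sub0 a a := Eventually.of_forall fun _ h => h

theorem Sub0.of_sub {a b : Set X} (h : a ⊆ b) : Sub0 a b := Eventually.of_forall fun _ hx => h hx

theorem Sub0.trans {a b c : Set X} (h₁ : Sub0 a b) (h₂ : Sub0 b c) : Sub0 a c := by
  filter_upwards [h₁, h₂] with x h₁ h₂ h using h₂ (h₁ h)

theorem Sub0.inter {a b c : Set X} (h₁ : Sub0 a b) (h₂ : Sub0 a c) : Sub0 a (b ∩ c) := by
  filter_upwards [h₁, h₂] with x h₁ h₂ h using ⟨h₁ h, h₂ h⟩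

theorem Sub0.le {a b : Set X} (h : Sub0 a b) : pr a ≤ pr b := measure_mono_ae h

theorem Sub0.ne_zero {a b : Set X} (h : Sub0 a b) (ha : pr a ≠ 0) : pr b ≠ 0 :=
  fun e => ha (le_antisymm (e ▸ h.le) zero_le)

theorem sub0_compl {a b : Set X} : Sub0 a bᶜ ↔ pr (a ∩ b) = 0 := by
  rw [sub0_iff, sdiff_compl]

theorem sub0_empty {a : Set X} : Sub0 a ∅ ↔ pr a = 0 := by
  rw [sub0_iff, sdiff_empty]

theorem exists_piece {ι : Type*} {s : Set ι} (hs : s.Countable) {a : Set X} {f : ι → Set X}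
    (ha : pr a ≠ 0) (h : Sub0 a (⋃ i ∈ s, f i)) : ∃ i ∈ s, pr (a ∩ f i) ≠ 0 := by
  by_contra hn
  push Not at hn
  have h₁ : ∀ᵐ x ∂pr, ∀ i ∈ s, x ∈ a → x ∈ (f i)ᶜ :=
    (ae_ball_iff hs).2 fun i hi => sub0_compl.2 (hn i hi)
  refine ha (sub0_empty.1 ?_)
  filter_upwards [h, h₁] with x h₂ h₃ hx
  obtain ⟨i, hi, h₄⟩ := mem_iUnion₂.1 (h₂ hx)
  exact h₃ i hi hx h₄

/-! ### Essential projections -/

def Hull (A : Set Θ) (b d : Set X) : Prop :=
  FS A d ∧ Sub0 b d ∧ ∀ d', FS A d' → Sub0 b d' → Sub0 d d'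

theorem exists_hull (A : Set Θ) (b : Set X) : ∃ d, Hull A b d := by
  obtain ⟨u, -, h₁, h₂⟩ := exists_seq_tendsto_sInf (S := pr '' {d | FS A d ∧ Sub0 b d})
    ⟨_, univ, ⟨FS.univ A, .of_sub (subset_univ _)⟩, rfl⟩ (OrderBot.bddBelow _)
  choose d hd e using h₂
  have hb : Sub0 b (⋂ n, d n) := by
    filter_upwards [ae_all_iff.2 fun n => (hd n).2] with x hx h
    exact mem_iInter.2 fun n => hx n h
  have hm : FS A (⋂ n, d n) := MeasurableSet.iInter fun n => (hd n).1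
  refine ⟨⋂ n, d n, hm, hb, fun d' h₃ h₄ => sub0_iff.2 ?_⟩
  have h₅ : pr (⋂ n, d n) ≤ pr ((⋂ n, d n) ∩ d') :=
    (ge_of_tendsto' h₁ fun n => e n ▸ measure_mono (iInter_subset d n)).trans
      (sInf_le ⟨_, ⟨hm.inter h₃, hb.inter h₄⟩, rfl⟩)
  rw [← measure_sdiff_add_inter _ h₃.meas] at h₅
  have h₆ := measure_ne_top pr ((⋂ n, d n) ∩ d')
  exact le_antisymm ((ENNReal.add_le_add_iff_right h₆).1 (by simpa using h₅)) zero_le

noncomputable def proj (A : Set Θ) (b : Set X) : Set X := Classical.epsilon (Hull A b)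

theorem proj_spec (A : Set Θ) (b : Set X) : Hull A b (proj A b) :=
  Classical.epsilon_spec (exists_hull A b)

theorem proj_fs (A : Set Θ) (b : Set X) : FS A (proj A b) := (proj_spec A b).1

theorem sub_proj (A : Set Θ) (b : Set X) : Sub0 b (proj A b) := (proj_spec A b).2.1

theorem proj_sub {A : Set Θ} {b d : Set X} (hd : FS A d) : Sub0 (proj A b) d ↔ Sub0 b d :=
  ⟨(sub_proj A b).trans, (proj_spec A b).2.2 d hd⟩

theorem proj_mono (A : Set Θ) {a b : Set X} (h : Sub0 a b) : Sub0 (proj A a) (proj A b) :=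
  (proj_sub (proj_fs A b)).2 (h.trans (sub_proj A b))

theorem proj_proj {A B : Set Θ} (h : A ⊆ B) (b : Set X) : proj A (proj B b) = proj A b := by
  have : Hull A (proj B b) = Hull A b := by
    funext d
    unfold Hull
    refine propext (and_congr_right fun hd => and_congr (proj_sub (hd.mono h)) ?_)
    exact forall₂_congr fun d' hd' => by rw [proj_sub (hd'.mono h)]
  unfold proj at this ⊢
  rw [this]

theorem inter_ne_zero {A : Set Θ} {b d : Set X} (hd : FS A d) (h₀ : pr d ≠ 0)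
    (h : Sub0 d (proj A b)) : pr (d ∩ b) ≠ 0 := by
  intro e
  rw [inter_comm, ← sub0_compl, ← proj_sub hd.compl] at e
  refine h₀ (sub0_empty.1 ?_)
  filter_upwards [h, e] with x h₁ h₂ h₃ using h₂ (h₁ h₃) h₃

/-! ### Smallness, closing off and bookkeeping -/

instance small_mK (ν : Θ) : Small.{0} (mK (Iio ν)) := by
  let f : (Iio ν × ℕ) ⊕ (Iio ν × Iio ν × ℕ) ⊕ Iio ν → mK (Iio ν) := fun z => match z with
    | .inl z => ⟨.R z.1 z.2, z.1.2⟩
    | .inr (.inl z) => ⟨.H z.1 z.2.1 z.2.2, max_lt (α := Θ) z.1.2 z.2.1.2⟩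
    | .inr (.inr z) => ⟨.O z, z.2⟩
  refine small_of_surjective (f := f) ?_
  rintro ⟨⟨ξ, n⟩ | ⟨τ, β, m⟩ | ξ, h⟩
  · exact ⟨.inl (⟨ξ, h⟩, n), rfl⟩
  · exact ⟨.inr (.inl (⟨τ, (max_lt_iff (α := Θ)).1 h |>.1⟩, ⟨β, (max_lt_iff (α := Θ)).1 h |>.2⟩, m)),
      rfl⟩
  · exact ⟨.inr (.inr ⟨ξ, h⟩), rfl⟩

/-- Functions that only depend on the coordinates of level below `ν`. -/
def Inv (ν : Θ) (Y : Type*) : Set (X → Y) :=
  {f | ∀ x y : X, (∀ κ ∈ mK (Iio ν), x κ = y κ) → f x = f y}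

instance small_inv (ν : Θ) (Y : Type*) [Small.{0} Y] : Small.{0} (Inv ν Y) := by
  classical
  refine small_of_injective (f := fun (f : Inv ν Y) (z : mK (Iio ν) → ℕ) =>
    f.1 fun κ => if h : κ ∈ mK (Iio ν) then z ⟨κ, h⟩ else 0) fun f g e => ?_
  ext x
  have := congrFun e fun κ => x κ
  simp only at this
  rw [f.2 x _ ?_, this, g.2 x _ ?_] <;>
  · intro κ hκ
    simp [hκ]

theorem inv_of_meas {ν : Θ} {Y : Type*} [MeasurableSpace Y] [MeasurableSingletonClass Y]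
    {f : X → Y} (h : Measurable[gen (mK (Iio ν))] f) : f ∈ Inv ν Y := fun _ y e =>
  ((gen_inv (h (measurableSet_singleton (f y))) e).2 rfl :)

theorem exists_ub (S : Set Θ) [Small.{0} S] : ∃ ν, S ⊆ Iio ν := by
  obtain ⟨a, ha⟩ := Ordinal.bddAbove_of_small (s := S)
  exact ⟨Order.succ a, fun x hx => Order.lt_succ_of_le (ha hx)⟩

theorem exists_ub_ct {S : Set Θ} (h : S.Countable) : ∃ ν, S ⊆ Iio ν :=
  have := h.to_subtype
  exists_ub S

inductive Tr : Type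
  | leaf
  | node (f : ℕ → Tr)

theorem closing (ρ : Θ → Θ) : ∃ ν : Θ, (∀ α < ν, ρ α < ν) ∧
    ∀ S : Set Θ, S.Countable → S ⊆ Iio ν → ∃ α < ν, S ⊆ Iio α := by
  have h₀ : ∀ f : ℕ → Θ, ∃ γ, (∀ n, f n < γ) ∧ ∀ n, ∀ δ < f n, ρ δ < γ := by
    intro f
    obtain ⟨γ, hγ⟩ := exists_ub (range f ∪ ⋃ n, ρ '' Iio (f n))
    exact ⟨γ, fun n => hγ (Or.inl ⟨n, rfl⟩),
      fun n δ h => hγ (Or.inr (mem_iUnion.2 ⟨n, δ, h, rfl⟩))⟩
  choose σ h₁ h₂ using h₀
  let ev : Tr → Θ := fun t => Tr.rec 0 (fun _ ih => σ ih) t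
  have hev : ∀ f, ev (.node f) = σ fun n => ev (f n) := fun _ => rfl
  have hb : BddAbove (range ev) := Ordinal.bddAbove_of_small
  have hlt : ∀ t, ev t < ⨆ t, ev t := fun t =>
    (h₁ (fun _ => ev t) 0).trans_le (le_ciSup hb (.node fun _ => t))
  have hex : ∀ α < ⨆ t, ev t, ∃ t, α < ev t := fun α h =>
    have : Nonempty Tr := ⟨.leaf⟩
    (lt_ciSup_iff hb).1 h
  refine ⟨⨆ t, ev t, fun α h => ?_, fun S hS h => ?_⟩
  · obtain ⟨t, ht⟩ := hex α h
    exact (h₂ (fun _ => ev t) 0 α ht).trans (hlt (.node fun _ => t))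
  · rcases S.eq_empty_or_nonempty with rfl | hne
    · exact ⟨_, hlt .leaf, empty_subset _⟩
    · obtain ⟨f, rfl⟩ := hS.exists_eq_range hne
      choose t ht using fun n => hex (f n) (h ⟨n, rfl⟩)
      refine ⟨_, hlt (.node t), ?_⟩
      rintro _ ⟨n, rfl⟩
      exact (ht n).trans (h₁ (fun n => ev (t n)) n)

theorem exists_book {Y : Type 1} [Nonempty Y] (S : Θ → Set Y) (hS : ∀ ν, Small.{0} (S ν)) :
    ∃ bk : Θ → Θ × Y, ∀ ν, ∀ y ∈ S ν, ∃ ξ, ν ≤ ξ ∧ bk ξ = (ν, y) := by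
  have h₁ : ∀ ν, ∃ s : Θ → Y, S ν ⊆ range s := by
    intro ν
    have := hS ν
    let j : S ν → Θ := fun y => Ordinal.typein (WellOrderingRel (α := Shrink.{0} (S ν)))
      (equivShrink _ y)
    have hj : Function.Injective j :=
      (Ordinal.typein_injective _).comp (equivShrink _).injective
    refine ⟨Function.extend j Subtype.val fun _ => Classical.arbitrary Y, fun y hy => ?_⟩
    exact ⟨j ⟨y, hy⟩, hj.extend_apply _ _ _⟩
  choose s hs using h₁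
  obtain ⟨e⟩ : Nonempty (Θ ≃ Θ × Θ × Θ) := by
    have := Cardinal.mul_eq_self Cardinal.aleph0_lt_univ.{0, 1}.le
    rw [← Cardinal.eq]
    simp [this]
  refine ⟨fun ξ => ((e ξ).1, s (e ξ).1 (e ξ).2.1), fun ν y hy => ?_⟩
  obtain ⟨α, rfl⟩ := hs ν hy
  by_contra hn
  push Not at hn
  refine not_small_ordinal.{0, 0} (small_of_injective
    (f := fun β : Θ => (⟨e.symm (ν, α, β), ?_⟩ : Iio ν)) fun β β' h => ?_)
  · by_contra h
    exact hn _ (not_lt.1 h) (by simp)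
  · simpa using h

end Pool.Agent.MP_9c82b4_lc

end

section

namespace Pool.Agent.MP_9c82b4_lc

open Set Classical

/-- The data of a condition at one node: a partition and, for each row, fixed values. -/
structure Loc : Type 1 where
  e : ℕ → ℕ
  c : Θ → ℕ → Bool
  k : Θ → ℕ

/-- The code of a row. -/
def Loc.g (l : Loc) (β : Θ) (m : ℕ) : ℕ :=
  if l.e m ≤ l.k β then (l.c β m).toNat else l.e m + 1

def Ref (γ γ' : ℕ → ℕ) : Prop :=
  (∀ m, γ m ≤ 1 → γ' m = γ m) ∧ ∀ m m', γ m = γ m' → γ' m = γ' m'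

def Rel (T : Set Θ) (l l' : Loc) : Prop := ∀ β ∈ T, Ref (l.g β) (l'.g β)

theorem Ref.refl (γ : ℕ → ℕ) : Ref γ γ := ⟨fun _ _ => rfl, fun _ _ h => h⟩

theorem Ref.trans {a b c : ℕ → ℕ} (h₁ : Ref a b) (h₂ : Ref b c) : Ref a c :=
  ⟨fun m h => (h₂.1 m ((h₁.1 m h).symm ▸ h)).trans (h₁.1 m h),
    fun m m' h => h₂.2 m m' (h₁.2 m m' h)⟩

theorem Rel.refl (T : Set Θ) (l : Loc) : Rel T l l := fun _ _ => Ref.refl _

theorem Rel.trans {T T' : Set Θ} {a b c : Loc} (h₁ : Rel T a b) (h₂ : Rel T' b c) (h : T ⊆ T') :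
    Rel T a c := fun β hβ => (h₁ β hβ).trans (h₂ β (h hβ))

theorem Rel.mono {T T' : Set Θ} {a b : Loc} (h₁ : Rel T' a b) (h : T ⊆ T') : Rel T a b :=
  fun β hβ => h₁ β (h hβ)

theorem g_of_le {l : Loc} {β : Θ} {m : ℕ} (h : l.e m ≤ l.k β) : l.g β m = (l.c β m).toNat :=
  if_pos h

theorem g_of_lt {l : Loc} {β : Θ} {m : ℕ} (h : l.k β < l.e m) : l.g β m = l.e m + 1 :=
  if_neg h.not_ge

theorem g_le_one {l : Loc} {β : Θ} {m : ℕ} : l.g β m ≤ 1 ↔ l.e m ≤ l.k β := by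
  rcases le_or_gt (l.e m) (l.k β) with h | h
  · simp [g_of_le h, h, Bool.toNat_le]
  · rw [g_of_lt h]; omega

theorem g_eq {l : Loc} {β : Θ} {m m' : ℕ} (h : l.k β < l.e m) :
    l.g β m = l.g β m' ↔ l.e m = l.e m' := by
  rw [g_of_lt h]
  rcases le_or_gt (l.e m') (l.k β) with h' | h'
  · have := g_le_one.2 h'
    omega
  · rw [g_of_lt h']; omega

theorem ref_of {l : Loc} {β : Θ} {γ : ℕ → ℕ} (h₁ : ∀ m, l.e m ≤ l.k β → γ m = (l.c β m).toNat)
    (h₂ : ∀ m m', l.k β < l.e m → l.e m = l.e m' → γ m = γ m') : Ref (l.g β) γ := by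
  have h₃ : ∀ m, l.g β m ≤ 1 → γ m = l.g β m := fun m h => by
    rw [h₁ m (g_le_one.1 h), g_of_le (g_le_one.1 h)]
  refine ⟨h₃, fun m m' h => ?_⟩
  rcases le_or_gt (l.e m) (l.k β) with h' | h'
  · have := g_le_one.2 h'
    rw [h₃ m this, h₃ m' (h ▸ this), h]
  · exact h₂ m m' h' ((g_eq h').1 h)

theorem Ref.fix {l : Loc} {β : Θ} {γ : ℕ → ℕ} (h : Ref (l.g β) γ) {m : ℕ} (hm : l.e m ≤ l.k β) :
    γ m = (l.c β m).toNat := by
  rw [h.1 m (g_le_one.2 hm), g_of_le hm]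

theorem Ref.cls {l : Loc} {β : Θ} {γ : ℕ → ℕ} (h : Ref (l.g β) γ) {m m' : ℕ} (hm : l.k β < l.e m)
    (e : l.e m = l.e m') : γ m = γ m' := h.2 m m' ((g_eq hm).2 e)

theorem Ref.le {l l' : Loc} {β : Θ} (h : Ref (l.g β) (l'.g β)) {m : ℕ} (hm : l.e m ≤ l.k β) :
    l'.e m ≤ l'.k β := g_le_one.1 (h.fix hm ▸ Bool.toNat_le _)

/-- Almost coarsening. -/
def AC (e e' : ℕ → ℕ) (K : ℕ) : Prop :=
  ∀ m m', e m = e m' → e' m = e' m' ∨ (e' m ≤ K ∧ e' m' ≤ K)

theorem AC.mono {e e' : ℕ → ℕ} {K K' : ℕ} (h : AC e e' K) (hK : K ≤ K') : AC e e' K' :=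
  fun m m' e => (h m m' e).imp id fun h => ⟨h.1.trans hK, h.2.trans hK⟩

theorem Ref.ac {l l' : Loc} {β : Θ} (h : Ref (l.g β) (l'.g β)) : AC l.e l'.e (l'.k β) := by
  intro m m' e
  rcases le_or_gt (l.e m) (l.k β) with h₁ | h₁
  · exact Or.inr ⟨h.le h₁, h.le (e ▸ h₁)⟩
  · have h₂ := h.cls h₁ e
    rcases le_or_gt (l'.e m) (l'.k β) with h₃ | h₃
    · exact Or.inr ⟨h₃, g_le_one.1 (h₂ ▸ g_le_one.2 h₃)⟩
    · exact Or.inl ((g_eq h₃).1 h₂)

noncomputable def bnd (e e' : ℕ → ℕ) (k : ℕ) : ℕ := sInf {K | ∀ m, e m ≤ k → e' m ≤ K}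

theorem le_bnd {e e' : ℕ → ℕ} {K : ℕ} (h : AC e e' K) {k m : ℕ} (hm : e m ≤ k) :
    e' m ≤ bnd e e' k := by
  have h₁ : ∀ j, ∃ B, ∀ m, e m = j → e' m ≤ B := by
    intro j
    by_cases h₂ : ∃ m, e m = j
    · obtain ⟨m₀, rfl⟩ := h₂
      refine ⟨max K (e' m₀), fun m e => ?_⟩
      rcases h m m₀ e with h | h <;> omega
    · exact ⟨0, fun m e => absurd ⟨m, e⟩ h₂⟩
  choose B hB using h₁
  have h₃ : {K | ∀ m, e m ≤ k → e' m ≤ K}.Nonempty :=
    ⟨(Finset.range (k + 1)).sup B, fun m hm => (hB _ m rfl).trans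
      (Finset.le_sup (f := B) (Finset.mem_range.2 (Nat.lt_succ_of_le hm)))⟩
  exact Nat.sInf_mem h₃ m hm

/-- Change the partition and the stems. -/
def retile (l : Loc) (e' : ℕ → ℕ) (k' : Θ → ℕ) : Loc :=
  ⟨e', fun β m => if l.e m ≤ l.k β then l.c β m else false, k'⟩

theorem ref_retile {l : Loc} {e' : ℕ → ℕ} {k' : Θ → ℕ} {β : Θ}
    (h₁ : ∀ m, l.e m ≤ l.k β → e' m ≤ k' β)
    (h₂ : ∀ m m', l.k β < l.e m → l.e m = l.e m' → e' m = e' m' ∨ (e' m ≤ k' β ∧ e' m' ≤ k' β)) :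
    Ref (l.g β) ((retile l e' k').g β) := by
  refine ref_of (fun m hm => ?_) fun m m' hm e => ?_
  · rw [g_of_le (l := retile l e' k') (h₁ m hm)]
    simp [retile, hm]
  · have hm' : l.k β < l.e m' := e ▸ hm
    have := h₂ m m' hm e
    simp only [Loc.g, retile, if_neg hm.not_ge, if_neg hm'.not_ge]
    split_ifs <;> omega

noncomputable def adopt (l : Loc) (e' : ℕ → ℕ) (K : ℕ) : Loc :=
  retile l e' fun β => max K (bnd l.e e' (l.k β))

theorem ref_adopt {l : Loc} {e' : ℕ → ℕ} {K : ℕ} (h : AC l.e e' K) (β : Θ) :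
    Ref (l.g β) ((adopt l e' K).g β) :=
  ref_retile (fun _ hm => (le_bnd h hm).trans (le_max_right _ _))
    fun m m' _ e => h.mono (le_max_left _ _) m m' e

/-- Extend the stems. -/
def setr (l : Loc) (k' : Θ → ℕ) (val : Θ → ℕ → Bool) : Loc :=
  ⟨l.e, fun β m => if l.e m ≤ l.k β then l.c β m else val β (l.e m), fun β => max (l.k β) (k' β)⟩

theorem setr_g (l : Loc) (k' : Θ → ℕ) (val : Θ → ℕ → Bool) (β : Θ) (m : ℕ) :
    (setr l k' val).g β m = if l.e m ≤ l.k β then (l.c β m).toNat else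
      if l.e m ≤ k' β then (val β (l.e m)).toNat else l.e m + 1 := by
  simp only [Loc.g, setr, le_max_iff]
  split_ifs <;> tauto

theorem ref_setr (l : Loc) (k' : Θ → ℕ) (val : Θ → ℕ → Bool) (β : Θ) :
    Ref (l.g β) ((setr l k' val).g β) := by
  refine ref_of (fun m hm => by rw [setr_g, if_pos hm]) fun m m' hm e => ?_
  rw [setr_g, setr_g, ← e, if_neg hm.not_ge, if_neg hm.not_ge]

theorem setr_g_of_le {l : Loc} {k' : Θ → ℕ} (val : Θ → ℕ → Bool) {β : Θ} (h : k' β ≤ l.k β) :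
    (setr l k' val).g β = l.g β := by
  funext m
  rw [setr_g, Loc.g]
  split_ifs <;> first | rfl | omega

theorem ref_setr_of {l : Loc} {k' : Θ → ℕ} {val : Θ → ℕ → Bool} {β : Θ} {γ : ℕ → ℕ}
    (h₁ : Ref (l.g β) γ)
    (h₂ : ∀ m, l.k β < l.e m → l.e m ≤ k' β → γ m = (val β (l.e m)).toNat) :
    Ref ((setr l k' val).g β) γ := by
  refine ref_of (fun m hm => ?_) fun m m' hm e => h₁.cls ((le_max_left _ _).trans_lt hm) e
  rcases le_or_gt (l.e m) (l.k β) with h | h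
  · simp [setr, h, h₁.fix h]
  · have : l.e m ≤ k' β := (le_max_iff.1 hm).resolve_left h.not_ge
    simp [setr, h.not_ge, h₂ m h this]

noncomputable def mix (T : Set Θ) (l l' : Loc) : Loc :=
  ⟨l.e, fun β => if β ∈ T then l.c β else l'.c β, fun β => if β ∈ T then l.k β else l'.k β⟩

theorem mix_g_mem {T : Set Θ} (l l' : Loc) {β : Θ} (h : β ∈ T) : (mix T l l').g β = l.g β := by
  funext m
  simp [Loc.g, mix, h]

theorem mix_g_not {T : Set Θ} {l l' : Loc} {β : Θ} (h : β ∉ T) (e : l'.e = l.e) :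
    (mix T l l').g β = l'.g β := by
  funext m
  simp [Loc.g, mix, h, e]

def triv : Loc := ⟨id, fun _ _ => false, fun _ => 0⟩

def newe (e₀ e₁ : ℕ → ℕ) (n K z m : ℕ) : ℕ :=
  if e₀ m ≤ n then e₀ m else if e₁ m ≤ K then z else e₁ m

noncomputable def bump (l : Loc) (n : ℕ) (F : Finset Θ) (e₁ : ℕ → ℕ) (K : ℕ) : Loc :=
  retile l (newe l.e e₁ n K n) fun β =>
    if β ∈ F then min (l.k β) n else bnd l.e (newe l.e e₁ n K n) (l.k β)

theorem ref_bump {l : Loc} {n : ℕ} {F : Finset Θ} {e₁ : ℕ → ℕ} {K : ℕ}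
    (h₁ : ∀ m m', n < l.e m → l.e m = l.e m' → e₁ m = e₁ m' ∨ (e₁ m ≤ K ∧ e₁ m' ≤ K))
    (h₂ : ∀ β ∈ F, ∀ m, n < l.e m → l.e m ≤ l.k β → e₁ m ≤ K) (β : Θ) :
    Ref (l.g β) ((bump l n F e₁ K).g β) := by
  have h₃ : ∀ m m', l.e m = l.e m' → newe l.e e₁ n K n m = newe l.e e₁ n K n m' := by
    intro m m' e
    have := h₁ m m'
    unfold newe
    split_ifs <;> omega
  refine ref_retile (fun m hm => ?_) fun m m' _ e => Or.inl (h₃ m m' e)
  split_ifs with h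
  · have := h₂ β h m
    unfold newe
    split_ifs <;> omega
  · exact le_bnd (K := 0) (fun m m' e => Or.inl (h₃ m m' e)) hm

noncomputable def aupd (l₀ l₁ : Loc) (n : ℕ) (F : Finset Θ) (K : ℕ) : Loc :=
  retile l₁ (newe l₀.e l₁.e n K 0) fun β => if β ∈ F then l₀.k β else max K (l₁.k β)

/-- Following a branch. -/
noncomputable def sig (l : Loc) (F : Finset Θ) (n : ℕ) (σ : Θ → ℕ → Bool) : Loc :=
  setr l (fun β => if β ∈ F then n else 0) σ

theorem sig_g_not {F : Finset Θ} {β : Θ} (h : β ∉ F) (l : Loc) (n : ℕ) (σ : Θ → ℕ → Bool) :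
    (sig l F n σ).g β = l.g β := setr_g_of_le _ (by simp [h])

theorem sig_g_mem {F : Finset Θ} {β : Θ} (h : β ∈ F) (l : Loc) (n : ℕ) (σ : Θ → ℕ → Bool)
    (m : ℕ) : (sig l F n σ).g β m = if l.e m ≤ l.k β then (l.c β m).toNat else
      if l.e m ≤ n then (σ β (l.e m)).toNat else l.e m + 1 := by
  rw [sig, setr_g, if_pos h]

theorem sig_le {F : Finset Θ} {β : Θ} (h : β ∈ F) {l l₁ : Loc} {n : ℕ} {σ : Θ → ℕ → Bool}
    (r : Ref ((sig l F n σ).g β) (l₁.g β)) {m : ℕ} (hm : l.e m ≤ n) : l₁.e m ≤ l₁.k β :=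
  r.le (by simp [sig, setr, h, hm])

theorem ref_aupd_sig {l₀ l₁ : Loc} {n K : ℕ} {F : Finset Θ} {σ : Θ → ℕ → Bool}
    (hK : n ≤ K) (hF : ∀ β ∈ F, l₀.k β < n ∧ l₁.k β ≤ K ∧ Ref ((sig l₀ F n σ).g β) (l₁.g β))
    (hle : ∀ m, l₀.e m ≤ n → l₁.e m ≤ K) (β : Θ) :
    Ref (l₁.g β) ((sig (aupd l₀ l₁ n F K) F n σ).g β) := by
  by_cases h : β ∈ F
  · obtain ⟨h₁, h₂, h₃⟩ := hF β h
    refine ref_of (fun m hm => ?_) fun m m' hm e => ?_
    · have h₄ := h₃.1 m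
      rw [sig_g_mem h, g_of_le hm] at h₄
      rw [sig_g_mem h]
      simp only [aupd, retile, newe, if_pos h, if_pos hm, if_pos (hm.trans h₂)]
      by_cases h₅ : l₀.e m ≤ n
      · simp only [if_pos h₅] at h₄ ⊢
        split_ifs at h₄ ⊢ with h₆
        · rfl
        · exact (h₄ (Bool.toNat_le _)).symm
      · simp [h₅]
    · have h₄ : ¬ l₀.e m ≤ n := fun h' => (sig_le h h₃ h').not_gt hm
      have h₅ : ¬ l₀.e m' ≤ n := fun h' => (sig_le h h₃ h').not_gt (e ▸ hm)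
      rw [sig_g_mem h, sig_g_mem h]
      simp only [aupd, retile, newe, if_pos h, if_neg h₄, if_neg h₅, ← e, if_neg hm.not_ge]
  · rw [sig_g_not h]
    refine ref_retile (fun m hm => ?_) fun m m' _ e => ?_
    · simp only [if_neg h, newe]
      split_ifs <;> omega
    · have h₁ := hle m
      have h₂ := hle m'
      simp only [if_neg h, newe]
      split_ifs <;> omega

theorem ref_aupd {l₀ l₁ : Loc} {n K : ℕ} {F : Finset Θ} {σ : Θ → ℕ → Bool}
    (hK : n ≤ K) (hF : ∀ β ∈ F, l₀.k β < n ∧ l₁.k β ≤ K ∧ Ref ((sig l₀ F n σ).g β) (l₁.g β))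
    (hle : ∀ m, l₀.e m ≤ n → l₁.e m ≤ K) {β : Θ} (hβ : Ref ((sig l₀ F n σ).g β) (l₁.g β)) :
    Ref (l₀.g β) ((aupd l₀ l₁ n F K).g β) := by
  by_cases h : β ∈ F
  · obtain ⟨h₁, h₂, h₃⟩ := hF β h
    refine ref_of (fun m hm => ?_) fun m m' hm e => ?_
    · have h₄ := h₃.1 m
      have h₅ := sig_le h h₃ (hm.trans h₁.le)
      rw [sig_g_mem h, g_of_le h₅, if_pos hm] at h₄
      simp only [Loc.g, aupd, retile, newe, if_pos h, if_pos hm, if_pos (hm.trans h₁.le), if_pos h₅]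
      exact h₄ (Bool.toNat_le _)
    · by_cases h₄ : l₀.e m ≤ n
      · simp only [Loc.g, aupd, retile, newe, if_pos h, ← e, if_pos h₄, if_neg hm.not_ge]
      · have h₅ := h₃.2 m m' (by
          rw [sig_g_mem h, sig_g_mem h, ← e, if_neg hm.not_ge, if_neg h₄, if_neg hm.not_ge])
        simp only [Loc.g, aupd, retile, newe, if_pos h, ← e, if_neg h₄]
        rcases le_or_gt (l₁.e m) (l₁.k β) with h₆ | h₆
        · have h₇ : l₁.e m' ≤ l₁.k β := g_le_one.1 (h₅ ▸ g_le_one.2 h₆)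
          rw [g_of_le h₆, g_of_le h₇] at h₅
          simp [h₆, h₇, h₆.trans h₂, h₇.trans h₂, h₅]
        · simp only [← (g_eq h₆).1 h₅, if_neg h₆.not_ge]
  · have h₁ := ref_aupd_sig hK hF hle β
    rw [sig_g_not h] at hβ h₁
    exact hβ.trans h₁

theorem ref_sig_sig {l l' : Loc} {n n' : ℕ} {F F' : Finset Θ} {σ σ' : Θ → ℕ → Bool} {β : Θ}
    (h : Ref (l.g β) (l'.g β))
    (hβ : β ∈ F → β ∈ F' ∧ n ≤ n' ∧ l'.k β = l.k β ∧ (∀ m, l.e m ≤ n → l'.e m = l.e m) ∧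
      ∀ j ≤ n, σ' β j = σ β j) : Ref ((sig l F n σ).g β) ((sig l' F' n' σ').g β) := by
  refine ref_setr_of (h.trans (ref_setr _ _ _ _)) fun m h₁ h₂ => ?_
  split_ifs at h₂ with h₃
  · obtain ⟨h₄, h₅, h₆, h₇, h₈⟩ := hβ h₃
    rw [sig_g_mem h₄, h₆, h₇ m h₂, if_neg h₁.not_ge, if_pos (h₂.trans h₅), h₈ _ h₂]
  · omega

/-! ### Limits -/

noncomputable def lim (a : ℕ → ℕ) : ℕ := sInf {v | ∃ i, ∀ j, i ≤ j → a j = v}

theorem lim_eq {a : ℕ → ℕ} {i v : ℕ} (h : ∀ j, i ≤ j → a j = v) : lim a = v := by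
  have : {v | ∃ i, ∀ j, i ≤ j → a j = v} = {v} := by
    refine eq_singleton_iff_unique_mem.2 ⟨⟨i, h⟩, ?_⟩
    rintro w ⟨i', h'⟩
    exact (h' _ (le_max_right i i')).symm.trans (h _ (le_max_left _ _))
  rw [lim, this, csInf_singleton]

noncomputable def limL (l : ℕ → Loc) : Loc :=
  ⟨fun m => lim fun j => (l j).e m, fun β m => decide (lim (fun j => (l j).g β m) = 1),
    fun β => lim fun j => (l j).k β⟩

theorem ref_limL {l : ℕ → Loc} {β : Θ} {i : ℕ}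
    (h : ∀ j j', i ≤ j → j ≤ j' → Ref ((l j).g β) ((l j').g β))
    (he : ∀ m, ∃ j v, ∀ j', j ≤ j' → (l j').e m = v) (hk : ∃ j v, ∀ j', j ≤ j' → (l j').k β = v) :
    Ref ((l i).g β) ((limL l).g β) := by
  have H : ∀ m, ∃ j, ∀ j', j ≤ j' → (l j').g β m = (limL l).g β m := by
    intro m
    obtain ⟨j₁, v, h₁⟩ := he m
    obtain ⟨j₂, w, h₂⟩ := hk
    have e₁ : (limL l).e m = v := lim_eq h₁
    have e₂ : (limL l).k β = w := lim_eq h₂
    let j := max i (max j₁ j₂)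
    have h₃ : ∀ j', j ≤ j' → (l j').e m = v ∧ (l j').k β = w := fun j' hj =>
      ⟨h₁ j' (by omega), h₂ j' (by omega)⟩
    refine ⟨j, fun j' hj => ?_⟩
    rcases le_or_gt v w with h₄ | h₄
    · have h₅ : (l j).g β m ≤ 1 := g_le_one.2 (by rw [(h₃ j le_rfl).1, (h₃ j le_rfl).2]; exact h₄)
      have h₆ : ∀ j', j ≤ j' → (l j').g β m = (l j).g β m := fun j' hj =>
        (h j j' (le_max_left _ _) hj).1 m h₅
      rw [g_of_le (l := limL l) (by rw [e₁, e₂]; exact h₄), h₆ j' hj]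
      simp only [limL, lim_eq h₆]
      rcases Nat.le_one_iff_eq_zero_or_eq_one.1 h₅ with h₇ | h₇ <;> simp [h₇]
    · rw [g_of_lt (l := limL l) (by rw [e₁, e₂]; exact h₄),
        g_of_lt (by rw [(h₃ j' hj).1, (h₃ j' hj).2]; exact h₄), e₁, (h₃ j' hj).1]
  refine ⟨fun m hm => ?_, fun m m' e => ?_⟩
  · obtain ⟨j, hj⟩ := H m
    rw [← hj _ (le_max_left j i)]
    exact (h i _ le_rfl (le_max_right _ _)).1 m hm
  · obtain ⟨j, hj⟩ := H m
    obtain ⟨j', hj'⟩ := H m'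
    rw [← hj (max i (max j j')) (by omega), ← hj' (max i (max j j')) (by omega)]
    exact (h i _ le_rfl (le_max_left _ _)).2 m m' e

/-! ### Measurability -/

section Meas

variable {α : Type*} {mα : MeasurableSpace α}

theorem meas_one {A C : Type*} [MeasurableSpace A] [MeasurableSpace C] [Countable A]
    [MeasurableSingletonClass A] (φ : A → C) {f : α → A} (hf : Measurable f) :
    Measurable fun x => φ (f x) := (measurable_of_countable φ).comp hf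

theorem meas_two {C : Type*} [MeasurableSpace C] (φ : ℕ → ℕ → C) {f g : α → ℕ}
    (hf : Measurable f) (hg : Measurable g) : Measurable fun x => φ (f x) (g x) :=
  (measurable_of_countable fun z : ℕ × ℕ => φ z.1 z.2).comp (hf.prodMk hg)

theorem meas_le {f g : α → ℕ} (hf : Measurable f) (hg : Measurable g) :
    Measurable fun x => f x ≤ g x := meas_two (· ≤ ·) hf hg

theorem meas_lt {f g : α → ℕ} (hf : Measurable f) (hg : Measurable g) :
    Measurable fun x => f x < g x := meas_two (· < ·) hf hg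

theorem meas_eq {f g : α → ℕ} (hf : Measurable f) (hg : Measurable g) :
    Measurable fun x => f x = g x := meas_two (· = ·) hf hg

theorem meas_max {f g : α → ℕ} (hf : Measurable f) (hg : Measurable g) :
    Measurable fun x => max (f x) (g x) := meas_two max hf hg

theorem meas_min {f g : α → ℕ} (hf : Measurable f) (hg : Measurable g) :
    Measurable fun x => min (f x) (g x) := meas_two min hf hg

theorem meas_succ {f : α → ℕ} (hf : Measurable f) : Measurable fun x => f x + 1 :=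
  meas_one (· + 1) hf

theorem meas_toNat {f : α → Bool} (hf : Measurable f) : Measurable fun x => (f x).toNat :=
  meas_one Bool.toNat hf

theorem meas_beq {f : α → Bool} (hf : Measurable f) (b : Bool) : Measurable fun x => f x = b :=
  meas_one (· = b) hf

theorem meas_ite {C : Type*} [MeasurableSpace C] {p : α → Prop} {_ : DecidablePred p}
    {f g : α → C} (hp : Measurable p) (hf : Measurable f) (hg : Measurable g) :
    Measurable fun x => if p x then f x else g x := Measurable.ite hp.setOf hf hg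

theorem meas_decide {p : α → Prop} {_ : DecidablePred p} (hp : Measurable p) :
    Measurable fun x => decide (p x) := by
  have : (fun x => decide (p x)) = fun x => if p x then true else false := by
    funext x; simp
  rw [this]
  exact meas_ite hp measurable_const measurable_const

theorem meas_sInf {p : ℕ → α → Prop} (hp : ∀ n, Measurable (p n)) :
    Measurable fun x => sInf {n | p n x} := by
  refine measurable_to_countable' fun v => ?_
  have : (fun x => sInf {n | p n x}) ⁻¹' {v} =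
      {x | (p v x ∧ ∀ n, n < v → ¬ p n x) ∨ (v = 0 ∧ ∀ n, ¬ p n x)} := by
    ext x
    simp only [mem_preimage, mem_singleton_iff, mem_ofPred_eq]
    by_cases h : ∃ n, p n x
    · constructor
      · rintro rfl
        exact Or.inl ⟨Nat.sInf_mem h, fun n hn => Nat.notMem_of_lt_sInf hn⟩
      · rintro (⟨h₁, h₂⟩ | ⟨-, h₂⟩)
        · exact le_antisymm (Nat.sInf_le h₁) (not_lt.1 fun h₃ => h₂ _ h₃ (Nat.sInf_mem h))
        · exact absurd h (not_exists.2 h₂)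
    · push Not at h
      simp [h, eq_comm]
  rw [this]
  exact (((hp v).and (.forall fun n => measurable_const.imp (hp n).not)).or
    (measurable_const.and (.forall fun n => (hp n).not))).setOf

theorem meas_ball {ι : Type*} {T : Set ι} (hT : T.Countable) {p : ι → α → Prop}
    (hp : ∀ i ∈ T, Measurable (p i)) : Measurable fun x => ∀ i ∈ T, p i x := by
  have := hT.to_subtype
  simpa using Measurable.forall (p := fun (i : T) x => p i x) fun i => hp i i.2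

theorem meas_sup {ι : Type*} (F : Finset ι) {f : ι → α → ℕ} (hf : ∀ i, Measurable (f i)) :
    Measurable fun x => F.sup fun i => f i x := by
  induction F using Finset.induction_on with
  | empty => simp
  | insert i F _ ih => simpa [Finset.sup_insert] using meas_max (hf i) ih

theorem meas_app {C : Type*} [MeasurableSpace C] {F : ℕ → α → C} {f : α → ℕ}
    (hF : ∀ n, Measurable (F n)) (hf : Measurable f) : Measurable fun x => F (f x) x :=
  (measurable_from_prod_countable_left (f := fun z : α × ℕ => F z.2 z.1) hF).comp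
    (measurable_id.prodMk hf)

/-- Selecting along finitely many measurable bits. -/
theorem meas_sel {ι C : Type*} [MeasurableSpace C] (F : Finset ι) {Φ : (ι → Bool) → α → C}
    {φ : α → ι → Bool} (hΦ : ∀ f, Measurable (Φ f))
    (dep : ∀ f f', (∀ i ∈ F, f i = f' i) → Φ f = Φ f')
    (hφ : ∀ i ∈ F, Measurable fun x => φ x i) : Measurable fun x => Φ (φ x) x := by
  intro s hs
  have : (fun x => Φ (φ x) x) ⁻¹' s = ⋃ S ∈ F.powerset,
      {x | ∀ i ∈ (F : Set ι), φ x i = decide (i ∈ S)} ∩ Φ (fun i => decide (i ∈ S)) ⁻¹' s := by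
    ext x
    simp only [mem_preimage, mem_iUnion, mem_inter_iff, mem_ofPred_eq, exists_prop]
    constructor
    · intro h
      have h₁ : ∀ i ∈ F, φ x i = decide (i ∈ F.filter fun i => φ x i = true) := fun i hi => by
        simp [hi]
      exact ⟨_, Finset.mem_powerset.2 (Finset.filter_subset _ _), h₁, dep _ _ h₁ ▸ h⟩
    · rintro ⟨S, -, h₁, h₂⟩
      rwa [dep _ _ h₁]
  rw [this]
  exact Finset.measurableSet_biUnion _ fun S _ =>
    (meas_ball F.countable_toSet fun i hi => meas_beq (hφ i hi) _).setOf.inter (hΦ _ hs)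

theorem meas_and {p q : α → Prop} (hp : Measurable p) (hq : Measurable q) :
    Measurable fun x => p x ∧ q x := hp.and hq

theorem meas_or {p q : α → Prop} (hp : Measurable p) (hq : Measurable q) :
    Measurable fun x => p x ∨ q x := hp.or hq

theorem meas_imp {p q : α → Prop} (hp : Measurable p) (hq : Measurable q) :
    Measurable fun x => p x → q x := hp.imp hq

theorem meas_iff {p q : α → Prop} (hp : Measurable p) (hq : Measurable q) :
    Measurable fun x => p x ↔ q x := hp.iff hq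

theorem meas_not {p : α → Prop} (hp : Measurable p) : Measurable fun x => ¬ p x := hp.not

theorem meas_all {ι : Type*} [Countable ι] {p : ι → α → Prop} (hp : ∀ i, Measurable (p i)) :
    Measurable fun x => ∀ i, p i x := .forall hp

theorem meas_ex {ι : Type*} [Countable ι] {p : ι → α → Prop} (hp : ∀ i, Measurable (p i)) :
    Measurable fun x => ∃ i, p i x := .exists hp

theorem meas_set {p : α → Prop} (hp : Measurable p) : MeasurableSet {x | p x} := hp.setOf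

theorem meas_mem {S : Set α} (h : MeasurableSet S) : Measurable fun x => x ∈ S := h.mem

theorem meas_of_set {p : α → Prop} (h : MeasurableSet {x | p x}) : Measurable p := h.mem

/-- Measurable local data. -/
structure LM (mα : MeasurableSpace α) (l : α → Loc) : Prop where
  e : ∀ m, Measurable fun x => (l x).e m
  c : ∀ β m, Measurable fun x => (l x).c β m
  k : ∀ β, Measurable fun x => (l x).k β

variable {l l' : α → Loc}

theorem LM.const (l : Loc) : LM mα fun _ => l :=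
  ⟨fun _ => measurable_const, fun _ _ => measurable_const, fun _ => measurable_const⟩

theorem LM.mono {mα' : MeasurableSpace α} (h : LM mα l) (hm : mα ≤ mα') : LM mα' l :=
  ⟨fun m => (h.e m).mono hm le_rfl, fun β m => (h.c β m).mono hm le_rfl,
    fun β => (h.k β).mono hm le_rfl⟩

theorem LM.g (h : LM mα l) (β : Θ) (m : ℕ) : Measurable fun x => (l x).g β m := by
  unfold Loc.g
  repeat' first
    | assumption | exact measurable_const | apply LM.e | apply LM.c | apply LM.k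
    | apply meas_ite | apply meas_le | apply meas_lt | apply meas_eq | apply meas_max
    | apply meas_min | apply meas_succ | apply meas_toNat | apply meas_decide | apply meas_sInf
    | apply meas_and | apply meas_or | apply meas_not | apply meas_iff
    | apply meas_imp | apply meas_all | apply meas_ex | (with_reducible apply meas_set)
    | (with_reducible intro _)
    | solve_by_elim

theorem meas_ref {γ γ' : α → ℕ → ℕ} (h : ∀ m, Measurable fun x => γ x m)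
    (h' : ∀ m, Measurable fun x => γ' x m) : Measurable fun x => Ref (γ x) (γ' x) := by
  unfold Ref
  repeat' first
    | assumption | exact measurable_const | apply LM.e | apply LM.c | apply LM.k
    | apply meas_ite | apply meas_le | apply meas_lt | apply meas_eq | apply meas_max
    | apply meas_min | apply meas_succ | apply meas_toNat | apply meas_decide | apply meas_sInf
    | apply meas_and | apply meas_or | apply meas_not | apply meas_iff
    | apply meas_imp | apply meas_all | apply meas_ex | (with_reducible apply meas_set)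
    | (with_reducible intro _)
    | solve_by_elim

theorem meas_rel {T : Set Θ} (hT : T.Countable) (h : LM mα l) (h' : LM mα l') :
    Measurable fun x => Rel T (l x) (l' x) :=
  meas_ball hT fun β _ => meas_ref (h.g β) (h'.g β)

theorem meas_bnd {e e' : α → ℕ → ℕ} {k : α → ℕ} (h : ∀ m, Measurable fun x => e x m)
    (h' : ∀ m, Measurable fun x => e' x m) (hk : Measurable k) :
    Measurable fun x => bnd (e x) (e' x) (k x) := by
  unfold bnd
  repeat' first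
    | assumption | exact measurable_const | apply LM.e | apply LM.c | apply LM.k
    | apply meas_ite | apply meas_le | apply meas_lt | apply meas_eq | apply meas_max
    | apply meas_min | apply meas_succ | apply meas_toNat | apply meas_decide | apply meas_sInf
    | apply meas_and | apply meas_or | apply meas_not | apply meas_iff
    | apply meas_imp | apply meas_all | apply meas_ex | (with_reducible apply meas_set)
    | (with_reducible intro _)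
    | solve_by_elim

theorem LM.ite {p : α → Prop} {_ : DecidablePred p} (hp : Measurable p) (h : LM mα l)
    (h' : LM mα l') : LM mα fun x => if p x then l x else l' x := by
  refine ⟨fun m => ?_, fun β m => ?_, fun β => ?_⟩
  · simp only [apply_ite Loc.e, ite_apply]
    repeat' first
      | assumption | exact measurable_const | apply LM.e | apply LM.c | apply LM.k
      | apply meas_ite | apply meas_le | apply meas_lt | apply meas_eq | apply meas_max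
      | apply meas_min | apply meas_succ | apply meas_toNat | apply meas_decide | apply meas_sInf
      | apply meas_and | apply meas_or | apply meas_not | apply meas_iff
      | apply meas_imp | apply meas_all | apply meas_ex | (with_reducible apply meas_set)
      | (with_reducible intro _)
      | solve_by_elim
  · simp only [apply_ite Loc.c, ite_apply]
    repeat' first
      | assumption | exact measurable_const | apply LM.e | apply LM.c | apply LM.k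
      | apply meas_ite | apply meas_le | apply meas_lt | apply meas_eq | apply meas_max
      | apply meas_min | apply meas_succ | apply meas_toNat | apply meas_decide | apply meas_sInf
      | apply meas_and | apply meas_or | apply meas_not | apply meas_iff
      | apply meas_imp | apply meas_all | apply meas_ex | (with_reducible apply meas_set)
      | (with_reducible intro _)
      | solve_by_elim
  · simp only [apply_ite Loc.k, ite_apply]
    repeat' first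
      | assumption | exact measurable_const | apply LM.e | apply LM.c | apply LM.k
      | apply meas_ite | apply meas_le | apply meas_lt | apply meas_eq | apply meas_max
      | apply meas_min | apply meas_succ | apply meas_toNat | apply meas_decide | apply meas_sInf
      | apply meas_and | apply meas_or | apply meas_not | apply meas_iff
      | apply meas_imp | apply meas_all | apply meas_ex | (with_reducible apply meas_set)
      | (with_reducible intro _)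
      | solve_by_elim

theorem LM.retile (h : LM mα l) {e : α → ℕ → ℕ} {k : α → Θ → ℕ}
    (he : ∀ m, Measurable fun x => e x m) (hk : ∀ β, Measurable fun x => k x β) :
    LM mα fun x => retile (l x) (e x) (k x) :=
  ⟨he, fun β m => meas_ite (meas_le (h.e m) (h.k β)) (h.c β m) measurable_const, hk⟩

theorem LM.adopt (h : LM mα l) {e : α → ℕ → ℕ} {K : α → ℕ}
    (he : ∀ m, Measurable fun x => e x m) (hK : Measurable K) :
    LM mα fun x => adopt (l x) (e x) (K x) :=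
  h.retile he fun β => meas_max hK (meas_bnd h.e he (h.k β))

theorem LM.setr (h : LM mα l) {k : α → Θ → ℕ} (val : Θ → ℕ → Bool)
    (hk : ∀ β, Measurable fun x => k x β) : LM mα fun x => setr (l x) (k x) val :=
  ⟨h.e, fun β m => meas_ite (meas_le (h.e m) (h.k β)) (h.c β m) (meas_one (val β) (h.e m)),
    fun β => meas_max (h.k β) (hk β)⟩

theorem LM.sig (h : LM mα l) (F : Finset Θ) (n : ℕ) (σ : Θ → ℕ → Bool) :
    LM mα fun x => sig (l x) F n σ := h.setr σ fun _ => measurable_const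

theorem LM.mix (T : Set Θ) (h : LM mα l) (h' : LM mα l') : LM mα fun x => mix T (l x) (l' x) := by
  refine ⟨h.e, fun β m => ?_, fun β => ?_⟩
  · simp only [Pool.Agent.MP_9c82b4_lc.mix, ite_apply]
    repeat' first
      | assumption | exact measurable_const | apply LM.e | apply LM.c | apply LM.k
      | apply meas_ite | apply meas_le | apply meas_lt | apply meas_eq | apply meas_max
      | apply meas_min | apply meas_succ | apply meas_toNat | apply meas_decide | apply meas_sInf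
      | apply meas_and | apply meas_or | apply meas_not | apply meas_iff
      | apply meas_imp | apply meas_all | apply meas_ex | (with_reducible apply meas_set)
      | (with_reducible intro _)
      | solve_by_elim
  · simp only [Pool.Agent.MP_9c82b4_lc.mix]
    repeat' first
      | assumption | exact measurable_const | apply LM.e | apply LM.c | apply LM.k
      | apply meas_ite | apply meas_le | apply meas_lt | apply meas_eq | apply meas_max
      | apply meas_min | apply meas_succ | apply meas_toNat | apply meas_decide | apply meas_sInf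
      | apply meas_and | apply meas_or | apply meas_not | apply meas_iff
      | apply meas_imp | apply meas_all | apply meas_ex | (with_reducible apply meas_set)
      | (with_reducible intro _)
      | solve_by_elim

theorem meas_newe {e e' : α → ℕ → ℕ} {K : α → ℕ} (h : ∀ m, Measurable fun x => e x m)
    (h' : ∀ m, Measurable fun x => e' x m) (hK : Measurable K) (n z m : ℕ) :
    Measurable fun x => newe (e x) (e' x) n (K x) z m := by
  unfold newe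
  repeat' first
    | assumption | exact measurable_const | apply LM.e | apply LM.c | apply LM.k
    | apply meas_ite | apply meas_le | apply meas_lt | apply meas_eq | apply meas_max
    | apply meas_min | apply meas_succ | apply meas_toNat | apply meas_decide | apply meas_sInf
    | apply meas_and | apply meas_or | apply meas_not | apply meas_iff
    | apply meas_imp | apply meas_all | apply meas_ex | (with_reducible apply meas_set)
    | (with_reducible intro _)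
    | solve_by_elim

theorem LM.bump (h : LM mα l) (n : ℕ) (F : Finset Θ) {e : α → ℕ → ℕ} {K : α → ℕ}
    (he : ∀ m, Measurable fun x => e x m) (hK : Measurable K) :
    LM mα fun x => bump (l x) n F (e x) (K x) :=
  h.retile (meas_newe h.e he hK n n) fun β => meas_ite measurable_const
    (meas_min (h.k β) measurable_const) (meas_bnd h.e (meas_newe h.e he hK n n) (h.k β))

theorem LM.aupd (h : LM mα l) (h' : LM mα l') (n : ℕ) (F : Finset Θ) {K : α → ℕ}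
    (hK : Measurable K) : LM mα fun x => aupd (l x) (l' x) n F (K x) :=
  h'.retile (meas_newe h.e h'.e hK n 0) fun β => meas_ite measurable_const (h.k β)
    (meas_max hK (h'.k β))

theorem meas_lim {a : α → ℕ → ℕ} (h : ∀ j, Measurable fun x => a x j) :
    Measurable fun x => lim (a x) := by
  unfold lim
  repeat' first
    | assumption | exact measurable_const | apply LM.e | apply LM.c | apply LM.k
    | apply meas_ite | apply meas_le | apply meas_lt | apply meas_eq | apply meas_max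
    | apply meas_min | apply meas_succ | apply meas_toNat | apply meas_decide | apply meas_sInf
    | apply meas_and | apply meas_or | apply meas_not | apply meas_iff
    | apply meas_imp | apply meas_all | apply meas_ex | (with_reducible apply meas_set)
    | (with_reducible intro _)
    | solve_by_elim

theorem LM.limL {l : ℕ → α → Loc} (h : ∀ j, LM mα (l j)) : LM mα fun x => limL fun j => l j x :=
  ⟨fun m => meas_lim fun j => (h j).e m,
    fun β m => meas_decide (meas_eq (meas_lim fun j => (h j).g β m) measurable_const),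
    fun β => meas_lim fun j => (h j).k β⟩

theorem LM.sel {ι : Type*} (F : Finset ι) {Φ : (ι → Bool) → α → Loc}
    {φ : α → ι → Bool} (hΦ : ∀ f, LM mα (Φ f))
    (dep : ∀ f f', (∀ i ∈ F, f i = f' i) → Φ f = Φ f')
    (hφ : ∀ i ∈ F, Measurable fun x => φ x i) : LM mα fun x => Φ (φ x) x :=
  ⟨fun m => meas_sel F (Φ := fun f x => (Φ f x).e m) (fun f => (hΦ f).e m)
      (fun f f' h => by rw [dep f f' h]) hφ,
    fun β m => meas_sel F (Φ := fun f x => (Φ f x).c β m) (fun f => (hΦ f).c β m)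
      (fun f f' h => by rw [dep f f' h]) hφ,
    fun β => meas_sel F (Φ := fun f x => (Φ f x).k β) (fun f => (hΦ f).k β)
      (fun f f' h => by rw [dep f f' h]) hφ⟩

end Meas

end Pool.Agent.MP_9c82b4_lc

end

section

namespace Pool.Agent.MP_9c82b4_lc

open Set Classical MeasureTheory

/-- Measurable names of sets of natural numbers. -/
def Meas (A : Set Θ) : Set (X → Set ℕ) := {F | ∀ m, MS A {x | m ∈ F x}}

theorem Meas.mono {A B : Set Θ} (h : A ⊆ B) : Meas A ⊆ Meas B := fun _ hF m => (hF m).mono h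

instance small_meas (ν : Θ) : Small.{0} (Meas (Iio ν)) :=
  small_subset (show Meas (Iio ν) ⊆ Inv ν (Set ℕ) from
    fun _ hF _ _ e => Set.ext fun m => gen_inv (hF m) e)

def NS (ν : Θ) : Set ((X → Set ℕ) → Θ) :=
  {φ | ∀ F, (F ∈ Meas (Iio ν) → φ F < ν) ∧ (F ∉ Meas (Iio ν) → φ F = 0)}

theorem small_NS (ν : Θ) : Small.{0} (NS ν) := by
  refine small_of_injective (f := fun (φ : NS ν) (F : Meas (Iio ν)) =>
    (⟨φ.1 F, (φ.2 F).1 F.2⟩ : Iio ν)) fun φ ψ e => ?_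
  ext F
  by_cases h : F ∈ Meas (Iio ν)
  · exact congrArg Subtype.val (congrFun e ⟨F, h⟩)
  · rw [(φ.2 F).2 h, (ψ.2 F).2 h]

noncomputable def nb : Θ → Θ × ((X → Set ℕ) → Θ) := (exists_book NS small_NS).choose

noncomputable def mu (τ : Θ) : Θ := min (nb τ).1 τ

noncomputable def xi (τ : Θ) : (X → Set ℕ) → Θ := (nb τ).2

theorem mu_le (τ : Θ) : mu τ ≤ τ := min_le_right _ _

theorem exists_node {ν : Θ} {φ : (X → Set ℕ) → Θ} (h : ∀ F ∈ Meas (Iio ν), φ F < ν) :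
    ∃ τ, mu τ = ν ∧ ∀ F ∈ Meas (Iio ν), xi τ F = φ F := by
  obtain ⟨τ, h₁, h₂⟩ := (exists_book NS small_NS).choose_spec ν
    (fun F => if F ∈ Meas (Iio ν) then φ F else 0)
    (fun F => ⟨fun hF => by simpa [hF] using h F hF, fun hF => by simp [hF]⟩)
  change nb τ = _ at h₂
  exact ⟨τ, by simp [mu, h₂, h₁], fun F hF => by simp [xi, h₂, hF]⟩

/-- The level on which node `τ` depends. -/
abbrev lo (τ : Θ) : Set Θ := Iio (mu τ)

theorem lo_sub {A : Set Θ} (hA : IsLowerSet A) {τ : Θ} (h : τ ∈ A) : lo τ ⊆ A :=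
  fun _ hx => hA (hx.le.trans (mu_le τ)) h

theorem lo_lower (τ : Θ) : IsLowerSet (lo τ) := isLowerSet_Iio _

theorem not_mem_lo (τ : Θ) : τ ∉ lo τ := (mu_le τ).not_gt

noncomputable def bit (τ : Θ) (F : X → Set ℕ) (x : X) : Bool :=
  decide (xi τ F < mu τ ∧ x (.O (xi τ F)) = 1)

def sel (τ : Θ) (F : X → Set ℕ) (x : X) : Set ℕ := {m | m ∈ F x ↔ bit τ F x = true}

theorem meas_bit (τ : Θ) (F : X → Set ℕ) : Measurable[gen (mK (lo τ))] (bit τ F) := by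
  refine meas_decide ?_
  by_cases h : xi τ F < mu τ
  · exact meas_and measurable_const (meas_eq (gen_eval (κ := .O (xi τ F)) h) measurable_const)
  · simp [h]

/-- Preconditions. -/
@[ext] structure Pre : Type 1 where
  b : Set X
  T : Set Θ
  L : Θ → X → Loc
  hT : T.Countable
  hL : ∀ τ, LM (gen (mK (lo τ))) (L τ)

noncomputable def res (A : Set Θ) (p : Pre) : Pre :=
  ⟨proj A p.b, p.T ∩ A, p.L, p.hT.mono inter_subset_left, p.hL⟩

@[simp] theorem res_b (A : Set Θ) (p : Pre) : (res A p).b = proj A p.b := rfl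
@[simp] theorem res_T (A : Set Θ) (p : Pre) : (res A p).T = p.T ∩ A := rfl
@[simp] theorem res_L (A : Set Θ) (p : Pre) : (res A p).L = p.L := rfl

theorem res_res {A B : Set Θ} (h : A ⊆ B) (p : Pre) : res A (res B p) = res A p :=
  Pre.ext (proj_proj h _) (by simp [inter_assoc, inter_eq_right.2 h]) rfl

noncomputable def nrm (ν : Θ) (p : Pre) : Pre :=
  ⟨p.b, p.T, fun τ x => if τ < ν then mix (Iio ν) (p.L τ x) triv else triv, p.hT,
    fun τ => LM.ite measurable_const ((p.hL τ).mix _ (.const _)) (.const _)⟩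

def Nrm (ν : Θ) : Set Pre := range fun p : {p : Pre // FS (Iio ν) p.b ∧ p.T ⊆ Iio ν} => nrm ν p

theorem small_of_factor {A B C : Type*} [Small.{0} C] (f : A → B) (g : A → C)
    (h : ∀ a a', g a = g a' → f a = f a') : Small.{0} (range f) :=
  small_of_injective (f := fun y : range f => g y.2.choose) fun y y' e =>
    Subtype.ext (y.2.choose_spec.symm.trans ((h _ _ e).trans y'.2.choose_spec))

instance small_Nrm (ν : Θ) : Small.{0} (Nrm ν) := by
  let Y := (ℕ → ℕ) × (Iio ν → (ℕ → Bool) × ℕ)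
  refine small_of_factor (C := Inv ν Prop × Set (Iio ν) × (Iio ν → Inv ν Y)) _
    (fun p => (⟨fun x => x ∈ p.1.b, fun x y e => propext (gen_inv p.2.1.ms e)⟩, Subtype.val ⁻¹' p.1.T,
      fun τ => ⟨fun x => ((p.1.L τ x).e, fun β => ((p.1.L τ x).c β, (p.1.L τ x).k β)),
        fun x y e => ?_⟩)) fun p q e => ?_
  · have h := (p.1.hL τ).mono (gen_mono (mK_mono (lo_sub (isLowerSet_Iio ν) τ.2)))
    refine Prod.ext (funext fun m => inv_of_meas (h.e m) x y e) (funext fun β => ?_)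
    exact Prod.ext (funext fun m => inv_of_meas (h.c β m) x y e) (inv_of_meas (h.k β) x y e)
  · simp only [Prod.mk.injEq, Subtype.mk.injEq] at e
    obtain ⟨h₁, h₂, h₃⟩ := e
    refine Pre.ext (Set.ext fun x => iff_of_eq (congrFun h₁ x)) (Set.ext fun τ => ⟨fun h => ?_,
      fun h => ?_⟩) ?_
    · exact (Set.ext_iff.1 h₂ ⟨τ, p.2.2 h⟩).1 h
    · exact (Set.ext_iff.1 h₂ ⟨τ, q.2.2 h⟩).2 h
    · funext τ x
      simp only [nrm]
      split_ifs with h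
      · have h₄ := congrFun (congrArg Subtype.val (congrFun h₃ ⟨τ, h⟩)) x
        simp only [Y, Prod.mk.injEq] at h₄
        simp only [mix, h₄.1, Loc.mk.injEq, true_and]
        constructor <;> funext β <;> split_ifs with h'
        · exact congrArg Prod.fst (congrFun h₄.2 ⟨β, h'⟩)
        · rfl
        · exact congrArg Prod.snd (congrFun h₄.2 ⟨β, h'⟩)
        · rfl
      · rfl

theorem small_YS (ν : Θ) : Small.{0} {Y : Set Pre | Y ⊆ Nrm ν} :=
  inferInstanceAs (Small.{0} (powerset (Nrm ν)))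

noncomputable def Yes (ξ : Θ) : Set Pre := ((exists_book _ small_YS).choose ξ).2

theorem exists_yes {ν : Θ} {Y : Set Pre} (h : Y ⊆ Nrm ν) : ∃ ξ, ν ≤ ξ ∧ Yes ξ = Y := by
  obtain ⟨ξ, h₁, h₂⟩ := (exists_book _ small_YS).choose_spec ν Y h
  exact ⟨ξ, h₁, congrArg Prod.snd h₂⟩

/-! ### The recursive definition -/

abbrev Dat : Type 1 := (Pre → Prop) × (Pre → Set X → Prop)

section Rec

variable (Φ : Θ → Dat)

def LeD (q p : Pre) : Prop :=
  Sub0 q.b p.b ∧ p.T ⊆ q.T ∧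
    ∀ τ ∈ p.T, (Φ (mu τ)).2 (res (lo τ) q) {x | Rel p.T (p.L τ x) (q.L τ x)}

def MemL (ν : Θ) (d : Pre) : Prop := (Φ ν).1 d ∧ d.T ⊆ Iio ν

def SmD (τ : Θ) (d : Pre) (S : X → Set ℕ) : Prop :=
  ∀ d₁, MemL Φ (mu τ) d₁ → LeD Φ d₁ d → ∃ d₂, MemL Φ (mu τ) d₂ ∧ LeD Φ d₂ d₁ ∧
    ∃ 𝓛 : Set (X → Set ℕ), 𝓛.Finite ∧ 𝓛 ⊆ Meas (lo τ) ∧
      (Φ (mu τ)).2 d₂ {x | (S x ∩ ⋂ F ∈ 𝓛, sel τ F x).Finite}

def MemD (A : Set Θ) (p : Pre) : Prop :=
  FS A p.b ∧ pr p.b ≠ 0 ∧ p.T ⊆ A ∧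
    ∀ τ ∈ p.T, ∀ j, SmD Φ τ (res (lo τ) p) fun x => {m | (p.L τ x).e m = j}

def WD : Ξ → ℕ → Pre → Prop
  | .R ξ n, v, p => Sub0 p.b (cyl (.R ξ n) v)
  | .H τ β m, v, p => τ ∈ p.T ∧ β ∈ p.T ∧ v ≤ 1 ∧
      (Φ (mu τ)).2 (res (lo τ) p) {x | (p.L τ x).g β m = v}
  | .O ξ, v, p => v = 1 ∧ ∃ c ∈ Yes ξ, MemL Φ ξ c ∧ LeD Φ p c

noncomputable def ptD (A : Set Θ) (s : ℕ → Pre) : X := fun κ =>
  if κ.lev ∈ A then sInf {v | ∃ n, WD Φ κ v (s n)} else 0

def DenseD (A : Set Θ) (D : Set Pre) : Prop :=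
  ∀ q, MemD Φ A q → ∃ q', MemD Φ A q' ∧ LeD Φ q' q ∧ ∃ d ∈ D, LeD Φ q' d

def ChainD (A : Set Θ) (s : ℕ → Pre) : Prop :=
  (∀ n, MemD Φ A (s n)) ∧ ∀ n m, n ≤ m → LeD Φ (s m) (s n)

def ForceD (A : Set Θ) (p : Pre) (S : Set X) : Prop :=
  ∃ 𝒟 : Set (Set Pre), 𝒟.Countable ∧ (∀ D ∈ 𝒟, DenseD Φ A D) ∧
    ∀ s, ChainD Φ A s → (∃ n, LeD Φ (s n) p) → (∀ D ∈ 𝒟, ∃ n, ∃ d ∈ D, LeD Φ (s n) d) →
      ptD Φ A s ∈ S

variable {Φ} {Φ' : Θ → Dat} {ν : Θ} (h : ∀ α < ν, Φ α = Φ' α)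
include h

theorem LeD_congr {q : Pre} (hq : q.T ⊆ Iio ν) (p : Pre) : LeD Φ q p ↔ LeD Φ' q p :=
  and_congr_right fun _ => and_congr_right fun h₁ => forall₂_congr fun τ hτ => by
    rw [h _ ((mu_le τ).trans_lt (hq (h₁ hτ)))]

theorem MemL_congr {α : Θ} (hα : α < ν) (d : Pre) : MemL Φ α d ↔ MemL Φ' α d := by
  unfold MemL
  rw [h α hα]

theorem SmD_congr {τ : Θ} (hτ : τ < ν) (d : Pre) (S : X → Set ℕ) :
    SmD Φ τ d S ↔ SmD Φ' τ d S := by
  have h₁ : mu τ < ν := (mu_le τ).trans_lt hτ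
  have h₂ : ∀ {d}, MemL Φ' (mu τ) d → d.T ⊆ Iio ν := fun hd => hd.2.trans (Iio_subset_Iio h₁.le)
  unfold SmD
  simp only [MemL_congr h h₁, h _ h₁]
  refine forall₂_congr fun d₁ hd₁ => imp_congr (LeD_congr h (h₂ hd₁) _) ?_
  exact exists_congr fun d₂ => and_congr_right fun hd₂ => by rw [LeD_congr h (h₂ hd₂)]

theorem MemD_congr (p : Pre) : MemD Φ (Iio ν) p ↔ MemD Φ' (Iio ν) p :=
  and_congr_right fun _ => and_congr_right fun _ => and_congr_right fun h₁ =>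
    forall₂_congr fun _ hτ => forall_congr' fun _ => SmD_congr h (h₁ hτ) _ _

theorem WD_congr {κ : Ξ} (hκ : κ.lev < ν) (v : ℕ) {p : Pre} (hp : p.T ⊆ Iio ν) :
    WD Φ κ v p ↔ WD Φ' κ v p := by
  cases κ with
  | R ξ n => rfl
  | H τ β m =>
    simp only [WD]
    rw [h _ ((mu_le τ).trans_lt ((le_max_left τ β).trans_lt hκ))]
  | O ξ => simp only [WD, MemL_congr h (α := ξ) hκ, LeD_congr h hp]

theorem ForceD_congr (p : Pre) (S : Set X) : ForceD Φ (Iio ν) p S ↔ ForceD Φ' (Iio ν) p S := by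
  refine exists_congr fun 𝒟 => and_congr_right fun _ => and_congr ?_ ?_
  · refine forall₂_congr fun D _ => forall_congr' fun q => imp_congr (MemD_congr h q) ?_
    refine exists_congr fun q' => ?_
    rw [MemD_congr h]
    exact and_congr_right fun hq => by simp only [LeD_congr h hq.2.2.1]
  · refine forall_congr' fun s => ?_
    have h₁ : ChainD Φ (Iio ν) s ↔ ChainD Φ' (Iio ν) s := by
      unfold ChainD
      simp only [MemD_congr h]
      exact and_congr_right fun hs => by simp only [fun n => LeD_congr h (hs n).2.2.1]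
    rw [h₁]
    refine forall_congr' fun hs => ?_
    have h₂ : ptD Φ (Iio ν) s = ptD Φ' (Iio ν) s := by
      funext κ
      unfold ptD
      split_ifs with hκ
      · simp only [fun v n => WD_congr h hκ v (hs.1 n).2.2.1]
      · rfl
    simp only [fun n => LeD_congr h (hs.1 n).2.2.1, h₂]

end Rec

noncomputable def Phi : Θ → Dat := (wellFounded_lt (α := Θ)).fix fun ν ih =>
  (MemD (fun α => if h : α < ν then ih α h else default) (Iio ν),
    ForceD (fun α => if h : α < ν then ih α h else default) (Iio ν))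

def Le : Pre → Pre → Prop := LeD Phi
def Mem : Set Θ → Pre → Prop := MemD Phi
def Force : Set Θ → Pre → Set X → Prop := ForceD Phi
def Sm : Θ → Pre → (X → Set ℕ) → Prop := SmD Phi
def W : Ξ → ℕ → Pre → Prop := WD Phi
noncomputable def pt : Set Θ → (ℕ → Pre) → X := ptD Phi
def Dense : Set Θ → Set Pre → Prop := DenseD Phi
def Chain : Set Θ → (ℕ → Pre) → Prop := ChainD Phi

theorem Phi_eq (ν : Θ) : Phi ν = (Mem (Iio ν), Force (Iio ν)) := by
  rw [Phi, WellFounded.fix_eq]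
  have h : ∀ α < ν, (fun α => if _ : α < ν then Phi α else default) α = Phi α :=
    fun α hα => dif_pos hα
  exact Prod.ext (funext fun p => propext (MemD_congr h p))
    (funext₂ fun p S => propext (ForceD_congr h p S))

theorem le_def {q p : Pre} : Le q p ↔ Sub0 q.b p.b ∧ p.T ⊆ q.T ∧
    ∀ τ ∈ p.T, Force (lo τ) (res (lo τ) q) {x | Rel p.T (p.L τ x) (q.L τ x)} := by
  simp only [Le, LeD, Phi_eq]

theorem memL_iff {ν : Θ} {d : Pre} : MemL Phi ν d ↔ Mem (Iio ν) d := by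
  simp only [MemL, Phi_eq]
  exact and_iff_left_of_imp fun h => h.2.2.1

theorem sm_def {τ : Θ} {d : Pre} {S : X → Set ℕ} : Sm τ d S ↔
    ∀ d₁, Mem (lo τ) d₁ → Le d₁ d → ∃ d₂, Mem (lo τ) d₂ ∧ Le d₂ d₁ ∧
      ∃ 𝓛 : Set (X → Set ℕ), 𝓛.Finite ∧ 𝓛 ⊆ Meas (lo τ) ∧
        Force (lo τ) d₂ {x | (S x ∩ ⋂ F ∈ 𝓛, sel τ F x).Finite} := by
  simp only [Sm, SmD, memL_iff, Phi_eq, Le]

theorem mem_def {A : Set Θ} {p : Pre} : Mem A p ↔ FS A p.b ∧ pr p.b ≠ 0 ∧ p.T ⊆ A ∧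
    ∀ τ ∈ p.T, ∀ j, Sm τ (res (lo τ) p) fun x => {m | (p.L τ x).e m = j} := Iff.rfl

theorem W_R {ξ : Θ} {n v : ℕ} {p : Pre} : W (.R ξ n) v p ↔ Sub0 p.b (cyl (.R ξ n) v) := Iff.rfl

theorem W_H {τ β : Θ} {m v : ℕ} {p : Pre} : W (.H τ β m) v p ↔ τ ∈ p.T ∧ β ∈ p.T ∧ v ≤ 1 ∧
    Force (lo τ) (res (lo τ) p) {x | (p.L τ x).g β m = v} := by
  simp only [W, WD, Phi_eq]

theorem W_O {ξ : Θ} {v : ℕ} {p : Pre} :
    W (.O ξ) v p ↔ v = 1 ∧ ∃ c ∈ Yes ξ, Mem (Iio ξ) c ∧ Le p c := by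
  simp only [W, WD, memL_iff, Le]

theorem pt_def (A : Set Θ) (s : ℕ → Pre) (κ : Ξ) :
    pt A s κ = if κ.lev ∈ A then sInf {v | ∃ n, W κ v (s n)} else 0 := rfl

theorem dense_def {A : Set Θ} {D : Set Pre} :
    Dense A D ↔ ∀ q, Mem A q → ∃ q', Mem A q' ∧ Le q' q ∧ ∃ d ∈ D, Le q' d := Iff.rfl

theorem chain_def {A : Set Θ} {s : ℕ → Pre} :
    Chain A s ↔ (∀ n, Mem A (s n)) ∧ ∀ n m, n ≤ m → Le (s m) (s n) := Iff.rfl

theorem force_def {A : Set Θ} {p : Pre} {S : Set X} : Force A p S ↔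
    ∃ 𝒟 : Set (Set Pre), 𝒟.Countable ∧ (∀ D ∈ 𝒟, Dense A D) ∧
      ∀ s, Chain A s → (∃ n, Le (s n) p) → (∀ D ∈ 𝒟, ∃ n, ∃ d ∈ D, Le (s n) d) → pt A s ∈ S := Iff.rfl

attribute [irreducible] Le Mem Force Sm W pt Dense Chain

end Pool.Agent.MP_9c82b4_lc

end

section

namespace Pool.Agent.MP_9c82b4_lc

open Set Classical MeasureTheory

variable {A B : Set Θ} {p q r d : Pre} {S S' : Set X}

theorem Force.mono_set (h : Force A p S) (hS : S ⊆ S') : Force A p S' := by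
  rw [force_def] at h ⊢
  obtain ⟨𝒟, h₁, h₂, h₃⟩ := h
  exact ⟨𝒟, h₁, h₂, fun s a b c => hS (h₃ s a b c)⟩

theorem force_of_forall (h : ∀ x, x ∈ S) : Force A p S :=
  force_def.2 ⟨∅, countable_empty, by simp, fun _ _ _ _ => h _⟩

theorem force_all {ι : Sort*} [Countable ι] {Q : ι → X → Prop} (h : ∀ i, Force A p {x | Q i x}) :
    Force A p {x | ∀ i, Q i x} := by
  simp only [force_def] at h ⊢
  choose 𝒟 h₁ h₂ h₃ using h
  refine ⟨⋃ i, 𝒟 i, countable_iUnion h₁, fun D hD => ?_, fun s a b c i => ?_⟩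
  · obtain ⟨i, hi⟩ := mem_iUnion.1 hD
    exact h₂ i D hi
  · exact h₃ i s a b fun D hD => c D (mem_iUnion.2 ⟨i, hD⟩)

theorem force_ball {ι : Type*} {I : Set ι} (hI : I.Countable) {Q : ι → X → Prop}
    (h : ∀ i ∈ I, Force A p {x | Q i x}) : Force A p {x | ∀ i ∈ I, Q i x} :=
  have := hI.to_subtype
  (force_all (Q := fun (i : I) x => Q i x) fun i => h i i.2).mono_set fun _ hx i hi => hx ⟨i, hi⟩

theorem Force.inter (h : Force A p S) (h' : Force A p S') : Force A p (S ∩ S') :=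
  (force_all (Q := fun (b : Bool) x => x ∈ cond b S S') (by rintro (_ | _); exacts [h', h])).mono_set
    fun _ hx => ⟨hx true, hx false⟩

theorem Force.and {S'' : Set X} (h : Force A p S) (h' : Force A p S')
    (H : ∀ x ∈ S, x ∈ S' → x ∈ S'') : Force A p S'' :=
  (h.inter h').mono_set fun x hx => H x hx.1 hx.2

theorem Le.b (h : Le q p) : Sub0 q.b p.b := (le_def.1 h).1

theorem Le.T (h : Le q p) : p.T ⊆ q.T := (le_def.1 h).2.1

theorem Le.L (h : Le q p) {τ : Θ} (hτ : τ ∈ p.T) :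
    Force (lo τ) (res (lo τ) q) {x | Rel p.T (p.L τ x) (q.L τ x)} := (le_def.1 h).2.2 τ hτ

theorem le_of_pw (h₁ : Sub0 q.b p.b) (h₂ : p.T ⊆ q.T)
    (h₃ : ∀ τ ∈ p.T, ∀ x, Rel p.T (p.L τ x) (q.L τ x)) : Le q p :=
  le_def.2 ⟨h₁, h₂, fun τ hτ => force_of_forall (h₃ τ hτ)⟩

theorem Le.refl (p : Pre) : Le p p := le_of_pw (.refl _) subset_rfl fun _ _ _ => .refl _ _

theorem le_res (A : Set Θ) (p : Pre) : Le p (res A p) :=
  le_of_pw (sub_proj _ _) inter_subset_left fun _ _ _ => .refl _ _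

theorem Le.res (h : Le q p) (hA : IsLowerSet A) : Le (res A q) (res A p) := by
  refine le_def.2 ⟨proj_mono A h.b, inter_subset_inter_left _ h.T, fun τ hτ => ?_⟩
  rw [res_res (lo_sub hA hτ.2)]
  exact (h.L hτ.1).mono_set fun x hx => Rel.mono hx inter_subset_left

theorem Mem.fs (h : Mem A p) : FS A p.b := (mem_def.1 h).1

theorem Mem.pos (h : Mem A p) : pr p.b ≠ 0 := (mem_def.1 h).2.1

theorem Mem.T (h : Mem A p) : p.T ⊆ A := (mem_def.1 h).2.2.1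

theorem Mem.sm (h : Mem A p) {τ : Θ} (hτ : τ ∈ p.T) (j : ℕ) :
    Sm τ (res (lo τ) p) fun x => {m | (p.L τ x).e m = j} := (mem_def.1 h).2.2.2 τ hτ j

theorem le_trans_aux (H : ∀ τ ∈ r.T, ∀ p q S, Le q p → Force (lo τ) p S → Force (lo τ) q S)
    (h₁ : Le r q) (h₂ : Le q p) : Le r p :=
  le_def.2 ⟨h₁.b.trans h₂.b, h₂.T.trans h₁.T, fun τ hτ =>
    (H τ (h₁.T (h₂.T hτ)) _ _ _ (h₁.res (lo_lower τ)) (h₂.L hτ)).and (h₁.L (h₂.T hτ))
      fun _ a b => a.trans b h₂.T⟩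

theorem force_mono_aux (H : ∀ τ ∈ A, ∀ p q S, Le q p → Force (lo τ) p S → Force (lo τ) q S)
    (h : Le q p) (hS : Force A p S) : Force A q S := by
  rw [force_def] at hS ⊢
  obtain ⟨𝒟, h₁, h₂, h₃⟩ := hS
  refine ⟨𝒟, h₁, h₂, fun s hs ⟨n, hn⟩ => h₃ s hs ⟨n, le_trans_aux (fun τ hτ => H τ ?_) hn h⟩⟩
  exact ((chain_def.1 hs).1 n).T hτ

theorem force_mono_Iio (ν : Θ) : ∀ p q S, Le q p → Force (Iio ν) p S → Force (Iio ν) q S := by
  induction ν using WellFoundedLT.induction with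
  | ind ν ih => exact fun p q S => force_mono_aux fun τ hτ => ih _ ((mu_le τ).trans_lt hτ)

theorem Le.trans (h₁ : Le r q) (h₂ : Le q p) : Le r p :=
  le_trans_aux (fun _ _ => force_mono_Iio _) h₁ h₂

theorem Force.mono (hS : Force A p S) (h : Le q p) : Force A q S :=
  force_mono_aux (fun _ _ => force_mono_Iio _) h hS

theorem Le.res_le (h : Le q p) (hA : IsLowerSet A) (hp : Mem A p) : Le (Pool.Agent.MP_9c82b4_lc.res A q) p := by
  refine le_def.2 ⟨(proj_sub hp.fs).2 h.b, subset_inter h.T hp.T, fun τ hτ => ?_⟩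
  rw [res_res (lo_sub hA (hp.T hτ))]
  exact h.L hτ

theorem Sm.mono {τ : Θ} {Z : X → Set ℕ} (h : Sm τ p Z) (hq : Le q p) : Sm τ q Z :=
  sm_def.2 fun d₁ h₁ h₂ => sm_def.1 h d₁ h₁ (h₂.trans hq)

theorem Mem.mono (h : Mem A p) (hAB : A ⊆ B) : Mem B p :=
  mem_def.2 ⟨h.fs.mono hAB, h.pos, h.T.trans hAB, fun _ => h.sm⟩

theorem Mem.res (h : Mem B p) (hA : IsLowerSet A) : Mem A (res A p) := by
  refine mem_def.2 ⟨proj_fs _ _, (sub_proj A p.b).ne_zero h.pos, inter_subset_right,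
    fun τ hτ j => ?_⟩
  rw [res_res (lo_sub hA hτ.2)]
  exact h.sm hτ.1 j

theorem Mem.lo (h : Mem B p) (τ : Θ) : Mem (lo τ) (Pool.Agent.MP_9c82b4_lc.res (lo τ) p) :=
  h.res (lo_lower τ)

/-- A condition whose partitions are taken from a weaker valid condition. -/
theorem mem_of_le (h₁ : FS A q.b) (h₂ : pr q.b ≠ 0) (h₃ : q.T ⊆ A)
    (h₄ : ∀ τ ∈ q.T, ∃ p B, Mem B p ∧ Le q p ∧ τ ∈ p.T ∧ ∀ x, (q.L τ x).e = (p.L τ x).e) :
    Mem A q := by
  refine mem_def.2 ⟨h₁, h₂, h₃, fun τ hτ j => ?_⟩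
  obtain ⟨p, B, a, b, c, e⟩ := h₄ τ hτ
  simp only [e]
  exact (a.sm c j).mono (b.res (lo_lower τ))

def shrink (p : Pre) (a : Set X) : Pre := ⟨p.b ∩ a, p.T, p.L, p.hT, p.hL⟩

@[simp] theorem shrink_b (p : Pre) (a : Set X) : (shrink p a).b = p.b ∩ a := rfl

theorem shrink_le (p : Pre) (a : Set X) : Le (shrink p a) p :=
  le_of_pw (.of_sub inter_subset_left) subset_rfl fun _ _ _ => .refl _ _

theorem shrink_sub (p : Pre) (a : Set X) : Sub0 (shrink p a).b a := .of_sub inter_subset_right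

theorem Le.shrink {a : Set X} (h : Le q p) (ha : Sub0 q.b a) : Le q (shrink p a) :=
  le_def.2 ⟨h.b.inter ha, h.T, fun _ hτ => h.L hτ⟩

theorem Mem.shrink (h : Mem A p) {a : Set X} (ha : FS A a) (h₀ : pr (p.b ∩ a) ≠ 0) :
    Mem A (shrink p a) :=
  mem_of_le (h.fs.inter ha) h₀ h.T fun _ hτ => ⟨p, A, h, shrink_le p a, hτ, fun _ => rfl⟩

/-! ### Consistency and regularity -/

theorem Force.nonempty (h : Force A p S) (hp : Mem A p) : S.Nonempty := by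
  obtain ⟨𝒟, h₁, h₂, h₃⟩ := force_def.1 h
  obtain ⟨D, hD⟩ := (h₁.insert univ).exists_eq_range (insert_nonempty _ _)
  have h₄ : ∀ n, ∀ q : {q // Mem A q}, ∃ q' : {q // Mem A q}, Le q'.1 q.1 ∧ ∃ d ∈ D n, Le q'.1 d := by
    intro n q
    rcases (hD ▸ mem_range_self n : D n ∈ insert univ 𝒟) with e | e
    · exact ⟨q, .refl _, q, e ▸ mem_univ _, .refl _⟩
    · obtain ⟨q', a, b⟩ := dense_def.1 (h₂ _ e) q q.2
      exact ⟨⟨q', a⟩, b⟩
  choose f hf hf' using h₄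
  let s : ℕ → {q // Mem A q} := fun n => Nat.rec ⟨p, hp⟩ f n
  refine ⟨_, h₃ (fun n => (s n).1) (chain_def.2 ⟨fun n => (s n).2, fun n m h => ?_⟩) ⟨0, .refl p⟩
    fun E hE => ?_⟩
  · induction m, h using Nat.le_induction with
    | base => exact .refl _
    | succ m _ ih => exact (hf m (s m)).trans ih
  · obtain ⟨n, rfl⟩ : E ∈ range D := hD ▸ mem_insert_of_mem _ hE
    exact ⟨n + 1, hf' n (s n)⟩

theorem Force.meet (h : Force A p S) (h' : Force A p S') (hp : Mem A p) : ∃ x ∈ S, x ∈ S' :=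
  (h.inter h').nonempty hp

theorem exists_functional {Q : Type*} [Preorder Q] {V : Type*} (E : V → Q → Prop)
    (dense : ∀ p, ∃ q ≤ p, ∃ v, E v q) :
    ∃ E' : V → Q → Prop, (∀ v q, E' v q → ∃ a, q ≤ a ∧ E v a) ∧
      (∀ v p q, q ≤ p → E' v p → E' v q) ∧ (∀ p, ∃ q ≤ p, ∃ v, E' v q) ∧
      ∀ v v' q, E' v q → E' v' q → v = v' := by
  obtain ⟨M, hM⟩ := zorn_subset {M : Set Q | (∀ a ∈ M, ∃ v, E v a) ∧
      ∀ a ∈ M, ∀ a' ∈ M, ∀ r, r ≤ a → r ≤ a' → a = a'} (by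
    intro c hc hch
    refine ⟨⋃₀ c, ⟨fun a ⟨M, hM, ha⟩ => (hc hM).1 a ha, ?_⟩, fun M hM => subset_sUnion_of_mem hM⟩
    rintro a ⟨M, hM, ha⟩ a' ⟨M', hM', ha'⟩
    rcases hch.total hM hM' with h | h
    exacts [(hc hM').2 a (h ha) a' ha', (hc hM).2 a ha a' (h ha')])
  choose val hval using hM.prop.1
  refine ⟨fun v q => ∃ a, ∃ h : a ∈ M, q ≤ a ∧ v = val a h, ?_, ?_, fun p => ?_, ?_⟩
  · rintro _ q ⟨a, h, h₁, rfl⟩
    exact ⟨a, h₁, hval a h⟩
  · rintro v p q h ⟨a, h₁, h₂, h₃⟩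
    exact ⟨a, h₁, h.trans h₂, h₃⟩
  · obtain ⟨q, hq, hv⟩ := dense p
    by_contra hn
    have h₁ : ∀ a ∈ M, ∀ r, r ≤ q → ¬ r ≤ a := fun a ha r h₁ h₂ =>
      hn ⟨r, h₁.trans hq, _, a, ha, h₂, rfl⟩
    refine h₁ q (hM.le_of_ge (y := insert q M) ⟨?_, ?_⟩ (subset_insert _ _) (mem_insert _ _)) q
      le_rfl le_rfl
    · rintro a (rfl | ha)
      exacts [hv, hM.prop.1 a ha]
    · rintro a (rfl | ha) a' (rfl | ha') r h₂ h₃
      exacts [rfl, absurd h₃ (h₁ _ ha' r h₂), absurd h₂ (h₁ _ ha r h₃), hM.prop.2 a ha a' ha' r h₂ h₃]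
  · rintro _ _ q ⟨a, h, h₁, rfl⟩ ⟨a', h', h₂, rfl⟩
    obtain rfl := hM.prop.2 a h a' h' q h₁ h₂
    rfl

/-- The conditions of level `A`. -/
def PA (A : Set Θ) : Type 1 := {p // Mem A p}

instance (A : Set Θ) : Preorder (PA A) where
  le q p := Le q.1 p.1
  le_refl p := .refl _
  le_trans _ _ _ := Le.trans

theorem Chain.mem {s : ℕ → Pre} (h : Chain A s) (n : ℕ) : Mem A (s n) := (chain_def.1 h).1 n

theorem Chain.le {s : ℕ → Pre} (h : Chain A s) {n m : ℕ} (hn : n ≤ m) : Le (s m) (s n) :=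
  (chain_def.1 h).2 n m hn

theorem Chain.both {s : ℕ → Pre} (h : Chain A s) {n m : ℕ} (h₁ : Le (s n) p) (h₂ : Le (s m) q) :
    Le (s (max n m)) p ∧ Le (s (max n m)) q :=
  ⟨(h.le (le_max_left _ _)).trans h₁, (h.le (le_max_right _ _)).trans h₂⟩

theorem Force.reg (h : ∀ d, Mem A d → Le d p → ∃ d', Mem A d' ∧ Le d' d ∧ Force A d' S) :
    Force A p S := by
  have hu : Dense A univ := dense_def.2 fun q hq => ⟨q, hq, .refl _, q, mem_univ _, .refl _⟩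
  obtain ⟨E, h₁, h₂, h₃, h₄⟩ := exists_functional (Q := PA A) (fun (v : ℕ → Set Pre) a =>
      (∀ i, Dense A (v i)) ∧ ∀ s, Chain A s → (∃ n, Le (s n) p) → (∃ n, Le (s n) a.1) →
        (∀ i, ∃ n, ∃ d ∈ v i, Le (s n) d) → pt A s ∈ S) (by
    intro q
    by_cases hq : ∃ d, Mem A d ∧ Le d p ∧ Le d q.1
    · obtain ⟨d, a, b, c⟩ := hq
      obtain ⟨d', a', b', c'⟩ := h d a b
      obtain ⟨𝒟, h₁, h₂, h₃⟩ := force_def.1 c'
      obtain ⟨D, hD⟩ := (h₁.insert univ).exists_eq_range (insert_nonempty _ _)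
      refine ⟨⟨d', a'⟩, b'.trans c, D, fun i => ?_, fun s hs _ e f => h₃ s hs e fun E hE => ?_⟩
      · rcases (hD ▸ mem_range_self i : D i ∈ insert univ 𝒟) with e | e
        exacts [e ▸ hu, h₂ _ e]
      · obtain ⟨i, rfl⟩ : E ∈ range D := hD ▸ mem_insert_of_mem _ hE
        exact f i
    · refine ⟨q, le_rfl, fun _ => univ, fun _ => hu, fun s hs ⟨n, hn⟩ ⟨m, hm⟩ _ => ?_⟩
      exact absurd ⟨_, hs.mem _, hs.both hn hm⟩ hq)
  let D : ℕ → Set Pre := fun i => {d | ∃ hd : Mem A d, ∃ v, E v ⟨d, hd⟩ ∧ ∃ d' ∈ v i, Le d d'}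
  refine force_def.2 ⟨range D, countable_range _, ?_, fun s hs hp H => ?_⟩
  · rintro _ ⟨i, rfl⟩
    refine dense_def.2 fun q hq => ?_
    obtain ⟨q', a, v, b⟩ := h₃ ⟨q, hq⟩
    obtain ⟨-, -, c, -⟩ := h₁ v q' b
    obtain ⟨q'', e, f, g⟩ := dense_def.1 (c i) q'.1 q'.2
    exact ⟨q'', e, f.trans a, q'', ⟨e, v, h₂ v q' ⟨q'', e⟩ f b, g⟩, .refl _⟩
  · obtain ⟨n, d, ⟨hd, v, a, -⟩, b⟩ := H _ ⟨0, rfl⟩
    obtain ⟨c, e, -, f⟩ := h₁ v _ a
    refine f s hs hp ⟨n, b.trans e⟩ fun i => ?_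
    obtain ⟨n', d', ⟨hd', v', a', d'', g⟩, b'⟩ := H _ ⟨i, rfl⟩
    have := hs.both b b'
    obtain rfl := h₄ v v' ⟨_, hs.mem (max n n')⟩ (h₂ _ _ _ this.1 a) (h₂ _ _ _ this.2 a')
    exact ⟨n', d'', g.1, b'.trans g.2⟩

/-! ### The generic point -/

theorem W.mono {κ : Ξ} {v : ℕ} (h : W κ v p) (hq : Le q p) : W κ v q := by
  cases κ with
  | R ξ n => exact W_R.2 (hq.b.trans (W_R.1 h))
  | H τ β m =>
    obtain ⟨h₁, h₂, h₃, h₄⟩ := W_H.1 h
    refine W_H.2 ⟨hq.T h₁, hq.T h₂, h₃,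
      (h₄.mono (hq.res (lo_lower τ))).and (hq.L h₁) fun x a b => ?_⟩
    exact ((b β h₂).1 m (a.symm ▸ h₃)).trans a
  | O ξ =>
    obtain ⟨h₁, c, h₂, h₃, h₄⟩ := W_O.1 h
    exact W_O.2 ⟨h₁, c, h₂, h₃, hq.trans h₄⟩

theorem W.unique {κ : Ξ} {v v' : ℕ} (h : W κ v p) (h' : W κ v' p) (hp : Mem A p) : v = v' := by
  cases κ with
  | R ξ n =>
    by_contra hn
    refine hp.pos (sub0_empty.1 (((W_R.1 h).inter (W_R.1 h')).trans (.of_sub ?_)))
    exact fun x hx => hn (hx.1.symm.trans hx.2)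
  | H τ β m =>
    obtain ⟨x, a, b⟩ := (W_H.1 h).2.2.2.meet (W_H.1 h').2.2.2 (hp.lo τ)
    exact a.symm.trans b
  | O ξ => exact (W_O.1 h).1.trans (W_O.1 h').1.symm

theorem pt_eq {s : ℕ → Pre} (hs : Chain A s) {κ : Ξ} (hκ : κ.lev ∈ A) {v n : ℕ}
    (h : W κ v (s n)) : pt A s κ = v := by
  have : {v | ∃ n, W κ v (s n)} = {v} := by
    refine eq_singleton_iff_unique_mem.2 ⟨⟨n, h⟩, fun w ⟨m, hm⟩ => ?_⟩
    exact (hm.mono (hs.le (le_max_right n m))).unique (h.mono (hs.le (le_max_left _ _))) (hs.mem _)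
  rw [pt_def, if_pos hκ, this, csInf_singleton]

theorem W.force {κ : Ξ} {v : ℕ} (h : W κ v p) (hκ : κ.lev ∈ A) : Force A p (cyl κ v) :=
  force_def.2 ⟨∅, countable_empty, by simp, fun _ hs ⟨_, hn⟩ _ => pt_eq hs hκ (h.mono hn)⟩

theorem force_zero {κ : Ξ} (h : ∀ d, Mem A d → Le d p → ∀ v, ¬ W κ v d) : Force A p (cyl κ 0) := by
  refine force_def.2 ⟨∅, countable_empty, by simp, fun s hs ⟨n, hn⟩ _ => ?_⟩
  have : {v | ∃ n, W κ v (s n)} = ∅ := eq_empty_of_forall_notMem fun v ⟨m, hm⟩ =>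
    h _ (hs.mem _) ((hs.le (le_max_left n m)).trans hn) v (hm.mono (hs.le (le_max_right _ _)))
  simp [cyl, pt_def, this]

theorem decide_set (hS : MS A S) : ∀ p, Mem A p →
    ∃ d, Mem A d ∧ Le d p ∧ (Force A d S ∨ Force A d Sᶜ) := by
  induction S, hS using MeasurableSpace.generateFrom_induction with
  | hC S hS _ =>
    obtain ⟨κ, hκ, v, rfl⟩ := hS
    intro p hp
    obtain ⟨d, a, b, w, c⟩ : ∃ d, Mem A d ∧ Le d p ∧ ∃ w, Force A d (cyl κ w) := by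
      by_cases h : ∀ d, Mem A d → Le d p → ∀ v, ¬ W κ v d
      · exact ⟨p, hp, .refl _, 0, force_zero h⟩
      · push Not at h
        obtain ⟨d, a, b, w, c⟩ := h
        exact ⟨d, a, b, w, c.force hκ⟩
    refine ⟨d, a, b, ?_⟩
    by_cases e : w = v
    · exact Or.inl (e ▸ c)
    · exact Or.inr (c.mono_set fun x hx hx' => e (hx.symm.trans hx'))
  | empty => exact fun p hp => ⟨p, hp, .refl _, Or.inr (force_of_forall (by simp))⟩
  | compl S _ ih => simpa only [compl_compl, or_comm] using ih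
  | iUnion f _ ih =>
    intro p hp
    by_cases h : ∃ d, Mem A d ∧ Le d p ∧ ∃ n, Force A d (f n)
    · obtain ⟨d, a, b, n, c⟩ := h
      exact ⟨d, a, b, Or.inl (c.mono_set (subset_iUnion f n))⟩
    · refine ⟨p, hp, .refl _, Or.inr ((force_all (Q := fun n x => x ∉ f n) fun n => ?_).mono_set
        (by simp [subset_def]))⟩
      refine Force.reg fun d a b => ?_
      obtain ⟨d', a', b', c | c⟩ := ih n d a
      exacts [absurd ⟨d', a', b'.trans b, n, c⟩ h, ⟨d', a', b', c⟩]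

theorem force_compl (hS : MS A S) (h : ∀ d, Mem A d → Le d p → ¬ Force A d S) : Force A p Sᶜ := by
  refine Force.reg fun d a b => ?_
  obtain ⟨d', a', b', c | c⟩ := decide_set hS d a
  exacts [absurd c (h d' a' (b'.trans b)), ⟨d', a', b', c⟩]

theorem force_of_not (hS : MS A S) (h : ∀ d, Mem A d → Le d p → ¬ Force A d Sᶜ) : Force A p S :=
  compl_compl S ▸ force_compl hS.compl h

theorem decide_ex {ι : Type*} [Countable ι] {Q : ι → X → Prop} (hQ : ∀ i, MS A {x | Q i x})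
    (h : Force A p {x | ∃ i, Q i x}) (hp : Mem A p) :
    ∃ d, Mem A d ∧ Le d p ∧ ∃ i, Force A d {x | Q i x} := by
  by_contra hn
  obtain ⟨x, ⟨i, a⟩, b⟩ := h.meet (force_all (Q := fun i x => ¬ Q i x) fun i =>
    force_compl (hQ i) fun d a b c => hn ⟨d, a, b, i, c⟩) hp
  exact b i a

theorem decide_fun {Y : Type*} [Countable Y] [MeasurableSpace Y] [MeasurableSingletonClass Y]
    {f : X → Y} (hf : Measurable[gen (mK A)] f) (hp : Mem A p) :
    ∃ d, Mem A d ∧ Le d p ∧ ∃ v, Force A d {x | f x = v} :=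
  decide_ex (fun v => hf (measurableSet_singleton v)) (force_of_forall fun _ => ⟨_, rfl⟩) hp

theorem decide_fin {ι : Type*} {I : Set ι} (hI : I.Finite) {Φ : ι → Pre → Prop}
    (mono : ∀ i p q, Le q p → Φ i p → Φ i q)
    (h : ∀ i ∈ I, ∀ d, Mem A d → Le d p → ∃ d', Mem A d' ∧ Le d' d ∧ Φ i d') (hp : Mem A p) :
    ∃ d, Mem A d ∧ Le d p ∧ ∀ i ∈ I, Φ i d := by
  induction I, hI using Set.Finite.induction_on with
  | empty => exact ⟨p, hp, .refl _, by simp⟩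
  | @insert j I _ _ ih =>
    obtain ⟨d, a, b, c⟩ := ih fun i hi => h i (mem_insert_of_mem _ hi)
    obtain ⟨d', a', b', c'⟩ := h j (mem_insert _ _) d a b
    refine ⟨d', a', b'.trans b, ?_⟩
    rintro i (rfl | hi)
    exacts [c', mono _ _ _ b' (c i hi)]

/-! ### Merging and transfer -/

noncomputable def merge (d q : Pre) : Pre :=
  ⟨d.b ∩ q.b, d.T ∪ q.T, fun τ x => if τ ∈ d.T then
      mix d.T (d.L τ x) (adopt (q.L τ x) (d.L τ x).e ((d.L τ x).k τ)) else q.L τ x,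
    d.hT.union q.hT, fun τ => LM.ite measurable_const
      ((d.hL τ).mix _ ((q.hL τ).adopt (d.hL τ).e ((d.hL τ).k τ))) (q.hL τ)⟩

@[simp] theorem merge_b (d q : Pre) : (merge d q).b = d.b ∩ q.b := rfl

theorem merge_le_left (d q : Pre) : Le (merge d q) d := by
  refine le_of_pw (.of_sub inter_subset_left) subset_union_left fun τ hτ x β hβ => ?_
  simp only [merge, if_pos hτ, mix_g_mem _ _ hβ]
  exact .refl _

theorem merge_le_right (hd : d.T ⊆ A) (h : Le d (res A q)) : Le (merge d q) q := by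
  refine le_def.2 ⟨.of_sub inter_subset_right, subset_union_right, fun τ hτ => ?_⟩
  by_cases h₁ : τ ∈ d.T
  · refine ((h.L ⟨hτ, hd h₁⟩).mono ((merge_le_left d q).res (lo_lower τ))).mono_set
      fun x hx β hβ => ?_
    simp only [merge, if_pos h₁]
    by_cases h₂ : β ∈ d.T
    · rw [mix_g_mem _ _ h₂]
      exact hx β ⟨hβ, hd h₂⟩
    · rw [mix_g_not (l := d.L τ x) (l' := adopt _ _ _) h₂ rfl]
      exact ref_adopt (hx τ ⟨hτ, hd h₁⟩).ac β
  · refine force_of_forall fun x => ?_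
    simp only [merge, if_neg h₁]
    exact Rel.refl _ _

theorem mem_merge (hd : Mem A d) (hq : Mem B q) (hAB : A ⊆ B) (h : Le d (res A q)) :
    Mem B (merge d q) := by
  refine mem_of_le ((hd.fs.mono hAB).inter hq.fs) (inter_ne_zero hd.fs hd.pos h.b)
    (union_subset (hd.T.trans hAB) hq.T) fun τ hτ => ?_
  by_cases h₁ : τ ∈ d.T
  · exact ⟨d, A, hd, merge_le_left d q, h₁, fun x => by simp [merge, h₁, mix]⟩
  · exact ⟨q, B, hq, merge_le_right hd.T h, hτ.resolve_left h₁, fun x => by simp [merge, h₁]⟩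

theorem exists_merge (hd : Mem A d) (hq : Mem B q) (hAB : A ⊆ B) (h : Le d (res A q)) :
    ∃ r, Mem B r ∧ Le r d ∧ Le r q :=
  ⟨_, mem_merge hd hq hAB h, merge_le_left d q, merge_le_right hd.T h⟩

theorem fs_cyl {ξ : Θ} (h : ξ ∈ A) (n v : ℕ) : FS A (cyl (.R ξ n) v) :=
  gen_cyl (K := fK A) ⟨ξ, h, n, rfl⟩ v

theorem W_res (hA : IsLowerSet A) {κ : Ξ} (hκ : κ.lev ∈ A) {v : ℕ} : W κ v (res A p) ↔ W κ v p := by
  refine ⟨fun h => h.mono (le_res A p), fun h => ?_⟩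
  cases κ with
  | R ξ n => exact W_R.2 ((proj_sub (fs_cyl hκ n v)).2 (W_R.1 h))
  | H τ β m =>
    obtain ⟨h₁, h₂, h₃, h₄⟩ := W_H.1 h
    have h₅ : τ ∈ A := hA (le_max_left τ β) hκ
    refine W_H.2 ⟨⟨h₁, h₅⟩, ⟨h₂, hA (le_max_right τ β) hκ⟩, h₃, ?_⟩
    rw [res_res (lo_sub hA h₅)]
    exact h₄
  | O ξ =>
    obtain ⟨h₁, c, h₂, h₃, h₄⟩ := W_O.1 h
    exact W_O.2 ⟨h₁, c, h₂, h₃, h₄.res_le hA (h₃.mono fun x hx => hA hx.le hκ)⟩

theorem Force.up (h : Force A (res A p) S) (hA : IsLowerSet A) (hAB : A ⊆ B) (hS : MS A S) :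
    Force B p S := by
  obtain ⟨𝒟, h₁, h₂, h₃⟩ := force_def.1 h
  refine force_def.2 ⟨(fun D => {q | ∃ d ∈ D, Le (res A q) d}) '' 𝒟, h₁.image _, ?_,
    fun s hs ⟨n, hn⟩ H => ?_⟩
  · rintro _ ⟨D, hD, rfl⟩
    refine dense_def.2 fun q hq => ?_
    obtain ⟨q', a, b, d, c, e⟩ := dense_def.1 (h₂ D hD) _ (hq.res hA)
    obtain ⟨r, f, g, k⟩ := exists_merge a hq hAB b
    exact ⟨r, f, k, r, ⟨d, c, (g.res_le hA a).trans e⟩, .refl _⟩
  · refine (gen_inv hS fun κ hκ => ?_).1 (h₃ (fun n => res A (s n))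
      (chain_def.2 ⟨fun n => (hs.mem n).res hA, fun n m h => (hs.le h).res hA⟩) ⟨n, hn.res hA⟩
      fun D hD => ?_)
    · simp only [pt_def, if_pos (show κ.lev ∈ A from hκ), if_pos (hAB hκ), W_res hA hκ]
    · obtain ⟨n, q, ⟨d, a, b⟩, c⟩ := H _ ⟨D, hD, rfl⟩
      exact ⟨n, d, a, (c.res hA).trans b⟩

theorem Force.up' (h : Force A p S) (hA : IsLowerSet A) (hAB : A ⊆ B) (hS : MS A S)
    (hp : Mem A p) : Force B p S :=
  (h.mono ((Le.refl p).res_le hA hp)).up hA hAB hS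

theorem Force.down (h : Force B p S) (hA : IsLowerSet A) (hAB : A ⊆ B) (hS : MS A S)
    (hp : Mem B p) : Force A (res A p) S := by
  refine force_of_not hS fun d a b c => ?_
  obtain ⟨r, f, g, k⟩ := exists_merge a hp hAB b
  obtain ⟨x, h₁, h₂⟩ := (h.mono k).meet ((c.up' hA hAB hS.compl a).mono g) f
  exact h₂ h₁

/-! ### The random part -/

theorem exists_cyl {ξ : Θ} (hξ : ξ ∈ A) (n : ℕ) (hp : Mem A p) :
    ∃ w < bb n, ∃ d, Mem A d ∧ Le d p ∧ Sub0 d.b (cyl (.R ξ n) w) := by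
  obtain ⟨w, h₁, h₂⟩ := exists_piece (s := Iio (bb n)) (f := cyl (.R ξ n)) (to_countable _) hp.pos
    (by
      filter_upwards [ae_lt_wd (.R ξ n)] with x hx _
      exact mem_iUnion₂.2 ⟨_, hx, rfl⟩)
  exact ⟨w, h₁, _, hp.shrink (fs_cyl hξ n w) h₂, shrink_le _ _, shrink_sub _ _⟩

theorem force_b_aux {b : Set X} (hb : FS A b) :
    ∀ p, (Sub0 p.b b → Force A p b) ∧ (Sub0 p.b bᶜ → Force A p bᶜ) := by
  induction b, hb using MeasurableSpace.generateFrom_induction with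
  | hC S hS _ =>
    obtain ⟨κ, ⟨ξ, hξ, n, rfl⟩, v, rfl⟩ := hS
    refine fun p => ⟨fun h => (W_R.2 h).force hξ, fun h => Force.reg fun d a b => ?_⟩
    obtain ⟨w, -, d', a', b', c⟩ := exists_cyl hξ n a
    refine ⟨d', a', b', ((W_R.2 c).force hξ).mono_set fun x hx hx' => ?_⟩
    obtain rfl : w = v := hx.symm.trans hx'
    exact a'.pos (sub0_empty.1 ((c.inter ((b'.trans b).b.trans h)).trans (.of_sub (by simp))))
  | empty =>
    exact fun p => ⟨fun h => Force.reg fun d a b => absurd (sub0_empty.1 (b.b.trans h)) a.pos,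
      fun _ => force_of_forall (by simp)⟩
  | compl S _ ih => simpa only [compl_compl, and_comm] using ih
  | iUnion f hf ih =>
    refine fun p => ⟨fun h => Force.reg fun d a b => ?_, fun h => ?_⟩
    · obtain ⟨n, -, h₁⟩ := exists_piece (s := univ) (f := f) countable_univ a.pos
        (by simpa using b.b.trans h)
      exact ⟨_, a.shrink (hf n) h₁, shrink_le _ _,
        ((ih n _).1 (shrink_sub _ _)).mono_set (subset_iUnion f n)⟩
    · refine (force_all (Q := fun n x => x ∉ f n) fun n => (ih n p).2 ?_).mono_set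
        (by simp [subset_def])
      exact h.trans (.of_sub (compl_subset_compl.2 (subset_iUnion f n)))

theorem force_b {b : Set X} (hb : FS A b) (h : Sub0 p.b b) : Force A p b := (force_b_aux hb p).1 h

theorem Force.sub {b : Set X} (h : Force A p b) (hb : FS A b) (hp : Mem A p) : Sub0 p.b b := by
  by_contra hn
  rw [sub0_iff] at hn
  obtain ⟨x, h₁, h₂⟩ := (h.mono (shrink_le p bᶜ)).meet (force_b hb.compl (shrink_sub _ _))
    (hp.shrink hb.compl hn)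
  exact h₂ h₁

end Pool.Agent.MP_9c82b4_lc

end

section

namespace Pool.Agent.MP_9c82b4_lc

open Set Classical MeasureTheory

variable {A B : Set Θ} {p q r d : Pre} {τ β : Θ}

def row (x : X) (τ β : Θ) : ℕ → ℕ := fun m => x (.H τ β m)

theorem max_mem (h₁ : τ ∈ A) (h₂ : β ∈ A) : max τ β ∈ A := by
  rcases max_choice τ β with h | h <;> rwa [h]

theorem meas_row (h₁ : τ ∈ A) (h₂ : β ∈ A) (m : ℕ) :
    Measurable[gen (mK A)] fun x => row x τ β m := gen_eval (κ := .H τ β m) (max_mem h₁ h₂)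

theorem Pre.lm (p : Pre) (hA : IsLowerSet A) (h : τ ∈ A) : LM (gen (mK A)) (p.L τ) :=
  (p.hL τ).mono (gen_mono (mK_mono (lo_sub hA h)))

theorem W_swap {m m' w : ℕ} (h : Le q p) (h₁ : τ ∈ p.T) (h₂ : β ∈ p.T)
    (e : Force (lo τ) (res (lo τ) q) {x | (p.L τ x).g β m = (p.L τ x).g β m'})
    (hw : W (.H τ β m) w q) : W (.H τ β m') w q := by
  obtain ⟨a, b, c, f⟩ := W_H.1 hw
  exact W_H.2 ⟨a, b, c, ((e.inter (h.L h₁)).and f) fun x hx hx' =>
    ((hx.2 β h₂).2 m m' hx.1).symm.trans hx'⟩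

/-- The generic rows obey the conditions. -/
theorem force_row (hA : IsLowerSet A) (hp : Mem A p) (h₁ : τ ∈ p.T) (h₂ : β ∈ p.T) :
    Force A p {x | Ref ((p.L τ x).g β) (row x τ β)} := by
  have hlo := lo_sub hA (hp.T h₁)
  have hlev : ∀ m, (Ξ.H τ β m).lev ∈ A := fun _ => max_mem (hp.T h₁) (hp.T h₂)
  refine (force_all (Q := fun (z : ℕ × ℕ) x =>
    ((p.L τ x).g β z.1 ≤ 1 → row x τ β z.1 = (p.L τ x).g β z.1) ∧
      ((p.L τ x).g β z.1 = (p.L τ x).g β z.2 → row x τ β z.1 = row x τ β z.2))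
    fun ⟨m, m'⟩ => Force.reg fun d a b => ?_).mono_set
      fun x hx => ⟨fun m => (hx (m, 0)).1, fun m m' => (hx (m, m')).2⟩
  obtain ⟨d₁, a₁, b₁, v, c₁⟩ := decide_fun ((p.hL τ).g β m) (a.lo τ)
  obtain ⟨d₂, a₂, b₂, v', c₂⟩ := decide_fun ((p.hL τ).g β m') a₁
  obtain ⟨r, a₃, b₃, c₃⟩ := exists_merge a₂ a hlo (b₂.trans b₁)
  have hr := c₃.trans b
  have b₄ := b₃.res_le (lo_lower τ) a₂
  replace c₁ := c₁.mono (b₄.trans b₂)
  replace c₂ := c₂.mono b₄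
  have e₁ : Force A r {x | v ≤ 1 → row x τ β m = v} := by
    by_cases h : v ≤ 1
    · refine ((W_H.2 ⟨hr.T h₁, hr.T h₂, h, c₁.and (hr.L h₁) fun x a b => ?_⟩).force
        (hlev m)).mono_set fun x hx _ => hx
      exact ((b β h₂).1 m (a.symm ▸ h)).trans a
    · exact force_of_forall fun _ h' => absurd h' h
  have e₂ : Force A r {x | v = v' → row x τ β m = row x τ β m'} := by
    refine force_def.2 ⟨∅, countable_empty, by simp, fun s hs ⟨n, hn⟩ _ e => ?_⟩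
    have H : ∀ m m', Force (lo τ) (res (lo τ) r) {x | (p.L τ x).g β m = (p.L τ x).g β m'} →
        ∀ w, (∃ n, W (.H τ β m) w (s n)) → ∃ n, W (.H τ β m') w (s n) := by
      rintro m m' f w ⟨n', hw⟩
      have := (hs.le (le_max_left n n')).trans hn
      exact ⟨_, W_swap (this.trans hr) h₁ h₂ (f.mono (this.res (lo_lower τ)))
        (hw.mono (hs.le (le_max_right n n')))⟩
    simp only [row, pt_def, if_pos (hlev _)]
    congr 1
    exact Set.ext fun w => ⟨H m m' (c₁.and c₂ fun x a b => a.trans (e.trans b.symm)) w,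
      H m' m (c₁.and c₂ fun x a b => b.trans (e.symm.trans a.symm)) w⟩
  refine ⟨r, a₃, c₃, (((c₁.inter c₂).up (lo_lower τ) hlo ?_).inter (e₁.inter e₂)).mono_set ?_⟩
  · exact (meas_set (meas_eq ((p.hL τ).g β m) measurable_const)).inter
      (meas_set (meas_eq ((p.hL τ).g β m') measurable_const))
  · rintro x ⟨⟨f₁, f₂⟩, f₃, f₄⟩
    simp only [mem_ofPred_eq] at f₁ f₂ f₃ f₄ ⊢
    rw [f₁, f₂]
    exact ⟨f₃, f₄⟩

def setrows (p : Pre) (k : Θ → X → Θ → ℕ) (val : Θ → Θ → ℕ → Bool)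
    (hk : ∀ τ β, Measurable[gen (mK (lo τ))] fun x => k τ x β) : Pre :=
  ⟨p.b, p.T, fun τ x => setr (p.L τ x) (k τ x) (val τ), p.hT,
    fun τ => (p.hL τ).setr _ (hk τ)⟩

theorem setrows_le (p : Pre) (k val hk) : Le (setrows p k val hk) p :=
  le_of_pw (.refl _) subset_rfl fun _ _ _ _ _ => ref_setr _ _ _ _

theorem Mem.setrows (h : Mem A p) (k val hk) : Mem A (setrows p k val hk) :=
  mem_of_le h.fs h.pos h.T fun _ hτ => ⟨p, A, h, setrows_le p k val hk, hτ, fun _ => rfl⟩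

theorem sep0 (hA : IsLowerSet A) (hd : Mem A d) (h₁ : τ ∈ d.T) (h₂ : β ∈ d.T) {Z : Set X}
    (hZ : MS (lo τ) Z) {v : Bool} {m : ℕ} (h : Force A d {x | x ∈ Z → row x τ β m = v.toNat}) :
    Force (lo τ) (res (lo τ) d) {x | x ∈ Z → (d.L τ x).g β m = v.toNat} := by
  let d' := setrows d (fun τ' x _ => if τ' = τ then (d.L τ' x).e m else 0) (fun _ _ _ => !v)
    fun τ' _ => meas_ite measurable_const ((d.hL τ').e m) measurable_const
  have a : Mem A d' := hd.setrows _ _ _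
  have e : ∀ x, (d'.L τ x).g β m =
      if (d.L τ x).e m ≤ (d.L τ x).k β then ((d.L τ x).c β m).toNat else (!v).toNat := by
    intro x
    simp [d', setrows, setr_g]
  have b : Force A d' {x | x ∈ Z → (d'.L τ x).g β m = v.toNat} :=
    (h.mono (setrows_le _ _ _ _)).and (force_row hA a h₁ h₂) fun x f g hx => by
      refine (g.1 m ?_).symm.trans (f hx)
      rw [e]
      split_ifs <;> exact Bool.toNat_le _
  refine Force.mono_set ((b.down (lo_lower τ) (lo_sub hA (hd.T h₁)) ?_ a).mono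
    (le_of_pw (q := res (lo τ) d) (.refl _) subset_rfl fun τ' hτ' x β _ => ?_))
    fun x hx hx' => ?_
  · exact meas_set (meas_imp (meas_mem hZ) (meas_eq ((d'.hL τ).g β m) measurable_const))
  · have : τ' ≠ τ := fun e => not_mem_lo τ (e ▸ hτ'.2)
    simp only [res_L, d', setrows]
    rw [setr_g_of_le _ (by simp [this])]
    exact .refl _
  · have := hx hx'
    rw [e] at this
    split_ifs at this with h'
    · exact (g_of_le h').trans this
    · cases v <;> simp at this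

/-! ### Small sets -/

variable {Z Z' : X → Set ℕ}

theorem sm_fin (h : Force (lo τ) d {x | (Z x).Finite}) : Sm τ d Z :=
  sm_def.2 fun d₁ a b => ⟨d₁, a, .refl _, ∅, finite_empty, empty_subset _,
    (h.mono b).mono_set fun x hx => by simpa using hx⟩

theorem Sm.sub (h : Sm τ d Z') (hZ : Force (lo τ) d {x | Z x ⊆ Z' x}) : Sm τ d Z := by
  refine sm_def.2 fun d₁ a b => ?_
  obtain ⟨d₂, a', b', 𝓛, c, e, f⟩ := sm_def.1 h d₁ a b
  exact ⟨d₂, a', b', 𝓛, c, e, f.and (hZ.mono (b'.trans b)) fun x hx hx' =>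
    Finite.subset hx (inter_subset_inter_left _ hx')⟩

theorem Sm.union (h : Sm τ d Z) (h' : Sm τ d Z') : Sm τ d fun x => Z x ∪ Z' x := by
  refine sm_def.2 fun d₁ a b => ?_
  obtain ⟨d₂, a₂, b₂, 𝓛, c, e, f⟩ := sm_def.1 h d₁ a b
  obtain ⟨d₃, a₃, b₃, 𝓛', c', e', f'⟩ := sm_def.1 h' d₂ a₂ (b₂.trans b)
  refine ⟨d₃, a₃, b₃.trans b₂, 𝓛 ∪ 𝓛', c.union c', union_subset e e',
    (f.mono b₃).and f' fun x hx hx' => (Finite.union hx hx').subset ?_⟩
  rw [biInter_union]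
  rintro m ⟨h | h, h₁, h₂⟩
  exacts [Or.inl ⟨h, h₁⟩, Or.inr ⟨h, h₂⟩]

theorem Sm.reg (h : ∀ d₁, Mem (lo τ) d₁ → Le d₁ d → ∃ d₂, Mem (lo τ) d₂ ∧ Le d₂ d₁ ∧ Sm τ d₂ Z) :
    Sm τ d Z := by
  refine sm_def.2 fun d₁ a b => ?_
  obtain ⟨d₂, a₂, b₂, c⟩ := h d₁ a b
  obtain ⟨d₃, a₃, b₃, e⟩ := sm_def.1 c d₂ a₂ (.refl _)
  exact ⟨d₃, a₃, b₃.trans b₂, e⟩

theorem Sm.of_sel (h : Sm τ d Z') {F : X → Set ℕ} (hF : F ∈ Meas (lo τ))
    (hZ : Force (lo τ) d {x | Z x ∩ sel τ F x ⊆ Z' x}) : Sm τ d Z := by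
  refine sm_def.2 fun d₁ a b => ?_
  obtain ⟨d₂, a', b', 𝓛, c, e, f⟩ := sm_def.1 h d₁ a b
  refine ⟨d₂, a', b', insert F 𝓛, c.insert F, insert_subset hF e,
    f.and (hZ.mono (b'.trans b)) fun x hx hx' => Finite.subset hx ?_⟩
  rw [biInter_insert]
  exact fun m ⟨h₁, h₂, h₃⟩ => ⟨hx' ⟨h₁, h₂⟩, h₃⟩

theorem sm_le {e : X → ℕ → ℕ} (h : ∀ j, Sm τ d fun x => {m | e x m = j}) (K : ℕ) :
    Sm τ d fun x => {m | e x m ≤ K} := by
  induction K with
  | zero => simpa using h 0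
  | succ K ih =>
    refine (ih.union (h (K + 1))).sub (force_of_forall fun x m hm => ?_)
    simp only [mem_ofPred_eq, mem_union] at hm ⊢
    omega

theorem sm_bdd {e : X → ℕ → ℕ} (h : ∀ j, Sm τ d fun x => {m | e x m = j}) {K : X → ℕ}
    (hK : Measurable[gen (mK (lo τ))] K) (hZ : Force (lo τ) d {x | ∀ m ∈ Z x, e x m ≤ K x}) :
    Sm τ d Z := by
  refine Sm.reg fun d₁ a b => ?_
  obtain ⟨d₂, a₂, b₂, v, c⟩ := decide_fun hK a
  refine ⟨d₂, a₂, b₂, ((sm_le h v).mono (b₂.trans b)).sub ?_⟩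
  exact c.and (hZ.mono (b₂.trans b)) fun x hx hx' m hm => (hx' m hm).trans hx.le

theorem sm_triv (τ : Θ) (d : Pre) (j : ℕ) : Sm τ d fun _ => {m | triv.e m = j} :=
  sm_fin (force_of_forall fun _ => by simp [triv])

noncomputable def grow (p : Pre) (T : Set Θ) (hT : T.Countable) : Pre :=
  ⟨p.b, p.T ∪ T, fun τ x => if τ ∈ p.T then p.L τ x else triv, p.hT.union hT,
    fun τ => LM.ite measurable_const (p.hL τ) (.const _)⟩

theorem grow_le (p : Pre) (T hT) : Le (grow p T hT) p :=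
  le_of_pw (.refl _) subset_union_left fun τ hτ x => by
    simp only [grow, if_pos hτ]; exact .refl _ _

theorem Mem.grow (h : Mem A p) {T : Set Θ} (hT) (hA : T ⊆ A) : Mem A (grow p T hT) := by
  refine mem_def.2 ⟨h.fs, h.pos, union_subset h.T hA, fun τ _ j => ?_⟩
  by_cases h₁ : τ ∈ p.T
  · simpa [Pool.Agent.MP_9c82b4_lc.grow, h₁] using
      (h.sm h₁ j).mono ((grow_le p T hT).res (lo_lower τ))
  · simpa [Pool.Agent.MP_9c82b4_lc.grow, h₁] using sm_triv τ _ j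

/-! ### Branches -/

noncomputable def br (p : Pre) (F : Finset Θ) (n : ℕ) (σ : Θ → Θ → ℕ → Bool) : Pre :=
  ⟨p.b, p.T, fun τ x => if τ ∈ F then sig (p.L τ x) F n (σ τ) else p.L τ x, p.hT,
    fun τ => LM.ite measurable_const ((p.hL τ).sig _ _ _) (p.hL τ)⟩

variable {F : Finset Θ} {n : ℕ} {σ : Θ → Θ → ℕ → Bool}

theorem br_le (p : Pre) (F n σ) : Le (br p F n σ) p := by
  refine le_of_pw (.refl _) subset_rfl fun τ _ x β _ => ?_
  simp only [br]
  split_ifs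
  exacts [ref_setr _ _ _ _, .refl _]

theorem Mem.br (h : Mem A p) (F n σ) : Mem A (br p F n σ) :=
  mem_of_le h.fs h.pos h.T fun τ hτ => ⟨p, A, h, br_le p F n σ, hτ, fun x => by
    simp only [Pool.Agent.MP_9c82b4_lc.br]; split_ifs <;> rfl⟩

def Fol (L : Θ → X → Loc) (F : Finset Θ) (n : ℕ) (σ : Θ → Θ → ℕ → Bool) (A : Set Θ) (x : X) :
    Prop :=
  ∀ τ ∈ (F : Set Θ) ∩ A, ∀ β ∈ (F : Set Θ) ∩ A, ∀ m, (L τ x).k β < (L τ x).e m → (L τ x).e m ≤ n →
    row x τ β m = (σ τ β ((L τ x).e m)).toNat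

theorem meas_fol (p : Pre) (hA : IsLowerSet A) :
    Measurable[gen (mK A)] (Fol p.L F n σ A) := by
  have h := F.countable_toSet.mono (inter_subset_left (t := A))
  refine meas_ball h fun τ hτ => meas_ball h fun β hβ => meas_all fun m => ?_
  have h₁ := p.lm hA hτ.2
  exact meas_imp (meas_lt (h₁.k β) (h₁.e m)) (meas_imp (meas_le (h₁.e m) measurable_const)
    (meas_eq (meas_row hτ.2 hβ.2 m) (meas_one (fun j => (σ τ β j).toNat) (h₁.e m))))

theorem le_br (hA : IsLowerSet A) (hd : Mem A d) (h : Le d (res A p)) (hF : ↑F ⊆ p.T)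
    (hf : Force A d {x | Fol p.L F n σ A x}) : Le d (res A (br p F n σ)) := by
  refine le_def.2 ⟨h.b, h.T, fun τ hτ => ?_⟩
  by_cases h₁ : τ ∈ F
  · have h₂ : Force (lo τ) (res (lo τ) d) {x | ∀ β ∈ (F : Set Θ) ∩ A, ∀ m j,
        x ∈ {x | (p.L τ x).k β < j ∧ j ≤ n ∧ (p.L τ x).e m = j} →
          (d.L τ x).g β m = (σ τ β j).toNat} := by
      refine force_ball (F.countable_toSet.mono inter_subset_left) fun β hβ =>
        force_all fun m => force_all fun j => sep0 hA hd (h.T hτ) (h.T ⟨hF hβ.1, hβ.2⟩) ?_ ?_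
      · have := p.hL τ
        repeat' first
          | assumption | exact measurable_const | apply LM.e | apply LM.c | apply LM.k
          | apply meas_ite | apply meas_le | apply meas_lt | apply meas_eq | apply meas_max
          | apply meas_min | apply meas_succ | apply meas_toNat | apply meas_decide | apply meas_sInf
          | apply meas_and | apply meas_or | apply meas_not | apply meas_iff
          | apply meas_imp | apply meas_all | apply meas_ex | (with_reducible apply meas_set)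
          | (with_reducible intro _)
          | solve_by_elim
      · refine hf.mono_set ?_
        rintro x hx ⟨a, b, rfl⟩
        exact hx τ ⟨h₁, hτ.2⟩ β hβ m a b
    refine (h.L hτ).and h₂ fun x a b β hβ => ?_
    simp only [res_L, br, if_pos h₁]
    refine ref_setr_of (a β hβ) fun m c e => ?_
    split_ifs at e with h₃
    · exact b β ⟨h₃, hβ.2⟩ m _ ⟨c, e, rfl⟩
    · exact absurd (c.trans_le e) (Nat.not_lt_zero _)
  · simpa [br, h₁] using h.L hτ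

theorem force_fol (hA : IsLowerSet A) (hd : Mem A d) (h : Le d (res A (br p F n σ)))
    (hF : ↑F ⊆ p.T) : Force A d {x | Fol p.L F n σ A x} := by
  have hc := F.countable_toSet.mono (inter_subset_left (t := A))
  refine force_ball hc fun τ hτ => force_ball hc fun β hβ => ?_
  have h₁ : τ ∈ (res A (br p F n σ)).T := ⟨hF hτ.1, hτ.2⟩
  have h₂ : β ∈ (res A (br p F n σ)).T := ⟨hF hβ.1, hβ.2⟩
  refine ((h.L h₁).up (lo_lower τ) (lo_sub hA hτ.2) (meas_set (meas_rel (res A _).hT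
    ((res A _).hL τ) (d.hL τ)))).and (force_row hA hd (h.T h₁) (h.T h₂)) fun x a b m c e => ?_
  have h₃ := ((a β h₂).trans b).1 m
  simp only [res_L, br, if_pos (show τ ∈ F from hτ.1), sig_g_mem (show β ∈ F from hβ.1),
    if_neg c.not_ge, if_pos e] at h₃
  exact h₃ (Bool.toNat_le _)

end Pool.Agent.MP_9c82b4_lc

end

section

namespace Pool.Agent.MP_9c82b4_lc

open Set Classical MeasureTheory

/-- A system of versions of a condition. -/
structure Sys : Type 1 where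
  b : Set X
  T : Set Θ
  L : (Θ → Bool) → Θ → X → Loc
  hT : T.Countable
  hL : ∀ f τ, LM (gen (mK (lo τ))) (L f τ)

def Sys.ver (R : Sys) (f : Θ → Bool) : Pre := ⟨R.b, R.T, R.L f, R.hT, R.hL f⟩

def Ag (F : Finset Θ) (τ : Θ) (f f' : Θ → Bool) : Prop := ∀ τ' ∈ F, τ' < mu τ → f τ' = f' τ'

theorem Ag.symm {F τ f f'} (h : Ag F τ f f') : Ag F τ f' f := fun τ' a b => (h τ' a b).symm

theorem Ag.trans {F τ f f' f''} (h : Ag F τ f f') (h' : Ag F τ f' f'') : Ag F τ f f'' :=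
  fun τ' a b => (h τ' a b).trans (h' τ' a b)

theorem Ag.lo {F τ f f' τ'} (h : Ag F τ f f') (h' : τ' ∈ lo τ) : Ag F τ' f f' :=
  fun τ'' a b => h τ'' a (b.trans ((mu_le τ').trans_lt h'))

structure Good (A : Set Θ) (R : Sys) (F : Finset Θ) (n : ℕ) : Prop where
  mem : ∀ f, Mem A (R.ver f)
  sub : ↑F ⊆ R.T
  dep : ∀ τ f f', Ag F τ f f' → (τ ∈ F → f τ = f' τ) → R.L f τ = R.L f' τ
  tail : ∀ τ ∈ F, ∀ f f', Ag F τ f f' → ∀ x m, n < (R.L f τ x).e m →
    (R.L f' τ x).e m = (R.L f τ x).e m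
  stem : ∀ τ ∈ F, ∀ β ∈ F, ∀ f x, (R.L f τ x).k β < n

structure Step (F : Finset Θ) (n : ℕ) (R R' : Sys) : Prop where
  b : R'.b ⊆ R.b
  T : R.T ⊆ R'.T
  rel : ∀ f, ∀ τ ∈ R.T, ∀ x, Rel R.T (R.L f τ x) (R'.L f τ x)
  keep : ∀ τ ∈ F, ∀ f x m, (R.L f τ x).e m ≤ n → (R'.L f τ x).e m = (R.L f τ x).e m
  nog : ∀ τ ∈ F, ∀ f x m, n < (R.L f τ x).e m → (R'.L f τ x).e m = 0 ∨ n ≤ (R'.L f τ x).e m
  k : ∀ τ ∈ F, ∀ β ∈ F, ∀ f x, (R'.L f τ x).k β = (R.L f τ x).k β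
  pair : ∀ τ ∈ F, ∀ f f', (∀ τ' < mu τ, f τ' = f' τ') → f τ ≠ f' τ → ∀ x m,
    (R'.L f τ x).e m = 0 → (R'.L f' τ x).e m = 0 → (R.L f τ x).e m = 0

variable {A : Set Θ} {R R' R'' : Sys} {F F' : Finset Θ} {n n' : ℕ}

theorem Step.refl (F n R) : Step F n R R :=
  ⟨subset_rfl, subset_rfl, fun _ _ _ _ => .refl _ _, fun _ _ _ _ _ _ => rfl,
    fun _ _ _ _ _ h => Or.inr h.le, fun _ _ _ _ _ _ => rfl, fun _ _ _ _ _ _ _ _ h _ => h⟩

theorem Step.trans (h : Step F n R R') (h' : Step F n R' R'') : Step F n R R'' where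
  b := h'.b.trans h.b
  T := h.T.trans h'.T
  rel f τ hτ x := (h.rel f τ hτ x).trans (h'.rel f τ (h.T hτ) x) h.T
  keep τ hτ f x m a := by
    have := h.keep τ hτ f x m a
    rw [h'.keep τ hτ f x m (this ▸ a), this]
  nog τ hτ f x m a := by
    have h₁ := h.nog τ hτ f x m a
    have h₂ := h'.keep τ hτ f x m
    have h₃ := h'.nog τ hτ f x m
    omega
  k τ hτ β hβ f x := (h'.k τ hτ β hβ f x).trans (h.k τ hτ β hβ f x)
  pair τ hτ f f' a b x m c e := h.pair τ hτ f f' a b x m (h'.pair τ hτ f f' a b x m c e)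
    (h'.pair τ hτ f' f (fun τ' h => (a τ' h).symm) b.symm x m e c)

theorem Step.mono (h : Step F' n' R R') (hF : F ⊆ F') (hn : n ≤ n') : Step F n R R' where
  b := h.b
  T := h.T
  rel := h.rel
  keep τ hτ f x m a := h.keep τ (hF hτ) f x m (a.trans hn)
  nog τ hτ f x m a := by
    have h₁ := h.nog τ (hF hτ) f x m
    have h₂ := h.keep τ (hF hτ) f x m
    omega
  k τ hτ β hβ := h.k τ (hF hτ) β (hF hβ)
  pair τ hτ := h.pair τ (hF hτ)

theorem Step.le_ver (h : Step F n R R') (f : Θ → Bool) : Le (R'.ver f) (R.ver f) :=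
  le_of_pw (.of_sub h.b) h.T (h.rel f)

theorem Step.br_le (h : Step F n R R') (hR : Good A R F n) (hF : F ⊆ F') (hn : n ≤ n')
    {f f' : Θ → Bool} {σ σ' : Θ → Θ → ℕ → Bool} (hf : ∀ τ ∈ F, f τ = f' τ)
    (hσ : ∀ τ ∈ F, ∀ β ∈ F, ∀ j ≤ n, σ' τ β j = σ τ β j) :
    Le (br (R'.ver f') F' n' σ') (br (R.ver f) F n σ) := by
  refine le_of_pw (.of_sub h.b) h.T fun τ hτ x β hβ => ?_
  have e : R.L f τ = R.L f' τ := hR.dep τ f f' (fun τ' a _ => hf τ' a) (hf τ)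
  have h₁ := h.rel f' τ hτ x β hβ
  simp only [br, Sys.ver, e]
  by_cases h₂ : τ ∈ F
  · rw [if_pos h₂, if_pos (hF h₂)]
    exact ref_sig_sig h₁ fun h₃ => ⟨hF h₃, hn, h.k τ h₂ β h₃ f' x, h.keep τ h₂ f' x, hσ τ h₂ β h₃⟩
  · rw [if_neg h₂]
    split_ifs
    exacts [h₁.trans (ref_setr _ _ _ _), h₁]

/-! ### Updating a system -/

section Update

variable (R F n) (f₀ : Θ → Bool) (σ : Θ → Θ → ℕ → Bool) (t : Pre)

def On (τ : Θ) (x : X) : Prop :=
  x ∈ proj (lo τ) t.b ∧ Fol (R.L f₀) F n σ (lo τ) x ∧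
    (τ ∈ R.T → Rel R.T ((br (R.ver f₀) F n σ).L τ x) (t.L τ x))

theorem meas_on (τ : Θ) : Measurable[gen (mK (lo τ))] (On R F n f₀ σ t τ) :=
  meas_and (meas_mem (proj_fs _ _).ms) (meas_and (meas_fol (R.ver f₀) (lo_lower τ))
    (meas_imp measurable_const (meas_rel R.hT ((br _ _ _ _).hL τ) (t.hL τ))))

noncomputable def uK (τ : Θ) (x : X) : ℕ := max n (F.sup fun β => (t.L τ x).k β)

theorem meas_uK (τ : Θ) : Measurable[gen (mK (lo τ))] (uK F n t τ) :=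
  meas_max measurable_const (meas_sup F (t.hL τ).k)

noncomputable def upd : Sys where
  b := R.b
  T := t.T
  L f τ x := if Ag F τ f f₀ ∧ On R F n f₀ σ t τ x then
      if τ ∈ F then
        if f τ = f₀ τ then aupd (R.L f₀ τ x) (t.L τ x) n F (uK F n t τ x)
        else bump (R.L f τ x) n F (t.L τ x).e (uK F n t τ x)
      else t.L τ x
    else if τ ∈ R.T then R.L f τ x else triv
  hT := t.hT
  hL f τ := LM.ite (meas_and measurable_const (meas_on R F n f₀ σ t τ))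
    (LM.ite measurable_const (LM.ite measurable_const
      ((R.hL f₀ τ).aupd (t.hL τ) n F (meas_uK F n t τ))
      ((R.hL f τ).bump n F (t.hL τ).e (meas_uK F n t τ))) (t.hL τ))
    (LM.ite measurable_const (R.hL f τ) (.const _))

variable {R F n f₀ σ t} (hR : Good A R F n)

theorem upd_off {f τ x} (h : ¬ (Ag F τ f f₀ ∧ On R F n f₀ σ t τ x)) :
    (upd R F n f₀ σ t).L f τ x = if τ ∈ R.T then R.L f τ x else triv := if_neg h

theorem upd_out {f τ x} (h : Ag F τ f f₀ ∧ On R F n f₀ σ t τ x) (hτ : τ ∉ F) :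
    (upd R F n f₀ σ t).L f τ x = t.L τ x := (if_pos h).trans (if_neg hτ)

theorem upd_A {f τ x} (h : Ag F τ f f₀ ∧ On R F n f₀ σ t τ x) (hτ : τ ∈ F) (e : f τ = f₀ τ) :
    (upd R F n f₀ σ t).L f τ x = aupd (R.L f₀ τ x) (t.L τ x) n F (uK F n t τ x) :=
  (if_pos h).trans ((if_pos hτ).trans (if_pos e))

theorem upd_B {f τ x} (h : Ag F τ f f₀ ∧ On R F n f₀ σ t τ x) (hτ : τ ∈ F) (e : f τ ≠ f₀ τ) :
    (upd R F n f₀ σ t).L f τ x = bump (R.L f τ x) n F (t.L τ x).e (uK F n t τ x) :=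
  (if_pos h).trans ((if_pos hτ).trans (if_neg e))

theorem le_uK (τ : Θ) (x : X) : n ≤ uK F n t τ x := le_max_left _ _

theorem k_le_uK (τ : Θ) (x : X) {β : Θ} (h : β ∈ F) : (t.L τ x).k β ≤ uK F n t τ x :=
  (Finset.le_sup (f := fun β => (t.L τ x).k β) h).trans (le_max_right _ _)

include hR

theorem upd_e {f τ x} (h : Ag F τ f f₀ ∧ On R F n f₀ σ t τ x) (hτ : τ ∈ F) :
    ((upd R F n f₀ σ t).L f τ x).e =
      newe (R.L f τ x).e (t.L τ x).e n (uK F n t τ x) (if f τ = f₀ τ then 0 else n) := by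
  split_ifs with e
  · rw [upd_A h hτ e, hR.dep τ f f₀ h.1 fun _ => e]; rfl
  · rw [upd_B h hτ e]; rfl

theorem upd_k {f τ x} (hτ : τ ∈ F) {β : Θ} (hβ : β ∈ F) :
    ((upd R F n f₀ σ t).L f τ x).k β = (R.L f τ x).k β := by
  by_cases h : Ag F τ f f₀ ∧ On R F n f₀ σ t τ x
  · by_cases e : f τ = f₀ τ
    · rw [upd_A h hτ e, hR.dep τ f f₀ h.1 fun _ => e]
      simp [aupd, retile, hβ]
    · rw [upd_B h hτ e]
      simp [bump, retile, hβ, (hR.stem τ hτ β hβ f x).le]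
  · rw [upd_off h, if_pos (hR.sub hτ)]

theorem On.ref {τ x} (h : On R F n f₀ σ t τ x) (hτ : τ ∈ F) {β : Θ} (hβ : β ∈ R.T) :
    Ref ((sig (R.L f₀ τ x) F n (σ τ)).g β) ((t.L τ x).g β) := by
  simpa [br, hτ, Sys.ver] using h.2.2 (hR.sub hτ) β hβ

theorem On.all {τ x} (h : On R F n f₀ σ t τ x) (hτ : τ ∈ F) : ∀ β ∈ F, (R.L f₀ τ x).k β < n ∧
    (t.L τ x).k β ≤ uK F n t τ x ∧ Ref ((sig (R.L f₀ τ x) F n (σ τ)).g β) ((t.L τ x).g β) :=
  fun β hβ => ⟨hR.stem τ hτ β hβ f₀ x, k_le_uK τ x hβ, h.ref hR hτ (hR.sub hβ)⟩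

theorem On.le {τ x} (h : On R F n f₀ σ t τ x) (hτ : τ ∈ F) (m : ℕ) (hm : (R.L f₀ τ x).e m ≤ n) :
    (t.L τ x).e m ≤ uK F n t τ x :=
  (sig_le hτ (h.ref hR hτ (hR.sub hτ)) hm).trans (k_le_uK τ x hτ)

theorem upd_step (ht : R.T ⊆ t.T) : Step F n R (upd R F n f₀ σ t) where
  b := subset_rfl
  T := ht
  rel f τ hτ x β hβ := by
    by_cases h : Ag F τ f f₀ ∧ On R F n f₀ σ t τ x
    · by_cases h₁ : τ ∈ F
      · by_cases e : f τ = f₀ τ
        · rw [upd_A h h₁ e, hR.dep τ f f₀ h.1 fun _ => e]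
          exact ref_aupd (le_uK τ x) (h.2.all hR h₁) (h.2.le hR h₁) (h.2.ref hR h₁ hβ)
        · rw [upd_B h h₁ e]
          refine ref_bump (fun m m' a b => ?_) (fun β hβ m a b => ?_) β
          · refine ((h.2.ref hR h₁ hτ).ac.mono (k_le_uK τ x h₁)) m m' ?_
            exact (hR.tail τ h₁ f f₀ h.1 x m a).trans
              (b.trans (hR.tail τ h₁ f f₀ h.1 x m' (b ▸ a)).symm)
          · have := hR.stem τ h₁ β hβ f x
            omega
      · rw [upd_out h h₁, hR.dep τ f f₀ h.1 fun h => absurd h h₁]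
        simpa [br, h₁, Sys.ver] using h.2.2.2 hτ β hβ
    · rw [upd_off h, if_pos hτ]
      exact .refl _
  keep τ hτ f x m a := by
    by_cases h : Ag F τ f f₀ ∧ On R F n f₀ σ t τ x
    · rw [upd_e hR h hτ, newe, if_pos a]
    · rw [upd_off h, if_pos (hR.sub hτ)]
  nog τ hτ f x m a := by
    by_cases h : Ag F τ f f₀ ∧ On R F n f₀ σ t τ x
    · have := le_uK (F := F) (n := n) (t := t) τ x
      rw [upd_e hR h hτ, newe]
      split_ifs <;> omega
    · rw [upd_off h, if_pos (hR.sub hτ)]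
      exact Or.inr a.le
  k τ hτ β hβ f x := upd_k hR hτ hβ
  pair τ hτ f f' a b x m := by
    have h₁ : Ag F τ f f' := fun τ' _ h => a τ' h
    by_cases h : Ag F τ f f₀ ∧ On R F n f₀ σ t τ x
    · have h₂ := le_uK (F := F) (n := n) (t := t) τ x
      have h₃ := hR.tail τ hτ f f' h₁ x m
      have h₄ := hR.stem τ hτ τ hτ f x
      have h₅ : f τ = f₀ τ → f' τ ≠ f₀ τ := fun c e => b (c.trans e.symm)
      rw [upd_e hR h hτ, upd_e hR ⟨h₁.symm.trans h.1, h.2⟩ hτ, newe, newe]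
      split_ifs <;> first | omega | exact absurd ‹f' τ = f₀ τ› (h₅ ‹_›)
    · rw [upd_off h, if_pos (hR.sub hτ)]
      exact fun h _ => h

theorem upd_dep (τ f f') (h₁ : Ag F τ f f') (h₂ : τ ∈ F → f τ = f' τ) :
    (upd R F n f₀ σ t).L f τ = (upd R F n f₀ σ t).L f' τ := by
  funext x
  have : Ag F τ f f₀ ↔ Ag F τ f' f₀ := ⟨h₁.symm.trans, h₁.trans⟩
  simp only [upd, hR.dep τ f f' h₁ h₂, this]
  by_cases h : τ ∈ F
  · rw [h₂ h]
  · simp only [if_neg h]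

theorem upd_key (ht : Le t (br (R.ver f₀) F n σ)) {B : Set Θ} (hB : IsLowerSet B) :
    ∀ d, Mem B d → Le d (res B (br ((upd R F n f₀ σ t).ver f₀) F n σ)) → Sub0 d.b (proj B t.b) →
      Le d (res B t) := by
  have aux : ∀ B, IsLowerSet B → (∀ τ ∈ B, ∀ d, Mem (lo τ) d →
      Le d (res (lo τ) (br ((upd R F n f₀ σ t).ver f₀) F n σ)) → Sub0 d.b (proj (lo τ) t.b) →
        Le d (res (lo τ) t)) → ∀ d, Mem B d → Le d (res B (br ((upd R F n f₀ σ t).ver f₀) F n σ)) →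
      Sub0 d.b (proj B t.b) → Le d (res B t) := by
    intro B hB ih d hd h₁ h₂
    refine le_def.2 ⟨h₂, h₁.T, fun τ hτ => ?_⟩
    have hlo := lo_sub hB hτ.2
    have h₃ := h₁.res (lo_lower τ)
    have h₄ := proj_mono (lo τ) h₂
    rw [res_res hlo] at h₃
    rw [proj_proj hlo] at h₄
    have h₅ := ih τ hτ.2 _ (hd.lo τ) h₃ h₄
    have h₆ : Force (lo τ) (res (lo τ) d) {x | On R F n f₀ σ t τ x} := by
      refine (force_b (proj_fs _ _) h₄).inter (Force.inter (force_fol (p := R.ver f₀) (lo_lower τ)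
        (hd.lo τ) (h₃.trans (Le.res ?_ (lo_lower τ))) hR.sub)
        (force_all fun h => (ht.L h).mono h₅))
      exact (upd_step hR ht.T).br_le hR subset_rfl le_rfl (fun _ _ => rfl) fun _ _ _ _ _ _ => rfl
    refine h₆.and (h₁.L hτ) fun x a b β hβ => Ref.trans ?_ (b β hβ)
    have h₇ : Ag F τ f₀ f₀ ∧ On R F n f₀ σ t τ x := ⟨fun _ _ _ => rfl, a⟩
    simp only [res_L, br, Sys.ver]
    split_ifs with h
    · rw [upd_A h₇ h rfl]
      exact ref_aupd_sig (le_uK τ x) (On.all hR a h) (On.le hR a h) β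
    · rw [upd_out h₇ h]
      exact .refl _
  have H : ∀ ν : Θ, ∀ d, Mem (Iio ν) d →
      Le d (res (Iio ν) (br ((upd R F n f₀ σ t).ver f₀) F n σ)) → Sub0 d.b (proj (Iio ν) t.b) →
        Le d (res (Iio ν) t) := by
    intro ν
    induction ν using WellFoundedLT.induction with
    | ind ν ih => exact aux _ (isLowerSet_Iio ν) fun τ hτ => ih _ ((mu_le τ).trans_lt hτ)
  exact aux B hB fun τ _ => H _

theorem upd_mem (ht : Le t (br (R.ver f₀) F n σ)) (htA : Mem A t) (f : Θ → Bool) :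
    Mem A ((upd R F n f₀ σ t).ver f) := by
  have hs := upd_step (f₀ := f₀) (σ := σ) hR ht.T
  refine mem_def.2 ⟨(hR.mem f).fs, (hR.mem f).pos, htA.T, fun τ hτ j => Sm.reg fun d₁ a₁ b₁ => ?_⟩
  obtain ⟨d, a, b, c⟩ := decide_set (A := lo τ) (S := {x | Ag F τ f f₀ ∧ On R F n f₀ σ t τ x})
    (meas_set (meas_and measurable_const (meas_on R F n f₀ σ t τ))) d₁ a₁
  refine ⟨d, a, b, ?_⟩
  replace b := b.trans b₁
  rcases c with c | c
  · obtain ⟨-, hf, -⟩ := c.nonempty a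
    have h₁ : Le d (res (lo τ) ((upd R F n f₀ σ t).ver f₀)) := by
      refine b.trans (le_of_pw (.refl _) subset_rfl fun τ' hτ' x => ?_)
      simp only [res_L, Sys.ver]
      rw [upd_dep hR τ' f f₀ (hf.lo hτ'.2) fun h => hf τ' h hτ'.2]
      exact .refl _ _
    have h₂ := le_br (σ := σ) (n := n) (lo_lower τ) a h₁ (hR.sub.trans hs.T)
      (c.mono_set fun x hx τ' hτ' β hβ m h₃ h₄ => by
        simp only [Sys.ver] at h₃ h₄ ⊢
        rw [upd_k hR hτ'.1 hβ.1] at h₃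
        have : ((upd R F n f₀ σ t).L f₀ τ' x).e m = (R.L f₀ τ' x).e m := by
          by_cases h : Ag F τ' f₀ f₀ ∧ On R F n f₀ σ t τ' x
          · have := le_uK (F := F) (n := n) (t := t) τ' x
            rw [upd_e hR h hτ'.1, newe, if_pos rfl] at h₃ h₄ ⊢
            split_ifs at h₃ h₄ ⊢ <;> omega
          · rw [upd_off h, if_pos (hR.sub hτ'.1)]
        rw [this] at h₃ h₄ ⊢
        exact hx.2.2.1 τ' hτ' β hβ m h₃ h₄)
    have h₃ := upd_key hR ht (lo_lower τ) d a h₂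
      ((c.mono_set fun x hx => hx.2.1).sub (proj_fs _ _) a)
    refine sm_bdd (fun j => (htA.sm hτ j).mono h₃) (K := fun x => max (uK F n t τ x) j)
      (meas_max (meas_uK F n t τ) measurable_const) (c.mono_set fun x hx m hm => ?_)
    simp only [Sys.ver, mem_ofPred_eq] at hm ⊢
    by_cases h : τ ∈ F
    · have h₄ := On.le hR hx.2 h m
      have h₅ := hR.tail τ h f₀ f hf.symm x m
      rw [upd_e hR hx h, newe] at hm
      split_ifs at hm <;> omega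
    · rw [upd_out hx h] at hm
      omega
  · by_cases h : τ ∈ R.T
    · refine (((hR.mem f).sm h j).mono (b.trans ((hs.le_ver f).res (lo_lower τ)))).sub
        (c.mono_set fun x hx => ?_)
      simp only [Sys.ver, mem_ofPred_eq, upd_off hx, if_pos h, subset_rfl]
    · refine (sm_triv τ d j).sub (c.mono_set fun x hx => ?_)
      simp only [Sys.ver, mem_ofPred_eq, upd_off hx, if_neg h, subset_rfl]

theorem upd_good (ht : Le t (br (R.ver f₀) F n σ)) (htA : Mem A t) :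
    Good A (upd R F n f₀ σ t) F n where
  mem := upd_mem hR ht htA
  sub := hR.sub.trans ht.T
  dep := upd_dep hR
  tail τ hτ f f' h₁ x m := by
    have h₃ := hR.tail τ hτ f f' h₁ x m
    by_cases h : Ag F τ f f₀ ∧ On R F n f₀ σ t τ x
    · have h₂ := le_uK (F := F) (n := n) (t := t) τ x
      rw [upd_e hR h hτ, upd_e hR ⟨h₁.symm.trans h.1, h.2⟩ hτ, newe, newe]
      split_ifs <;> omega
    · rw [upd_off h, upd_off fun h' => h ⟨h₁.trans h'.1, h'.2⟩, if_pos (hR.sub hτ),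
        if_pos (hR.sub hτ)]
      exact h₃
  stem τ hτ β hβ f x := by
    rw [upd_k hR hτ hβ]
    exact hR.stem τ hτ β hβ f x

theorem exists_update (hA : IsLowerSet A) (ht : Le t (br (R.ver f₀) F n σ)) (htA : Mem A t) :
    ∃ R', Good A R' F n ∧ Step F n R R' ∧ R'.b = R.b ∧
      ∀ d, Mem A d → Le d (br (R'.ver f₀) F n σ) → Sub0 d.b t.b → Le d t :=
  ⟨_, upd_good hR ht htA, upd_step hR ht.T, rfl, fun d a b c =>
    (upd_key hR ht hA d a (b.trans (le_res _ _)) (c.trans (sub_proj _ _))).trans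
      ((Le.refl t).res_le hA htA)⟩

end Update

def constSys (p : Pre) : Sys := ⟨p.b, p.T, fun _ => p.L, p.hT, fun _ => p.hL⟩

theorem good_const {p : Pre} (h : Mem A p) (n : ℕ) : Good A (constSys p) ∅ n :=
  ⟨fun _ => h, by simp, fun _ _ _ _ _ => rfl, by simp, by simp⟩

theorem br_empty (p : Pre) (n σ) : br p ∅ n σ = p := Pre.ext rfl rfl (by funext τ x; simp [br])

/-- Lifting an extension to the full random part. -/
theorem exists_lift (hA : IsLowerSet A) {q t : Pre} (hq : Mem A q) (htA : Mem A t) (ht : Le t q) :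
    ∃ q', Mem A q' ∧ Le q' q ∧ q'.b = q.b ∧ ∀ d, Mem A d → Le d q' → Sub0 d.b t.b → Le d t := by
  obtain ⟨R, a, b, c, e⟩ := exists_update (f₀ := fun _ => false) (σ := fun _ _ _ => false)
    (good_const hq 0) hA (by rw [br_empty]; exact ht) htA
  rw [br_empty] at e
  exact ⟨_, a.mem _, b.le_ver _, c, e⟩

theorem exists_shrink (hR : Good A R F n) {a : Set X} (ha : FS A a) (h₀ : pr (R.b ∩ a) ≠ 0) :
    ∃ R', Good A R' F n ∧ Step F n R R' ∧ R'.b = R.b ∩ a := by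
  have := Step.refl F n R
  exact ⟨⟨R.b ∩ a, R.T, R.L, R.hT, R.hL⟩,
    ⟨fun f => (hR.mem f).shrink ha h₀, hR.sub, hR.dep, hR.tail, hR.stem⟩,
    ⟨inter_subset_left, this.T, this.rel, this.keep, this.nog, this.k, this.pair⟩, rfl⟩

/-! ### Squashing -/

theorem exists_squash (hR : Good A R F n) (hF : F ⊆ F') (hF' : ↑F' ⊆ R.T) (i : ℕ) :
    ∃ R', Good A R' F' (n + 1) ∧ Step F n R R' ∧ R'.b = R.b ∧
      ∀ τ ∈ F', ∀ f x, ∀ m < i, (R'.L f τ x).e m ≤ n := by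
  let K₀ : (Θ → Bool) → Θ → X → ℕ := fun f τ x =>
    max (F'.sup fun β => (R.L f τ x).k β) ((Finset.range i).sup fun m => (R.L f τ x).e m)
  let K : (Θ → Bool) → Θ → X → ℕ := fun f τ x =>
    max (K₀ (Function.update f τ true) τ x) (K₀ (Function.update f τ false) τ x)
  have hK₀ : ∀ f τ, Measurable[gen (mK (lo τ))] (K₀ f τ) := fun f τ =>
    meas_max (meas_sup _ (R.hL f τ).k) (meas_sup _ (R.hL f τ).e)
  have hK : ∀ f τ, Measurable[gen (mK (lo τ))] (K f τ) := fun f τ => meas_max (hK₀ _ _) (hK₀ _ _)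
  have hKe : ∀ τ f f', Ag F' τ f f' → K f τ = K f' τ := by
    intro τ f f' h
    have : ∀ v, R.L (Function.update f τ v) τ = R.L (Function.update f' τ v) τ := by
      refine fun v => hR.dep τ _ _ (fun τ' a b => ?_) fun _ => by simp
      have : τ' ≠ τ := fun e => not_mem_lo τ (e ▸ b)
      simp [this, h τ' (hF a) b]
    simp only [K, K₀, this]
  have hKl : ∀ f τ x, K₀ f τ x ≤ K f τ x := by
    intro f τ x
    conv_lhs => rw [← Function.update_eq_self τ f]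
    cases f τ
    exacts [le_max_right _ _, le_max_left _ _]
  have hk : ∀ f τ x, ∀ β ∈ F', (R.L f τ x).k β ≤ K f τ x := fun f τ x β h =>
    ((Finset.le_sup (f := fun β => (R.L f τ x).k β) h).trans (le_max_left _ _)).trans (hKl f τ x)
  let R' : Sys := ⟨R.b, R.T, fun f τ x => if τ ∈ F' then
      bump (R.L f τ x) n F' (R.L f τ x).e (K f τ x) else R.L f τ x, R.hT,
    fun f τ => LM.ite measurable_const ((R.hL f τ).bump n F' (R.hL f τ).e (hK f τ)) (R.hL f τ)⟩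
  have he : ∀ τ ∈ F', ∀ f x m, (R'.L f τ x).e m =
      newe (R.L f τ x).e (R.L f τ x).e n (K f τ x) n m := fun τ hτ f x m => by
    simp only [R', if_pos hτ]; rfl
  have hk' : ∀ τ ∈ F', ∀ β ∈ F', ∀ f x, (R'.L f τ x).k β = min ((R.L f τ x).k β) n :=
    fun τ hτ β hβ f x => by simp [R', hτ, hβ, bump, retile]
  have hs : Step F n R R' := by
    refine ⟨subset_rfl, subset_rfl, fun f τ _ x β _ => ?_, fun τ hτ f x m h => ?_,
      fun τ hτ f x m h => ?_, fun τ hτ β hβ f x => ?_, fun τ hτ f f' _ _ x m => ?_⟩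
    · simp only [R']
      split_ifs
      · exact ref_bump (fun _ _ _ e => Or.inl e) (fun β hβ m _ h => h.trans (hk f τ x β hβ)) β
      · exact .refl _
    · rw [he τ (hF hτ), newe, if_pos h]
    · rw [he τ (hF hτ), newe]
      split_ifs <;> omega
    · rw [hk' τ (hF hτ) β (hF hβ), min_eq_left (hR.stem τ hτ β hβ f x).le]
    · have := hR.stem τ hτ τ hτ f x
      rw [he τ (hF hτ), newe]
      split_ifs <;> omega
  refine ⟨R', ⟨fun f => ?_, hF', fun τ f f' a b => ?_, fun τ hτ f f' a x m => ?_,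
    fun τ hτ β hβ f x => ?_⟩, hs, rfl, fun τ hτ f x m hm => ?_⟩
  · refine mem_def.2 ⟨(hR.mem f).fs, (hR.mem f).pos, (hR.mem f).T, fun τ hτ j => ?_⟩
    refine sm_bdd (fun j => ((hR.mem f).sm hτ j).mono ((hs.le_ver f).res (lo_lower τ)))
      (K := fun x => max (K f τ x) j) (meas_max (hK f τ) measurable_const)
      (force_of_forall fun x m hm => ?_)
    simp only [Sys.ver, mem_ofPred_eq] at hm ⊢
    by_cases h : τ ∈ F'
    · rw [he τ h, newe] at hm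
      split_ifs at hm <;> omega
    · simp only [R', if_neg h] at hm
      omega
  · simp only [R', hKe τ f f' a, hR.dep τ f f' (fun τ' c => a τ' (hF c)) fun c => b (hF c)]
  · have : n < (R.L f τ x).e m → (R.L f' τ x).e m = (R.L f τ x).e m := by
      by_cases h : τ ∈ F
      · exact hR.tail τ h f f' (fun τ' c => a τ' (hF c)) x m
      · rw [hR.dep τ f f' (fun τ' c => a τ' (hF c)) fun c => absurd c h]
        exact fun _ => rfl
    rw [he τ hτ, he τ hτ, newe, newe, hKe τ f f' a]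
    split_ifs <;> omega
  · rw [hk' τ hτ β hβ]
    omega
  · have : (R.L f τ x).e m ≤ K f τ x := ((Finset.le_sup (f := fun m => (R.L f τ x).e m)
      (Finset.mem_range.2 hm)).trans (le_max_right _ _)).trans (hKl f τ x)
    rw [he τ hτ, newe]
    split_ifs <;> omega

end Pool.Agent.MP_9c82b4_lc

end

section

namespace Pool.Agent.MP_9c82b4_lc

open Set Classical MeasureTheory

variable {A : Set Θ}

theorem decide_bits {ι : Type*} {p : Pre} (hp : Mem A p) (I : Finset ι) {g : ι → X → Bool}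
    (hg : ∀ i ∈ I, Measurable[gen (mK A)] (g i)) :
    ∃ d, Mem A d ∧ Le d p ∧ ∃ f : ι → Bool, Force A d {x | ∀ i ∈ I, g i x = f i} := by
  obtain ⟨d, a, b, c⟩ := decide_fin I.finite_toSet (Φ := fun i d => ∃ v, Force A d {x | g i x = v})
    (fun i p q h ⟨v, hv⟩ => ⟨v, hv.mono h⟩) (fun i hi d hd _ => decide_fun (hg i hi) hd) hp
  choose! f hf using c
  exact ⟨d, a, b, f, force_ball I.countable_toSet hf⟩

theorem exists_limit (R : ℕ → Sys) (F : ℕ → Finset Θ)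
    (hG : ∀ i, Good A (R i) (F i) (i + 1)) (hS : ∀ i, Step (F i) (i + 1) (R i) (R (i + 1)))
    (hF : Monotone F) (hT : ∀ i, ∀ τ ∈ (R i).T, ∃ j, τ ∈ F j)
    (hst : ∀ i, ∀ τ ∈ F i, ∀ f x, ∀ m < i, ((R i).L f τ x).e m ≤ i + 1)
    (h₀ : pr (⋂ i, (R i).b) ≠ 0) :
    ∃ r, Mem A r ∧ r.b = ⋂ i, (R i).b ∧ ∃ ch : Θ → X → Bool,
      (∀ τ, Measurable[gen (mK (lo τ))] (ch τ)) ∧ ∀ i f B d, IsLowerSet B → Mem B d →
        Le d (res B r) → Force B d {x | ∀ τ ∈ F i, τ ∈ B → ch τ x = f τ} →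
          Le d (res B ((R i).ver f)) := by
  have hSS : ∀ i j, i ≤ j → Step (F i) (i + 1) (R i) (R j) := by
    intro i j h
    induction j, h using Nat.le_induction with
    | base => exact .refl _ _ _
    | succ j h ih => exact ih.trans ((hS j).mono (hF h) (by omega))
  let Lim : (Θ → Bool) → Θ → X → Loc := fun f τ x => limL fun j => (R j).L f τ x
  let ch : Θ → X → Bool := (wellFounded_lt (α := Θ)).fix fun τ ih => bit τ fun x =>
    {m | (Lim (fun τ' => if h : τ' < τ then ih τ' h x else false) τ x).e m = 0}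
  let φ : Θ → X → Θ → Bool := fun τ x τ' => if τ' < τ then ch τ' x else false
  let Z : Θ → X → Set ℕ := fun τ x => {m | (Lim (φ τ x) τ x).e m = 0}
  have hch : ∀ τ, ch τ = bit τ (Z τ) := fun τ => by
    simp only [ch]
    rw [WellFounded.fix_eq]
    rfl
  have mch : ∀ τ, Measurable[gen (mK (lo τ))] (ch τ) := fun τ => hch τ ▸ meas_bit τ _
  have mch' : ∀ τ τ', τ' < mu τ ∨ τ' = τ → Measurable[gen (mK (lo τ))] (ch τ') := by
    rintro τ τ' (h | rfl)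
    exacts [(mch τ').mono (gen_mono (mK_mono (lo_sub (lo_lower τ) h))) le_rfl, mch _]
  have mL : ∀ τ (ψ : X → Θ → Bool), (∀ τ', τ' < mu τ ∨ τ' = τ →
      Measurable[gen (mK (lo τ))] fun x => ψ x τ') → LM (gen (mK (lo τ))) fun x => Lim (ψ x) τ x := by
    refine fun τ ψ h => LM.limL fun j => LM.sel ((F j).filter fun τ' => τ' < mu τ ∨ τ' = τ)
      (Φ := fun f => (R j).L f τ) (fun f => (R j).hL f τ) (fun f f' e => (hG j).dep τ f f' ?_ ?_)
      fun τ' h' => h τ' (Finset.mem_filter.1 h').2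
    · exact fun τ' a b => e τ' (Finset.mem_filter.2 ⟨a, Or.inl b⟩)
    · exact fun a => e τ (Finset.mem_filter.2 ⟨a, Or.inr rfl⟩)
  have hZ : ∀ τ, Z τ ∈ Meas (lo τ) := fun τ m => meas_set (meas_eq ((mL τ (φ τ) fun τ' h =>
    meas_ite measurable_const (mch' τ τ' h) measurable_const).e m) measurable_const)
  have he : ∀ i, ∀ τ ∈ F i, ∀ f x m, ∃ j, i ≤ j ∧ ∀ j', j ≤ j' →
      ((R j').L f τ x).e m = (Lim f τ x).e m := by
    intro i τ hτ f x m
    have h₁ : τ ∈ F (max i (m + 1)) := hF (le_max_left _ _) hτ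
    have h₂ := fun j' h => (hSS _ j' h).keep τ h₁ f x m (hst _ τ h₁ f x m (by omega))
    exact ⟨_, le_max_left _ _, fun j' h => (h₂ j' h).trans (lim_eq h₂).symm⟩
  have hrel : ∀ i f, ∀ τ ∈ (R i).T, ∀ x, Rel (R i).T ((R i).L f τ x) (Lim f τ x) := by
    intro i f τ hτ x β hβ
    obtain ⟨j₁, h₁⟩ := hT i τ hτ
    obtain ⟨j₂, h₂⟩ := hT i β hβ
    refine ref_limL (l := fun j => (R j).L f τ x) (fun j j' a b =>
      (hSS j j' b).rel f τ ((hSS i j a).T hτ) x β ((hSS i j a).T hβ)) (fun m => ?_)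
      ⟨max j₁ j₂, _, fun j' h => (hSS _ j' h).k τ (hF (le_max_left _ _) h₁) β
        (hF (le_max_right _ _) h₂) f x⟩
    obtain ⟨j, -, h⟩ := he j₁ τ h₁ f x m
    exact ⟨j, _, h⟩
  let r : Pre := ⟨⋂ i, (R i).b, ⋃ i, (R i).T, fun τ x => Lim (fun τ' => ch τ' x) τ x,
    countable_iUnion fun i => (R i).hT, fun τ => mL τ _ (mch' τ)⟩
  have key : ∀ i f B d, IsLowerSet B → Mem B d → Le d (res B r) →
      Force B d {x | ∀ τ ∈ F i, τ ∈ B → ch τ x = f τ} → Le d (res B ((R i).ver f)) := by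
    intro i f B d hB hd h₁ h₂
    have hsub : (res B ((R i).ver f)).T ⊆ (res B r).T :=
      inter_subset_inter_left _ (subset_iUnion (fun i => (R i).T) i)
    refine le_def.2 ⟨h₁.b.trans (proj_mono _ (.of_sub (iInter_subset _ i))), hsub.trans h₁.T,
      fun τ hτ => ?_⟩
    have h₃ : Force (lo τ) (res (lo τ) d)
        {x | ∀ τ' ∈ ((F i).filter fun τ' => τ' < mu τ ∨ τ' = τ : Set Θ), ch τ' x = f τ'} := by
      refine Force.down (h₂.mono_set fun x hx τ' h => hx τ' (Finset.mem_filter.1 h).1 ?_)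
        (lo_lower τ) (lo_sub hB hτ.2) (meas_set (meas_ball (Finset.countable_toSet _) fun τ' h =>
          meas_beq (mch' τ τ' (Finset.mem_filter.1 h).2) _)) hd
      rcases (Finset.mem_filter.1 h).2 with h | rfl
      exacts [lo_sub hB hτ.2 h, hτ.2]
    refine h₃.and (h₁.L (hsub hτ)) fun x a b => Rel.trans ?_ b hsub
    have := (hG i).dep τ (fun τ' => ch τ' x) f
      (fun τ' c e => a τ' (Finset.mem_filter.2 ⟨c, Or.inl e⟩))
      fun c => a τ (Finset.mem_filter.2 ⟨c, Or.inr rfl⟩)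
    simp only [res_L, Sys.ver, ← this]
    exact (hrel i _ τ hτ.1 x).mono inter_subset_left
  refine ⟨r, mem_def.2 ⟨MeasurableSet.iInter fun i => ((hG i).mem fun _ => false).fs, h₀,
    iUnion_subset fun i => ((hG i).mem fun _ => false).T, fun τ hτ j => Sm.reg fun d₁ a₁ b₁ => ?_⟩,
    rfl, ch, mch, key⟩
  obtain ⟨i₀, hτ⟩ := mem_iUnion.1 hτ
  obtain ⟨i₁, hτ⟩ := hT i₀ τ hτ
  let i := max i₁ j
  replace hτ : τ ∈ F i := hF (le_max_left _ _) hτ
  obtain ⟨d, a, b, f, c⟩ := decide_bits a₁ ((F i).filter fun τ' => τ' < mu τ ∨ τ' = τ) (g := ch)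
    fun τ' h => mch' τ τ' (Finset.mem_filter.1 h).2
  have h₁ := (((hG i).mem f).sm ((hG i).sub hτ) j).mono (key i f _ d (lo_lower τ) a (b.trans b₁)
    (c.mono_set fun x hx τ' h h' => hx τ' (Finset.mem_filter.2 ⟨h, Or.inl h'⟩)))
  refine ⟨d, a, b, h₁.of_sel (hZ τ) (c.mono_set fun x hx m ⟨h₂, h₃⟩ => ?_)⟩
  have := (hG i).dep τ (fun τ' => ch τ' x) f
    (fun τ' c e => hx τ' (Finset.mem_filter.2 ⟨c, Or.inl e⟩))
    fun c => hx τ (Finset.mem_filter.2 ⟨c, Or.inr rfl⟩)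
  simp only [Sys.ver, mem_ofPred_eq, ← this]
  obtain ⟨j₁, h₄, h₅⟩ := he i τ hτ (fun τ' => ch τ' x) x m
  replace h₂ : (Lim (fun τ' => ch τ' x) τ x).e m = j := h₂
  rcases Nat.eq_zero_or_pos j with rfl | hj
  · have h₆ : ∀ τ' < mu τ, ch τ' x = φ τ x τ' := fun τ' h => (if_pos (h.trans_le (mu_le τ))).symm
    have h₇ : φ τ x τ = false := if_neg (lt_irrefl τ)
    replace h₃ : (Lim (φ τ x) τ x).e m = 0 ↔ ch τ x = true := by rw [hch]; exact h₃
    cases h₈ : ch τ x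
    · have : ∀ j, (R j).L (fun τ' => ch τ' x) τ = (R j).L (φ τ x) τ := fun j =>
        (hG j).dep τ _ _ (fun τ' _ h => h₆ τ' h) fun _ => h₈.trans h₇.symm
      simp only [Lim, this] at h₂
      exact absurd (h₃.1 h₂) (by simp [h₈])
    · obtain ⟨j₂, -, h₉⟩ := he i τ hτ (φ τ x) x m
      refine (hSS i (max j₁ j₂) (by omega)).pair τ hτ _ (φ τ x) h₆ (by simp [h₇, h₈]) x m
        ((h₅ _ (le_max_left _ _)).trans h₂) ((h₉ _ (le_max_right _ _)).trans (h₃.2 h₈))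
  · have h₆ := (hSS i j₁ h₄).keep τ hτ (fun τ' => ch τ' x) x m
    have h₇ := (hSS i j₁ h₄).nog τ hτ (fun τ' => ch τ' x) x m
    have h₈ := h₅ j₁ le_rfl
    have : j ≤ i := le_max_right _ _
    omega

theorem book {S T : Type*} (tasks : S → Set T) (hc : ∀ s, (tasks s).Countable)
    (Inv : ℕ → S → Finset T → Prop) (R : ℕ → S → Finset T → S → Finset T → Prop)
    (step : ∀ k s F F', Inv k s F → F ⊆ F' → ↑F' ⊆ tasks s → F'.card ≤ k + 1 →
      ∃ s', R k s F s' F' ∧ Inv (k + 1) s' F' ∧ tasks s ⊆ tasks s') (s₀ : S) (h₀ : Inv 0 s₀ ∅) :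
    ∃ (s : ℕ → S) (F : ℕ → Finset T), s 0 = s₀ ∧ F 0 = ∅ ∧ (∀ k, Inv k (s k) (F k)) ∧
      (∀ k, R k (s k) (F k) (s (k + 1)) (F (k + 1))) ∧ Monotone F ∧
      ∀ k, ∀ t ∈ tasks (s k), ∃ m, t ∈ F m := by
  have he : ∀ s, ∃ e : ℕ → Finset T, (∀ n, ↑(e n) ⊆ tasks s ∧ (e n).card ≤ 1) ∧
      ∀ t ∈ tasks s, ∃ n, t ∈ e n := by
    intro s
    rcases (tasks s).eq_empty_or_nonempty with h | h
    · exact ⟨fun _ => ∅, by simp, by simp [h]⟩
    · obtain ⟨f, hf⟩ := (hc s).exists_eq_range h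
      exact ⟨fun n => {f n}, by simp [hf], by simp [hf]⟩
  choose e he₁ he₂ using he
  let H : ℕ → Type _ := fun k => {z : (ℕ → S) × Finset T // Inv k (z.1 k) z.2 ∧
    (∀ a ≤ k, tasks (z.1 a) ⊆ tasks (z.1 k)) ∧ ↑z.2 ⊆ tasks (z.1 k) ∧ z.2.card ≤ k}
  have hs : ∀ k (z : H k), ∃ z' : H (k + 1), (∀ a ≤ k, z'.1.1 a = z.1.1 a) ∧
      z'.1.2 = z.1.2 ∪ e (z.1.1 k.unpair.1) k.unpair.2 ∧
      R k (z.1.1 k) z.1.2 (z'.1.1 (k + 1)) z'.1.2 := by
    rintro k ⟨⟨s, F⟩, h₁, h₂, h₃, h₄⟩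
    have h₅ : ↑(F ∪ e (s k.unpair.1) k.unpair.2) ⊆ tasks (s k) := by
      rw [Finset.coe_union]
      exact union_subset h₃ ((he₁ _ _).1.trans (h₂ _ (Nat.unpair_left_le k)))
    have h₆ : (F ∪ e (s k.unpair.1) k.unpair.2).card ≤ k + 1 :=
      (Finset.card_union_le _ _).trans (add_le_add h₄ (he₁ _ _).2)
    obtain ⟨s', a, b, c⟩ := step k (s k) F _ h₁ Finset.subset_union_left h₅ h₆
    refine ⟨⟨(Function.update s (k + 1) s', _), by simpa using b, fun a ha => ?_,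
      by simpa using h₅.trans c, h₆⟩, fun a ha => Function.update_of_ne (by omega) _ _, rfl,
      by simpa using a⟩
    rcases Nat.le_succ_iff.1 ha with h | rfl
    · simpa [Function.update_of_ne (show a ≠ k + 1 by omega)] using (h₂ a h).trans c
    · exact subset_rfl
  choose nx h₁ h₂ h₃ using hs
  let z : ∀ k, H k := fun k => Nat.rec ⟨(fun _ => s₀, ∅), h₀, by simp, by simp, by simp⟩ nx k
  have hz : ∀ k, z (k + 1) = nx k (z k) := fun _ => rfl
  have h₄ : ∀ a k, a ≤ k → (z k).1.1 a = (z a).1.1 a := by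
    intro a k h
    induction k, h using Nat.le_induction with
    | base => rfl
    | succ k h ih => rw [hz, h₁ k _ a h, ih]
  refine ⟨fun k => (z k).1.1 k, fun k => (z k).1.2, rfl, rfl, fun k => (z k).2.1,
    fun k => h₃ k (z k), monotone_nat_of_le_succ fun k => ?_, fun k t ht => ?_⟩
  · rw [hz, h₂]
    exact Finset.subset_union_left
  · obtain ⟨n, hn⟩ := he₂ _ t ht
    refine ⟨Nat.pair k n + 1, ?_⟩
    simp only [hz, h₂, Nat.unpair_pair, h₄ k _ (Nat.left_le_pair k n)]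
    exact Finset.mem_union_right _ hn

end Pool.Agent.MP_9c82b4_lc

end

section

namespace Pool.Agent.MP_9c82b4_lc

open Set Classical MeasureTheory
open scoped ENNReal

variable {A : Set Θ} {D : Set Pre} {p q d : Pre}

/-- Below `q`, the set `D` is entered on finitely many pieces of the random part covering `a`. -/
def Cov (A : Set Θ) (D : Set Pre) (q : Pre) (a : Set X) : Prop :=
  ∃ l : List (Set X × Pre), (∀ z ∈ l, FS A z.1 ∧ z.2 ∈ D ∧
    ∀ d, Mem A d → Le d q → Sub0 d.b z.1 → Le d z.2) ∧ Sub0 a {x | ∃ z ∈ l, x ∈ z.1}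

theorem Cov.mono {a a' : Set X} {q' : Pre} (h : Cov A D q a) (hq : Le q' q) (ha : Sub0 a' a) :
    Cov A D q' a' :=
  let ⟨l, h₁, h₂⟩ := h
  ⟨l, fun z hz => ⟨(h₁ z hz).1, (h₁ z hz).2.1, fun d a b => (h₁ z hz).2.2 d a (b.trans hq)⟩,
    ha.trans h₂⟩

theorem Cov.union {a a' : Set X} (h : Cov A D q a) (h' : Cov A D q a') : Cov A D q (a ∪ a') := by
  obtain ⟨l, h₁, h₂⟩ := h
  obtain ⟨l', h₁', h₂'⟩ := h'
  refine ⟨l ++ l', fun z hz => (List.mem_append.1 hz).elim (h₁ z) (h₁' z), ?_⟩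
  filter_upwards [h₂, h₂'] with x a b
  rintro (h | h)
  · obtain ⟨z, c, e⟩ := a h
    exact ⟨z, List.mem_append_left _ c, e⟩
  · obtain ⟨z, c, e⟩ := b h
    exact ⟨z, List.mem_append_right _ c, e⟩

theorem cov_of_le {c : Pre} (hc : c ∈ D) (h : Le q c) (a : Set X) : Cov A D q a :=
  ⟨[(univ, c)], by simpa using ⟨hc, fun d _ b _ => b.trans h⟩, .of_sub (by simp)⟩

theorem Cov.lift {t : Pre} (h : Cov A D t t.b) (ht : FS A t.b)
    (hq : ∀ d, Mem A d → Le d q → Sub0 d.b t.b → Le d t) : Cov A D q t.b := by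
  obtain ⟨l, h₁, h₂⟩ := h
  refine ⟨l.map fun z => (z.1 ∩ t.b, z.2), ?_, ?_⟩
  · simp only [List.mem_map]
    rintro _ ⟨z, hz, rfl⟩
    exact ⟨(h₁ z hz).1.inter ht, (h₁ z hz).2.1, fun d a b c => (h₁ z hz).2.2 d a
      (hq d a b (c.trans (.of_sub inter_subset_right))) (c.trans (.of_sub inter_subset_left))⟩
  · filter_upwards [h₂] with x a hx
    obtain ⟨z, b, c⟩ := a hx
    exact ⟨_, List.mem_map_of_mem b, c, hx⟩

theorem exists_piece_list {V : Type*} {l : List (Set X × V)} {Q : Set X × V → Prop} {a : Set X}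
    (ha : pr a ≠ 0) (h : Sub0 a {x | ∃ z ∈ l, Q z ∧ x ∈ z.1}) :
    ∃ z ∈ l, Q z ∧ pr (a ∩ z.1) ≠ 0 := by
  obtain ⟨z, h₁, h₂⟩ := exists_piece (s := {z | z ∈ l ∧ Q z}) (f := fun z => z.1)
    ((List.finite_toSet l).subset fun z hz => hz.1).countable ha
    (h.trans (.of_sub fun x ⟨z, a, b, c⟩ => mem_iUnion₂.2 ⟨z, ⟨a, b⟩, c⟩))
  exact ⟨z, h₁.1, h₁.2, h₂⟩

theorem fs_list {V : Type*} {l : List (Set X × V)} (Q : Set X × V → Prop)
    (h : ∀ z ∈ l, FS A z.1) : FS A {x | ∃ z ∈ l, Q z ∧ x ∈ z.1} := by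
  have : {x | ∃ z ∈ l, Q z ∧ x ∈ z.1} = ⋃ z ∈ {z | z ∈ l ∧ Q z}, z.1 := by
    ext x; simp [and_assoc]
  rw [this]
  exact ((List.finite_toSet l).subset fun z hz => hz.1).measurableSet_biUnion fun z hz => h z hz.1

/-- Density below a condition. -/
def DB (A : Set Θ) (D : Set Pre) (p : Pre) : Prop :=
  ∀ q, Mem A q → Le q p → ∃ d, Mem A d ∧ Le d q ∧ d ∈ D

def L1 (A : Set Θ) : Prop := ∀ D p, Mem A p → DB A D p → ∀ δ : ℝ≥0∞, δ ≠ 0 →
  ∃ t, Mem A t ∧ Le t p ∧ pr (p.b \ t.b) ≤ δ ∧ Cov A D t t.b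

theorem decide_bit_big (hA : IsLowerSet A) {τ : Θ} (hτ : τ ∈ A) (hL : L1 (lo τ)) (hd : Mem A d)
    {g : X → Bool} (hg : Measurable[gen (mK (lo τ))] g) :
    ∃ d', Mem A d' ∧ Le d' d ∧ pr d.b ≤ 4 * pr d'.b ∧ ∃ v, Force A d' {x | g x = v} := by
  obtain ⟨t, a, b, c, l, h₁, h₂⟩ := hL {c | ∃ v, Force (lo τ) c {x | g x = v}} _ (hd.lo τ)
    (fun q hq _ => decide_fun hg hq) (pr d.b / 2) (by simp [hd.pos])
  let s : Bool → Set X := fun v => {x | ∃ z ∈ l, Force (lo τ) z.2 {x | g x = v} ∧ x ∈ z.1}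
  have h₃ : pr d.b ≤ pr d.b / 2 + (pr (t.b ∩ s true ∩ d.b) + pr (t.b ∩ s false ∩ d.b)) := by
    refine le_trans (Sub0.le (b := (proj (lo τ) d.b \ t.b) ∪
      ((t.b ∩ s true ∩ d.b) ∪ (t.b ∩ s false ∩ d.b))) ?_)
      ((measure_union_le _ _).trans (add_le_add c (measure_union_le _ _)))
    filter_upwards [sub_proj (lo τ) d.b, h₂] with x e f hx
    by_cases h : x ∈ t.b
    · obtain ⟨z, k, k'⟩ := f h
      obtain ⟨_ | _, hv⟩ := (h₁ z k).2.1
      exacts [Or.inr (Or.inr ⟨⟨h, z, k, hv, k'⟩, hx⟩), Or.inr (Or.inl ⟨⟨h, z, k, hv, k'⟩, hx⟩)]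
    · exact Or.inl ⟨e hx, h⟩
  obtain ⟨v, hv⟩ : ∃ v, pr d.b ≤ 4 * pr (t.b ∩ s v ∩ d.b) := by
    have h₄ : pr d.b / 2 ≠ ⊤ := ENNReal.div_ne_top (measure_ne_top _ _) (by simp)
    nth_rw 1 [← ENNReal.add_halves (pr d.b)] at h₃
    replace h₃ := (ENNReal.add_le_add_iff_left h₄).1 h₃
    have h₅ : ∀ y : ℝ≥0∞, pr d.b / 2 ≤ y + y → pr d.b ≤ 4 * y := fun y h => by
      rw [← ENNReal.add_halves (pr d.b)]
      refine (add_le_add h h).trans_eq ?_
      ring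
    rcases le_total (pr (t.b ∩ s true ∩ d.b)) (pr (t.b ∩ s false ∩ d.b)) with h | h
    exacts [⟨false, h₅ _ (h₃.trans (by gcongr))⟩, ⟨true, h₅ _ (h₃.trans (by gcongr))⟩]
  have h₆ : pr (t.b ∩ s v ∩ d.b) ≠ 0 := fun e => hd.pos (by simpa [e] using hv)
  have h₇ : Mem (lo τ) (shrink t (s v)) := a.shrink (fs_list _ fun z hz => (h₁ z hz).1)
    ((Sub0.of_sub inter_subset_left).ne_zero h₆)
  have h₈ := (shrink_le t (s v)).trans b
  refine ⟨merge (shrink t (s v)) d, mem_merge h₇ hd (lo_sub hA hτ) h₈, merge_le_right h₇.T h₈, hv,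
    v, (Force.up' (Force.reg fun d' e f => ?_) (lo_lower τ) (lo_sub hA hτ)
      (meas_set (meas_beq hg v)) h₇).mono (merge_le_left _ _)⟩
  obtain ⟨z, k₁, k₂, k₃⟩ := exists_piece_list e.pos (f.b.trans (shrink_sub _ _))
  have k₄ := e.shrink (h₁ z k₁).1 k₃
  exact ⟨_, k₄, shrink_le _ _, k₂.mono ((h₁ z k₁).2.2 _ k₄
    ((shrink_le _ _).trans (f.trans (shrink_le _ _))) (shrink_sub _ _))⟩

theorem decide_bits_big (hA : IsLowerSet A) (hL : ∀ τ ∈ A, L1 (lo τ)) (hd : Mem A d) {ι : Type*}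
    (I : Finset ι) (lv : ι → Θ) {g : ι → X → Bool}
    (hg : ∀ i ∈ I, lv i ∈ A ∧ Measurable[gen (mK (lo (lv i)))] (g i)) :
    ∃ d', Mem A d' ∧ Le d' d ∧ pr d.b ≤ 4 ^ I.card * pr d'.b ∧
      ∃ v : ι → Bool, Force A d' {x | ∀ i ∈ I, g i x = v i} := by
  induction I using Finset.induction_on with
  | empty => exact ⟨d, hd, .refl _, by simp, fun _ => true, force_of_forall (by simp)⟩
  | insert i I hi ih =>
    obtain ⟨d₁, a, b, c, v, e⟩ := ih fun j hj => hg j (Finset.mem_insert_of_mem hj)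
    have h := hg i (Finset.mem_insert_self _ _)
    obtain ⟨d₂, a', b', c', w, e'⟩ := decide_bit_big hA h.1 (hL _ h.1) a h.2
    refine ⟨d₂, a', b'.trans b, ?_, Function.update v i w, (e.mono b').and e' fun x f g j hj => ?_⟩
    · rw [Finset.card_insert_of_notMem hi, pow_succ, mul_assoc]
      exact c.trans (by gcongr)
    · rcases Finset.mem_insert.1 hj with rfl | hj
      · simpa using g
      · rw [Function.update_of_ne (ne_of_mem_of_not_mem hj hi)]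
        exact f j hj

theorem exists_br (hA : IsLowerSet A) (hL : ∀ τ ∈ A, L1 (lo τ)) (hd : Mem A d) (h : Le d p)
    {F : Finset Θ} (hF : ↑F ⊆ p.T) (n : ℕ) :
    ∃ σ d', Mem A d' ∧ Le d' d ∧ Le d' (br p F n σ) ∧
      pr d.b ≤ 4 ^ (F.card * (F.card * (n + 1))) * pr d'.b := by
  let d₂ := setrows d (fun τ x _ => bnd (p.L τ x).e (d.L τ x).e n) (fun _ _ _ => false)
    fun τ _ => meas_bnd (p.hL τ).e (d.hL τ).e measurable_const
  let g : Θ × Θ × ℕ → X → Bool := fun z x =>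
    decide (∃ m, (p.L z.1 x).e m = z.2.2 ∧ (d₂.L z.1 x).g z.2.1 m = 1)
  have hg : ∀ z, Measurable[gen (mK (lo z.1))] (g z) := fun z => meas_decide (meas_ex fun m =>
    meas_and (meas_eq ((p.hL _).e m) measurable_const) (meas_eq ((d₂.hL _).g _ m) measurable_const))
  obtain ⟨d₃, a, b, c, v, e⟩ := decide_bits_big hA hL (d := d₂) (hd.setrows _ _ _)
    (F ×ˢ F ×ˢ Finset.range (n + 1)) Prod.fst (g := g)
    fun z hz => ⟨hd.T (h.T (hF (Finset.mem_product.1 hz).1)), hg z⟩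
  have b' : Le d₃ d := b.trans (setrows_le _ _ _ _)
  refine ⟨fun τ β j => v (τ, β, j), d₃, a, b',
    le_def.2 ⟨(b'.trans h).b, (b'.trans h).T, fun τ hτ => ?_⟩, by simpa [d₂, setrows] using c⟩
  by_cases h₁ : τ ∈ F
  · have h₂ : Force (lo τ) (res (lo τ) d₃)
        {x | ∀ β ∈ (F : Set Θ), ∀ j, j ≤ n → g (τ, β, j) x = v (τ, β, j)} :=
      Force.down (e.mono_set fun x hx β hβ j hj => hx _ (by simpa [h₁, Nat.lt_succ_iff, hj]))
        (lo_lower τ) (lo_sub hA (hd.T (h.T hτ))) (meas_set (meas_ball F.countable_toSet fun β _ =>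
          meas_all fun j => meas_imp measurable_const (meas_beq (hg (τ, β, j)) _))) a
    refine (h₂.inter ((h.L hτ).mono (b'.res (lo_lower τ)))).and (b.L (h.T hτ))
      fun x ⟨f₁, f₂⟩ f₃ β hβ => Ref.trans ?_ (f₃ β (h.T hβ))
    have h₃ : Ref ((p.L τ x).g β) ((d₂.L τ x).g β) := (f₂ β hβ).trans
      (ref_setr (d.L τ x) (fun _ => bnd (p.L τ x).e (d.L τ x).e n) (fun _ _ => false) β)
    simp only [br, if_pos h₁]
    refine ref_setr_of h₃ fun m k₁ k₂ => ?_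
    split_ifs at k₂ with k₃
    · have k₄ : (d₂.L τ x).g β m ≤ 1 :=
        g_le_one.2 ((le_bnd (f₂ τ hτ).ac k₂).trans (le_max_right _ _))
      rw [← f₁ β k₃ _ k₂]
      rcases Nat.le_one_iff_eq_zero_or_eq_one.1 k₄ with k₅ | k₅
      · have : ¬ ∃ m', (p.L τ x).e m' = (p.L τ x).e m ∧ (d₂.L τ x).g β m' = 1 := by
          rintro ⟨m', k₆, k₇⟩
          have := h₃.cls k₁ k₆.symm
          omega
        simp only [g, k₅, this, decide_false, Bool.toNat_false]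
      · have : ∃ m', (p.L τ x).e m' = (p.L τ x).e m ∧ (d₂.L τ x).g β m' = 1 := ⟨m, rfl, k₅⟩
        simp only [g, k₅, this, decide_true, Bool.toNat_true]
    · omega
  · simpa [br, h₁] using (b'.trans h).L hτ

theorem exists_round (hA : IsLowerSet A) {R : Sys} {F : Finset Θ} {n : ℕ} (hR : Good A R F n)
    (hp : ∀ f, Le (R.ver f) p) {Ψ : Pre → Prop} (mono : ∀ q q', Mem A q' → Le q' q → Ψ q → Ψ q')
    {δ : ℝ≥0∞} (step : ∀ q, Mem A q → Le q p → ∃ t, Mem A t ∧ Le t q ∧ pr (q.b \ t.b) ≤ δ ∧ Ψ t)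
    (U : Finset ((Θ → Bool) × (Θ → Θ → ℕ → Bool))) :
    ∃ R', Good A R' F n ∧ Step F n R R' ∧ pr (R.b \ R'.b) ≤ U.card * δ ∧
      ∀ u ∈ U, Ψ (br (R'.ver u.1) F n u.2) := by
  induction U using Finset.induction_on with
  | empty => exact ⟨R, hR, .refl _ _ _, by simp, by simp⟩
  | insert u U hu ih =>
    obtain ⟨R₁, a₁, b₁, c₁, e₁⟩ := ih
    obtain ⟨t, a, b, c, e⟩ := step (br (R₁.ver u.1) F n u.2) ((a₁.mem _).br _ _ _)
      ((br_le _ _ _ _).trans ((b₁.le_ver _).trans (hp _)))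
    obtain ⟨R₂, a₂, b₂, c₂, e₂⟩ := exists_update a₁ hA b a
    obtain ⟨R₃, a₃, b₃, c₃⟩ := exists_shrink a₂ a.fs
      (((c₂ ▸ b.b : Sub0 t.b R₂.b).inter (.refl _)).ne_zero a.pos)
    refine ⟨R₃, a₃, b₁.trans (b₂.trans b₃), ?_, fun w hw => ?_⟩
    · rw [Finset.card_insert_of_notMem hu, Nat.cast_succ, add_mul, one_mul, c₃, c₂]
      refine le_trans (measure_mono ?_) ((measure_union_le _ _).trans (add_le_add c₁ c))
      intro x hx
      by_cases h : x ∈ R₁.b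
      exacts [Or.inr ⟨h, fun h' => hx.2 ⟨h, h'⟩⟩, Or.inl ⟨hx.1, h⟩]
    · have h := (a₃.mem w.1).br F n w.2
      rcases Finset.mem_insert.1 hw with rfl | hw
      · refine mono _ _ h (e₂ _ h (b₃.br_le a₂ subset_rfl le_rfl (fun _ _ => rfl)
          fun _ _ _ _ _ _ => rfl) (.of_sub ?_)) e
        exact (c₃ ▸ inter_subset_right : R₃.b ⊆ t.b)
      · exact mono _ _ h ((b₂.trans b₃).br_le a₁ subset_rfl le_rfl (fun _ _ => rfl)
          fun _ _ _ _ _ _ => rfl) (e₁ w hw)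

theorem exists_U (F : Finset Θ) (n : ℕ) : ∃ U : Finset ((Θ → Bool) × (Θ → Θ → ℕ → Bool)),
    U.card ≤ 4 ^ F.card * 4 ^ (F.card * (F.card * (n + 1))) ∧
      ∀ (f : Θ → Bool) (σ : Θ → Θ → ℕ → Bool), ∃ u ∈ U, (∀ τ ∈ F, u.1 τ = f τ) ∧
        ∀ τ ∈ F, ∀ β ∈ F, ∀ j ≤ n, σ τ β j = u.2 τ β j := by
  let I := F ×ˢ F ×ˢ Finset.range (n + 1)
  refine ⟨(F.powerset ×ˢ I.powerset).image fun S =>
    (fun τ => decide (τ ∈ S.1), fun τ β j => decide ((τ, β, j) ∈ S.2)),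
    Finset.card_image_le.trans ?_, fun f σ => ⟨_, Finset.mem_image_of_mem _
      (a := (F.filter fun τ => f τ = true, I.filter fun z => σ z.1 z.2.1 z.2.2 = true))
      (by simp), fun τ hτ => by simp [hτ], fun τ hτ β hβ j hj => ?_⟩⟩
  · simp only [Finset.card_product, Finset.card_powerset, I, Finset.card_range]
    gcongr <;> norm_num
  · simp [I, hτ, hβ, hj]

theorem le_KK {c k : ℕ} (h : c ≤ k + 1) : 4 ^ c * 4 ^ (c * (c * (k + 2 + 1))) ≤ KK k := by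
  rw [← pow_add]
  refine Nat.pow_le_pow_right (by norm_num) ?_
  calc c + c * (c * (k + 2 + 1)) ≤ (k + 1) + (k + 1) * ((k + 1) * (k + 2 + 1)) := by gcongr
    _ ≤ (k + 3) ^ 3 := by nlinarith [Nat.zero_le (k ^ 2), Nat.zero_le k]

theorem fuse (hA : IsLowerSet A) (hL : ∀ τ ∈ A, L1 (lo τ)) (hp : Mem A p) (Ψ : ℕ → Pre → Prop)
    (mono : ∀ i q q', Mem A q' → Le q' q → Ψ i q → Ψ i q') (δ : ℕ → ℝ≥0∞)
    (step : ∀ i q, Mem A q → Le q p → ∃ t, Mem A t ∧ Le t q ∧ pr (q.b \ t.b) ≤ δ i ∧ Ψ i t)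
    (hδ : ∑' i, KK i * δ i < pr p.b) :
    ∃ r, Mem A r ∧ Le r p ∧ pr (p.b \ r.b) ≤ ∑' i, KK i * δ i ∧ ∃ B : ℕ → Finset Pre,
      (∀ i, (B i).card ≤ KK i) ∧ (∀ i, ∀ q ∈ B i, Mem A q ∧ Le q p ∧ Ψ i q ∧ r.b ⊆ q.b) ∧
      (∀ i, ∀ q ∈ B (i + 1), ∃ q' ∈ B i, Le q q') ∧ ∀ d, Mem A d → Le d r → ∀ i, ∃ q ∈ B i,
        ∃ d', Mem A d' ∧ Le d' d ∧ Le d' q ∧ pr d.b ≤ KK i * pr d'.b := by
  choose U hU₁ hU₂ using exists_U
  obtain ⟨R, F, h₀, hF₀, hI, hR, hF, hT⟩ := book Sys.T Sys.hT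
    (fun k R F => Good A R F (k + 1) ∧ (∀ f, Le (R.ver f) p) ∧ F.card ≤ k ∧
      ∀ τ ∈ F, ∀ f x, ∀ m < k, (R.L f τ x).e m ≤ k + 1)
    (fun k R F R' F' => Step F (k + 1) R R' ∧ pr (R.b \ R'.b) ≤ KK k * δ k ∧
      ∀ u ∈ U F' (k + 2), Ψ k (br (R'.ver u.1) F' (k + 2) u.2)) (by
      rintro k R F F' ⟨h₁, h₂, -, -⟩ h₃ h₄ h₅
      obtain ⟨R₁, a₁, b₁, c₁, e₁⟩ := exists_squash h₁ h₃ h₄ (k + 1)
      obtain ⟨R₂, a₂, b₂, c₂, e₂⟩ := exists_round hA a₁ (fun f => (b₁.le_ver f).trans (h₂ f))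
        (mono k) (step k) (U F' (k + 2))
      have b := b₁.trans (b₂.mono h₃ (Nat.le_succ _))
      refine ⟨R₂, ⟨b, ?_, e₂⟩, ⟨a₂, fun f => (b.le_ver f).trans (h₂ f), h₅, fun τ hτ f x m hm => ?_⟩,
        b.T⟩
      · rw [← c₁]
        refine c₂.trans ?_
        gcongr
        exact (hU₁ _ _).trans (le_KK h₅)
      · have := e₁ τ hτ f x m hm
        rw [b₂.keep τ hτ f x m (by omega)]
        omega)
    (constSys p) ⟨good_const hp _, fun _ => .refl _, by simp, by simp⟩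
  have hb : pr (p.b \ ⋂ i, (R i).b) ≤ ∑' i, KK i * δ i := by
    refine le_trans (measure_mono (t := ⋃ i, (R i).b \ (R (i + 1)).b) ?_)
      ((measure_iUnion_le _).trans (ENNReal.tsum_le_tsum fun i => (hR i).2.1))
    rintro x ⟨h₁, h₂⟩
    by_contra h₃
    refine h₂ (mem_iInter.2 fun i => ?_)
    induction i with
    | zero => rw [h₀]; exact h₁
    | succ i ih =>
      by_contra h₄
      exact h₃ (mem_iUnion.2 ⟨i, ih, h₄⟩)
  obtain ⟨r, a, b, ch, mch, key⟩ := exists_limit R F (fun i => (hI i).1) (fun i => (hR i).1) hF hT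
    (fun i => (hI i).2.2.2) (fun e => by
      refine (hδ.trans_le ?_).not_ge hb
      exact (measure_le_inter_add_sdiff pr p.b (⋂ i, (R i).b)).trans
        (by rw [measure_mono_null inter_subset_right e, zero_add]))
  have key' : ∀ i f d, Mem A d → Le d r → Force A d {x | ∀ τ ∈ F i, ch τ x = f τ} →
      Le d ((R i).ver f) := fun i f d h₁ h₂ h₃ =>
    (key i f A d hA h₁ (h₂.trans (le_res _ _)) (h₃.mono_set fun x hx τ h _ => hx τ h)).trans
      ((Le.refl _).res_le hA ((hI i).1.mem f))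
  refine ⟨r, a, (key' 0 (fun _ => true) r a (.refl _) (force_of_forall (by simp [hF₀]))).trans
    ((hI 0).2.1 _), b ▸ hb, fun i => (U (F (i + 1)) (i + 2)).image fun u =>
      br ((R (i + 1)).ver u.1) (F (i + 1)) (i + 2) u.2, fun i => Finset.card_image_le.trans
      ((hU₁ _ _).trans (le_KK (hI _).2.2.1)), fun i q hq => ?_, fun i q hq => ?_,
    fun d h₁ h₂ i => ?_⟩
  · obtain ⟨u, hu, rfl⟩ := Finset.mem_image.1 hq
    exact ⟨((hI _).1.mem _).br _ _ _, (br_le _ _ _ _).trans ((hI _).2.1 _), (hR i).2.2 u hu,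
      b ▸ iInter_subset (fun i => (R i).b) (i + 1)⟩
  · obtain ⟨u, -, rfl⟩ := Finset.mem_image.1 hq
    obtain ⟨u', h₁, h₂, h₃⟩ := hU₂ (F (i + 1)) (i + 2) u.1 u.2
    exact ⟨_, Finset.mem_image_of_mem _ h₁,
      (hR (i + 1)).1.br_le (hI _).1 (hF (Nat.le_succ _)) (Nat.le_succ _) h₂ h₃⟩
  · obtain ⟨d₁, a₁, b₁, c₁, f, e₁⟩ := decide_bits_big hA hL h₁ (F (i + 1)) id (g := ch)
      fun τ hτ => ⟨((hI _).1.mem fun _ => true).T ((hI _).1.sub hτ), mch τ⟩
    obtain ⟨σ, d₂, a₂, b₂, c₂, e₂⟩ := exists_br hA hL a₁ (key' _ f d₁ a₁ (b₁.trans h₂) e₁)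
      (hI (i + 1)).1.sub (i + 2)
    obtain ⟨u, h₃, h₄, h₅⟩ := hU₂ (F (i + 1)) (i + 2) f σ
    refine ⟨_, Finset.mem_image_of_mem _ h₃, d₂, a₂, b₂.trans b₁,
      c₂.trans ((Step.refl _ _ _).br_le (hI _).1 subset_rfl le_rfl h₄ h₅), c₁.trans ?_⟩
    refine (mul_le_mul_right e₂ _).trans ?_
    rw [← mul_assoc]
    gcongr
    exact_mod_cast le_KK (hI (i + 1)).2.2.1

end Pool.Agent.MP_9c82b4_lc

end

section

namespace Pool.Agent.MP_9c82b4_lc

open Set Classical MeasureTheory Filter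
open scoped ENNReal

variable {A : Set Θ} {D : Set Pre} {p q d : Pre}

def Opt (A : Set Θ) (D : Set Pre) (ε : ℝ≥0∞) (q : Pre) (a : Set X) : Prop :=
  FS A a ∧ Cov A D q a ∧ ∀ t, Mem A t → Le t q → Cov A D t t.b → pr (t.b \ a) ≤ ε

theorem exists_opt (hA : IsLowerSet A) (hq : Mem A q) (hD : DB A D q) {ε : ℝ≥0∞} (hε : ε ≠ 0) :
    ∃ q', Mem A q' ∧ Le q' q ∧ q'.b = q.b ∧ ∃ t, Mem A t ∧ Le t q ∧ Cov A D t t.b ∧
      Opt A D ε q' t.b := by
  obtain ⟨t, ⟨a, b, c⟩, e⟩ : ∃ t, (Mem A t ∧ Le t q ∧ Cov A D t t.b) ∧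
      ∀ t', Mem A t' → Le t' q → Cov A D t' t'.b → pr t'.b ≤ pr t.b + ε := by
    by_contra hn
    push Not at hn
    have : ∀ k : ℕ, ∃ t, (Mem A t ∧ Le t q ∧ Cov A D t t.b) ∧ k * ε ≤ pr t.b := by
      intro k
      induction k with
      | zero =>
        obtain ⟨d, a, b, c⟩ := hD q hq (.refl _)
        exact ⟨d, ⟨a, b, cov_of_le c (.refl _) _⟩, by simp⟩
      | succ k ih =>
        obtain ⟨t, a, b⟩ := ih
        obtain ⟨t', a', b', c', e⟩ := hn t a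
        refine ⟨t', ⟨a', b', c'⟩, le_trans ?_ e.le⟩
        rw [Nat.cast_succ, add_mul, one_mul]
        gcongr
    obtain ⟨k, hk⟩ := ENNReal.exists_nat_mul_gt hε ENNReal.one_ne_top
    obtain ⟨t, -, h⟩ := this k
    exact (hk.trans_le h).not_ge prob_le_one
  obtain ⟨q', a', b', c', e'⟩ := exists_lift hA hq a b
  have h₁ := c.lift a.fs e'
  refine ⟨q', a', b', c', t, a, b, c, a.fs, h₁, fun t' a₁ b₁ c₁ => ?_⟩
  obtain ⟨q'', a'', b'', c'', e''⟩ := exists_lift hA a' a₁ b₁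
  have h₂ : Sub0 (t.b ∪ t'.b) (q''.b ∩ (t.b ∪ t'.b)) := by
    rw [c'']
    filter_upwards [b.b, b₁.b] with x f g h using ⟨h.elim (c' ▸ f) g, h⟩
  have h₃ := e (shrink q'' (t.b ∪ t'.b))
    (a''.shrink (a.fs.union a₁.fs) (((Sub0.of_sub subset_union_left).trans h₂).ne_zero a.pos))
    ((shrink_le _ _).trans (b''.trans b'))
    (((h₁.mono b'' (.refl _)).union (c₁.lift a₁.fs e'')).mono (shrink_le _ _) (shrink_sub _ _))
  replace h₃ := h₂.le.trans h₃
  rw [← measure_add_sdiff a.fs.meas.nullMeasurableSet] at h₃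
  exact (ENNReal.add_le_add_iff_left (measure_ne_top _ _)).1 h₃

theorem exists_eps {η : ℝ≥0∞} (h : η ≠ 0) :
    ∃ ε : ℕ → ℝ≥0∞, (∀ i, ε i ≠ 0) ∧ ∑' i, KK i * ε i < η := by
  obtain ⟨ε, h₁, h₂⟩ := ENNReal.exists_pos_sum_of_countable' h ℕ
  refine ⟨fun i => ε i / KK i, fun i => by simp [(h₁ i).ne'], lt_of_le_of_lt ?_ h₂⟩
  exact ENNReal.tsum_le_tsum fun i => ENNReal.mul_div_le

theorem L1_step (hA : IsLowerSet A) (hL : ∀ τ ∈ A, L1 (lo τ)) : L1 A := by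
  intro D p hp hD δ hδ
  by_contra hn
  push Not at hn
  obtain ⟨ε, hε, hs⟩ := exists_eps hδ
  obtain ⟨p', a₀, b₀, c₀, t₀, a₁, b₁, c₁, e₁⟩ := exists_opt hA hp hD (hε 0)
  have h₀ : δ < pr (p.b \ t₀.b) := lt_of_not_ge fun h => hn t₀ a₁ b₁ h c₁
  obtain ⟨r, a, b, c, B, hB₁, hB₂, hB₃, hB₄⟩ := fuse hA hL a₀
    (fun i q => ∃ a, Opt A D (ε (i + 1)) q a)
    (fun i q q' _ h ⟨a, h₁, h₂, h₃⟩ => ⟨a, h₁, h₂.mono h (.refl _),
      fun t h₄ h₅ => h₃ t h₄ (h₅.trans h)⟩) (fun _ => 0) (fun i q h₁ h₂ => by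
      obtain ⟨q', h₃, h₄, h₅, t, -, -, -, h₆⟩ := exists_opt hA h₁
        (fun d e f => hD d e (f.trans (h₂.trans b₀))) (hε (i + 1))
      exact ⟨q', h₃, h₄, by simp [h₅], _, h₆⟩) (by simpa using pos_iff_ne_zero.2 a₀.pos)
  let B' : ℕ → Finset Pre := fun i => Nat.casesOn i {p'} B
  have h₁ : ∀ i, ∀ q ∈ B' i, ∃ a, Opt A D (ε i) q a ∧ (i = 0 → a = t₀.b) := by
    rintro (_ | i) q hq
    · obtain rfl := Finset.mem_singleton.1 hq
      exact ⟨_, e₁, fun _ => rfl⟩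
    · obtain ⟨a, h⟩ := (hB₂ i q hq).2.2.1
      exact ⟨a, h, by simp⟩
  choose! s hs₁ hs₂ using h₁
  let W : ℕ → Set X := fun i => ⋃ q ∈ B' i, s i q
  have hW : FS A (⋃ i, W i) := MeasurableSet.iUnion fun i =>
    Finset.measurableSet_biUnion _ fun q hq => (hs₁ i q hq).1
  have h₂ : ∀ i, pr ((r.b ∩ W (i + 1)) \ W i) ≤ KK i * ε i := by
    intro i
    have h₃ : ∀ q ∈ B i, pr ((r.b ∩ s (i + 1) q) \ W i) ≤ ε i := by
      intro q hq
      obtain ⟨q', h₄, h₅⟩ : ∃ q' ∈ B' i, Le q q' := by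
        rcases i with _ | i
        exacts [⟨p', Finset.mem_singleton_self _, (hB₂ 0 q hq).2.1⟩, hB₃ i q hq]
      by_cases h₆ : pr (q.b ∩ s (i + 1) q) = 0
      · refine (measure_mono_null ?_ h₆).trans_le zero_le
        exact fun x hx => ⟨(hB₂ i q hq).2.2.2 hx.1.1, hx.1.2⟩
      · refine le_trans (measure_mono ?_) ((hs₁ i q' h₄).2.2 (shrink q (s (i + 1) q))
          ((hB₂ i q hq).1.shrink (hs₁ (i + 1) q hq).1 h₆) ((shrink_le _ _).trans h₅)
          ((hs₁ (i + 1) q hq).2.1.mono (shrink_le _ _) (shrink_sub _ _)))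
        exact fun x hx => ⟨⟨(hB₂ i q hq).2.2.2 hx.1.1, hx.1.2⟩,
          fun h => hx.2 (mem_biUnion h₄ h)⟩
    calc pr ((r.b ∩ W (i + 1)) \ W i) ≤ pr (⋃ q ∈ B i, (r.b ∩ s (i + 1) q) \ W i) := by
          refine measure_mono fun x ⟨⟨h₄, h₅⟩, h₆⟩ => ?_
          obtain ⟨q, h₇, h₈⟩ := mem_iUnion₂.1 h₅
          exact mem_iUnion₂.2 ⟨q, h₇, ⟨h₄, h₈⟩, h₆⟩
      _ ≤ ∑ q ∈ B i, ε i := (measure_biUnion_finset_le _ _).trans (Finset.sum_le_sum h₃)
      _ ≤ KK i * ε i := by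
          rw [Finset.sum_const, nsmul_eq_mul]
          gcongr
          exact hB₁ i
  have h₃ : pr (r.b ∩ (⋃ i, W i)ᶜ) ≠ 0 := by
    intro e
    refine (hs.trans h₀).not_ge (le_trans (Sub0.le (b := ⋃ i, (r.b ∩ W (i + 1)) \ W i) ?_)
      ((measure_iUnion_le _).trans (ENNReal.tsum_le_tsum h₂)))
    rw [← sub0_compl, compl_compl] at e
    have h₄ : Sub0 p.b r.b := sub0_iff.2 (by simpa [c₀] using c)
    filter_upwards [e, h₄] with x f g hx
    by_contra h₅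
    obtain ⟨i, hi⟩ := mem_iUnion.1 (f (g hx.1))
    induction i with
    | zero =>
      obtain ⟨q, h₆, h₇⟩ := mem_iUnion₂.1 hi
      exact hx.2 (hs₂ 0 q h₆ rfl ▸ h₇)
    | succ i ih =>
      by_cases h₆ : x ∈ W i
      exacts [ih h₆, h₅ (mem_iUnion.2 ⟨i, ⟨g hx.1, hi⟩, h₆⟩)]
  obtain ⟨d, a₂, b₂, c₂⟩ := hD _ (a.shrink hW.compl h₃) ((shrink_le _ _).trans (b.trans b₀))
  have h₄ : ∀ i, pr d.b ≤ KK (i + 1) * ε (i + 1) := by
    intro i
    obtain ⟨q, h₅, d', h₆, h₇, h₈, h₉⟩ := hB₄ d a₂ (b₂.trans (shrink_le _ _)) i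
    refine h₉.trans (mul_le_mul' (Nat.cast_le.2 (KK_mono (Nat.le_succ i))) (le_trans (Sub0.le ?_)
      ((hs₁ (i + 1) q h₅).2.2 d' h₆ h₈ (cov_of_le c₂ h₇ _))))
    filter_upwards [(h₇.trans b₂).b] with x f hx
    exact ⟨hx, fun h => (f hx).2 (mem_iUnion.2 ⟨i + 1, mem_biUnion h₅ h⟩)⟩
  have h₅ := (ENNReal.tendsto_atTop_zero_of_tsum_ne_top hs.ne_top).comp (tendsto_add_atTop_nat 1)
  exact a₂.pos (le_antisymm (ge_of_tendsto' h₅ h₄) zero_le)

theorem L1_Iio (ν : Θ) : L1 (Iio ν) := by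
  induction ν using WellFoundedLT.induction with
  | ind ν ih => exact L1_step (isLowerSet_Iio ν) fun τ hτ => ih _ ((mu_le τ).trans_lt hτ)

theorem fuse_cov (hA : IsLowerSet A) (hp : Mem A p) (D : ℕ → Set Pre) (hD : ∀ i, DB A (D i) p)
    {η : ℝ≥0∞} (hη : η ≠ 0) :
    ∃ r, Mem A r ∧ Le r p ∧ pr (p.b \ r.b) < η ∧ ∃ B : ℕ → Finset Pre,
      (∀ i, (B i).card ≤ KK i) ∧ (∀ i, ∀ q ∈ B i, Cov A (D i) q q.b) ∧
      ∀ d, Mem A d → Le d r → ∀ i, ∃ q ∈ B i, ∃ d', Mem A d' ∧ Le d' d ∧ Le d' q := by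
  obtain ⟨δ, h₁, h₂⟩ := exists_eps (η := min η (pr p.b)) (by simp [hη, hp.pos])
  obtain ⟨r, a, b, c, B, hB₁, hB₂, -, hB₄⟩ := fuse hA (fun τ _ => L1_Iio _) hp
    (fun i q => Cov A (D i) q q.b) (fun i q q' _ h c => c.mono h h.b) δ
    (fun i q a b => L1_step hA (fun τ _ => L1_Iio _) _ q a
      (fun d e f => hD i d e (f.trans b)) _ (h₁ i)) (h₂.trans_le (min_le_right _ _))
  refine ⟨r, a, b, c.trans_lt (h₂.trans_le (min_le_left _ _)), B, hB₁,
    fun i q hq => (hB₂ i q hq).2.2.1, fun d e f i => ?_⟩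
  obtain ⟨q, h₃, d', h₄, h₅, h₆, -⟩ := hB₄ d e f i
  exact ⟨q, h₃, d', h₄, h₅, h₆⟩

/-- The forcing is proper and bounding. -/
theorem bounding (hA : IsLowerSet A) (hp : Mem A p) (D : ℕ → Set Pre) (hD : ∀ i, DB A (D i) p) :
    ∃ r, Mem A r ∧ Le r p ∧ ∀ i, ∃ V ⊆ D i, V.Finite ∧
      ∀ d, Mem A d → Le d r → ∃ d', Mem A d' ∧ Le d' d ∧ ∃ c ∈ V, Le d' c := by
  obtain ⟨r, a, b, -, B, -, h₁, h₂⟩ := fuse_cov hA hp D hD one_ne_zero
  refine ⟨r, a, b, fun i => ?_⟩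
  choose! l h₃ h₄ using h₁ i
  refine ⟨⋃ q ∈ B i, Prod.snd '' {z | z ∈ l q}, ?_,
    (B i).finite_toSet.biUnion fun q _ => (List.finite_toSet _).image _, fun d e f => ?_⟩
  · simp only [iUnion_subset_iff]
    rintro q hq _ ⟨z, hz, rfl⟩
    exact (h₃ q hq z hz).2.1
  · obtain ⟨q, hq, d', h₅, h₆, h₇⟩ := h₂ d e f i
    obtain ⟨z, hz, -, h₈⟩ := exists_piece_list (Q := fun _ => True) (l := l q) h₅.pos
      (by simpa using h₇.b.trans (h₄ q hq))
    have h₉ := h₅.shrink (h₃ q hq z hz).1 h₈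
    exact ⟨_, h₉, (shrink_le _ _).trans h₆, z.2, mem_biUnion hq ⟨z, hz, rfl⟩,
      (h₃ q hq z hz).2.2 _ h₉ ((shrink_le _ _).trans h₇) (shrink_sub _ _)⟩

/-! ### Avoiding slaloms -/

def Bad (κ : Ξ) (val : Pre → Finset ℕ) : List (Set X × Pre) → Set X
  | [] => ∅
  | z :: l => (z.1 ∩ {x | x κ ∈ (val z.2 : Set ℕ)}) ∪ (z.1ᶜ ∩ Bad κ val l)

theorem fs_bad {ζ : Θ} (hζ : ζ ∈ A) (n : ℕ) (val : Pre → Finset ℕ) {l : List (Set X × Pre)}
    (h : ∀ z ∈ l, FS A z.1) : FS A (Bad (.R ζ n) val l) := by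
  induction l with
  | nil => exact @MeasurableSet.empty _ (gen _)
  | cons z l ih =>
    have h₁ := h z List.mem_cons_self
    exact (h₁.inter (gen_eval (K := fK A) ⟨ζ, hζ, n, rfl⟩ MeasurableSet.of_discrete)).union
      (h₁.compl.inter (ih fun z hz => h z (List.mem_cons_of_mem _ hz)))

theorem bad_le {ζ : Θ} (n : ℕ) {val : Pre → Finset ℕ} {H : ℕ} {l : List (Set X × Pre)}
    (h : ∀ z ∈ l, FS (Iio ζ) z.1 ∧ (val z.2).card ≤ H) :
    ∀ E, FS (Iio ζ) E → pr (E ∩ Bad (.R ζ n) val l) ≤ pr E * (H / bb n) := by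
  induction l with
  | nil => simp [Bad]
  | cons z l ih =>
    intro E hE
    obtain ⟨h₁, h₂⟩ := h z List.mem_cons_self
    have h₃ := ih (fun z hz => h z (List.mem_cons_of_mem _ hz)) _ (hE.inter h₁.compl)
    have h₄ : pr (E ∩ z.1 ∩ {x | x (.R ζ n) ∈ (val z.2 : Set ℕ)}) ≤ pr (E ∩ z.1) * (H / bb n) := by
      rw [pr_indep (K := fK (Iio ζ)) (by simp [fK]) (hE.inter h₁)]
      gcongr
      refine (nu_le _ _).trans ?_
      gcongr
      exact le_rfl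
    rw [Bad, inter_union_distrib_left, ← inter_assoc, ← inter_assoc,
      ← measure_inter_add_sdiff E h₁.meas, add_mul]
    exact (measure_union_le _ _).trans (add_le_add h₄ h₃)

theorem not_bad {κ : Ξ} {val : Pre → Finset ℕ} {l : List (Set X × Pre)} {x : X}
    (h₁ : ∃ z ∈ l, x ∈ z.1) (h₂ : x ∉ Bad κ val l) : ∃ z ∈ l, x κ ∉ val z.2 ∧ x ∈ z.1 := by
  induction l with
  | nil => simp at h₁
  | cons z l ih =>
    by_cases h : x ∈ z.1
    · exact ⟨z, List.mem_cons_self, fun h' => h₂ (Or.inl ⟨h, h'⟩), h⟩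
    · obtain ⟨z', a, b⟩ := ih (by simpa [h] using h₁) fun h' => h₂ (Or.inr ⟨h, h'⟩)
      exact ⟨z', List.mem_cons_of_mem _ a, b⟩

theorem avoid (hA : IsLowerSet A) {ζ : Θ} (hζ : ζ ∈ A) (hd : Mem A d)
    (E : ℕ → Finset ℕ → Pre → Prop)
    (hE : ∀ n q, Mem (Iio ζ) q → Le q (res (Iio ζ) d) →
      ∃ c, Mem (Iio ζ) c ∧ Le c q ∧ ∃ v, v.card ≤ (n + 1) ^ 2 ∧ E n v c) :
    ∃ r, Mem A r ∧ Le r d ∧ ∃ n₁, ∀ n, n₁ ≤ n → ∀ d', Mem univ d' → Le d' r →
      ∃ d'', Mem univ d'' ∧ Le d'' d' ∧ ∃ w < bb n, Sub0 d''.b (cyl (.R ζ n) w) ∧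
        ∃ v c, E n v c ∧ Le d'' c ∧ w ∉ v := by
  have hI := isLowerSet_Iio ζ
  have hsub : Iio ζ ⊆ A := fun x hx => hA hx.le hζ
  obtain ⟨r, a, b, c, B, h₁, h₂, h₃⟩ := fuse_cov hI (hd.res hI)
    (fun n => {c | ∃ v : Finset ℕ, v.card ≤ (n + 1) ^ 2 ∧ E n v c}) hE (pos_iff_ne_zero.2 hd.pos).ne'
  choose! l h₄ h₅ using h₂
  have h₆ : ∀ n c, ∃ v : Finset ℕ, (∃ v : Finset ℕ, v.card ≤ (n + 1) ^ 2 ∧ E n v c) →
      v.card ≤ (n + 1) ^ 2 ∧ E n v c := fun n c => by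
    by_cases h : ∃ v : Finset ℕ, v.card ≤ (n + 1) ^ 2 ∧ E n v c
    exacts [⟨h.choose, fun _ => h.choose_spec⟩, ⟨∅, fun h' => absurd h' h⟩]
  choose val hval using h₆
  let Z : ℕ → Set X := fun n => ⋃ q ∈ B n, Bad (.R ζ n) (val n) (l n q)
  have hZ : ∀ n, pr (Z n) ≤ 2⁻¹ ^ n := by
    intro n
    have h₇ : ∀ q ∈ B n, pr (Bad (.R ζ n) (val n) (l n q)) ≤ ((n + 1) ^ 2 : ℕ) / bb n := by
      intro q hq
      simpa using bad_le n (fun z hz => ⟨(h₄ n q hq z hz).1, (hval n _ (h₄ n q hq z hz).2.1).1⟩)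
        univ (FS.univ _)
    refine (measure_biUnion_finset_le _ _).trans ((Finset.sum_le_sum h₇).trans ?_)
    rw [Finset.sum_const, nsmul_eq_mul, ← mul_div_assoc]
    refine ENNReal.div_le_of_le_mul ?_
    calc ((B n).card : ℝ≥0∞) * ((n + 1) ^ 2 : ℕ) ≤ KK n * ((n + 1) ^ 2 : ℕ) := by
          gcongr; exact h₁ n
      _ = KK n * ((n + 1) ^ 2 : ℕ) * (2⁻¹ * 2) ^ n := by
          rw [ENNReal.inv_mul_cancel (by simp) (by simp), one_pow, mul_one]
      _ = 2⁻¹ ^ n * bb n := by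
          simp only [bb, Nat.cast_mul, Nat.cast_pow, Nat.cast_ofNat, mul_pow]
          ring
  have hm := mem_merge a hd hsub b
  obtain ⟨n₁, hn⟩ := ((ENNReal.tendsto_sum_nat_add (fun n => (2⁻¹ : ℝ≥0∞) ^ n)
    (by simp [ENNReal.tsum_geometric])).eventually
      (gt_mem_nhds (pos_iff_ne_zero.2 hm.pos))).exists
  have hfs : FS A (⋃ k, Z (k + n₁)) := MeasurableSet.iUnion fun k =>
    Finset.measurableSet_biUnion _ fun q hq => fs_bad hζ _ _ fun z hz => (h₄ _ q hq z hz).1.mono hsub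
  refine ⟨shrink (merge r d) (⋃ k, Z (k + n₁))ᶜ, hm.shrink hfs.compl fun e => ?_,
    (shrink_le _ _).trans (merge_le_right a.T b), n₁, fun n h₇ d' a₁ b₁ => ?_⟩
  · rw [← sub0_compl, compl_compl] at e
    exact hn.not_ge (e.le.trans ((measure_iUnion_le _).trans (ENNReal.tsum_le_tsum fun k => hZ _)))
  · obtain ⟨q, hq, d₁, a₂, b₂, c₂⟩ := h₃ _ (a₁.res hI)
      ((b₁.trans ((shrink_le _ _).trans (merge_le_left _ _))).res_le hI a) n
    obtain ⟨d₂, a₃, b₃, c₃⟩ := exists_merge a₂ a₁ (subset_univ _) b₂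
    obtain ⟨w, hw, d₃, a₄, b₄, c₄⟩ := exists_cyl (mem_univ ζ) n a₃
    obtain ⟨z, hz, k₁, k₂⟩ := exists_piece_list (Q := fun z => w ∉ val n z.2) (l := l n q) a₄.pos (by
      filter_upwards [c₄, (b₄.trans (b₃.trans c₂)).b.trans (h₅ n q hq),
        (b₄.trans (c₃.trans b₁)).b] with x f₁ f₂ f₃ hx
      rw [← show x (.R ζ n) = w from f₁ hx]
      refine not_bad (f₂ hx) fun h => (f₃ hx).2 (mem_iUnion.2 ⟨n - n₁, ?_⟩)
      rw [Nat.sub_add_cancel h₇]
      exact mem_biUnion hq h)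
    obtain ⟨k₃, k₄, k₅⟩ := h₄ n q hq z hz
    have k₆ := a₄.shrink (k₃.mono (subset_univ _)) k₂
    refine ⟨_, k₆, (shrink_le _ _).trans (b₄.trans c₃), w, hw, (shrink_le _ _).b.trans c₄,
      val n z.2, z.2, (hval n _ k₄).2, (le_res (Iio ζ) _).trans (k₅ _ (k₆.res hI)
        ((((shrink_le _ _).trans (b₄.trans b₃)).res_le hI a₂).trans c₂)
        ((proj_sub k₃).2 (shrink_sub _ _))), k₁⟩

end Pool.Agent.MP_9c82b4_lc

end

section

namespace Pool.Agent.MP_9c82b4_lc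

open Set Classical MeasureTheory

variable {A : Set Θ} {p q d : Pre}

theorem Mem.ct (h : Mem A p) : ∃ S ⊆ A, S.Countable ∧ ∀ B, S ⊆ B → Mem B p := by
  obtain ⟨S, h₁, h₂, h₃⟩ := h.fs.ct
  exact ⟨S ∪ p.T, union_subset h₁ h.T, h₂.union p.hT, fun B hB => mem_def.2
    ⟨h₃.mono (subset_union_left.trans hB), h.pos, subset_union_right.trans hB, fun _ => h.sm⟩⟩

theorem meas_ct {F : X → Set ℕ} (h : F ∈ Meas A) :
    ∃ S ⊆ A, S.Countable ∧ ∀ B, S ⊆ B → F ∈ Meas B := by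
  choose S h₁ h₂ h₃ using fun m => (h m).ct
  exact ⟨⋃ m, S m, iUnion_subset h₁, countable_iUnion h₂,
    fun B hB m => (h₃ m).mono ((subset_iUnion S m).trans hB)⟩

theorem Mem.level (h : Mem A p) : ∃ ν, Mem (Iio ν) p :=
  let ⟨_, _, h₂, h₃⟩ := h.ct
  let ⟨ν, hν⟩ := exists_ub_ct h₂
  ⟨ν, h₃ _ hν⟩

theorem meas_level {F : X → Set ℕ} (h : F ∈ Meas A) : ∃ ν, F ∈ Meas (Iio ν) :=
  let ⟨_, _, h₂, h₃⟩ := meas_ct h
  let ⟨ν, hν⟩ := exists_ub_ct h₂
  ⟨ν, h₃ _ hν⟩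

theorem nrm_g {ν τ β : Θ} (h₁ : τ < ν) (h₂ : β < ν) (p : Pre) (x : X) :
    ((nrm ν p).L τ x).g β = (p.L τ x).g β := by
  simp only [nrm, if_pos h₁, mix_g_mem _ _ (show β ∈ Iio ν from h₂)]

theorem nrm_le {ν : Θ} (h : p.T ⊆ Iio ν) : Le (nrm ν p) p :=
  le_of_pw (.refl _) subset_rfl fun _ h₁ _ _ h₂ => nrm_g (h h₁) (h h₂) p _ ▸ .refl _

theorem le_nrm {ν : Θ} (h : p.T ⊆ Iio ν) : Le p (nrm ν p) :=
  le_of_pw (.refl _) subset_rfl fun _ h₁ _ _ h₂ => nrm_g (h h₁) (h h₂) p _ ▸ .refl _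

theorem Mem.nrm {ν : Θ} (h : Mem (Iio ν) p) : Mem (Iio ν) (nrm ν p) :=
  mem_of_le h.fs h.pos h.T fun τ hτ => ⟨p, _, h, nrm_le h.T, hτ, fun x => by
    simp [Pool.Agent.MP_9c82b4_lc.nrm, show τ < ν from h.T hτ, mix]⟩

theorem Mem.nrm_mem {ν : Θ} (h : Mem (Iio ν) p) : Pool.Agent.MP_9c82b4_lc.nrm ν p ∈ Nrm ν :=
  ⟨⟨p, h.fs, h.T⟩, rfl⟩

theorem exists_closed {D : Set Pre} (hD : ∀ q, Mem univ q → ∃ d, Mem univ d ∧ Le d q ∧ d ∈ D) :
    ∃ ν, ∀ q, Mem (Iio ν) q → ∃ d, Mem (Iio ν) d ∧ Le d q ∧ d ∈ D := by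
  have h₁ : ∀ q, ∃ α, Mem univ q → ∃ d, Mem (Iio α) d ∧ Le d q ∧ d ∈ D := by
    intro q
    by_cases h : Mem univ q
    · obtain ⟨d, a, b⟩ := hD q h
      obtain ⟨α, c⟩ := a.level
      exact ⟨α, fun _ => ⟨d, c, b⟩⟩
    · exact ⟨0, fun h' => absurd h' h⟩
  choose lv hlv using h₁
  choose ρ hρ using fun α => exists_ub (lv '' Nrm α)
  obtain ⟨ν, h₂, h₃⟩ := closing ρ
  refine ⟨ν, fun q hq => ?_⟩
  obtain ⟨S, h₄, h₅, h₆⟩ := hq.ct
  obtain ⟨α, h₇, h₈⟩ := h₃ S h₅ h₄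
  have h₉ := h₆ _ h₈
  obtain ⟨d, a, b, c⟩ := hlv _ (h₉.nrm.mono (subset_univ _))
  exact ⟨d, a.mono (Iio_subset_Iio ((hρ α ⟨_, h₉.nrm_mem, rfl⟩).trans (h₂ α h₇)).le),
    b.trans (nrm_le h₉.T), c⟩

/-- Every open set of conditions is recorded by an oracle coordinate. -/
theorem exists_oracle {Y : Set Pre} (hY : ∀ c d, Mem univ d → Le d c → c ∈ Y → d ∈ Y) :
    ∃ ξ, (∀ d, Mem univ d → d ∈ Y → Force univ d (cyl (.O ξ) 1)) ∧
      ∀ d, (∀ r, Mem univ r → Le r d → r ∉ Y) → Force univ d (cyl (.O ξ) 0) := by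
  obtain ⟨ν, hν⟩ := exists_closed (D := {d | d ∈ Y ∨ ∀ r, Mem univ r → Le r d → r ∉ Y}) (by
    intro q hq
    by_cases h : ∀ r, Mem univ r → Le r q → r ∉ Y
    · exact ⟨q, hq, .refl _, Or.inr h⟩
    · push Not at h
      obtain ⟨r, a, b, c⟩ := h
      exact ⟨r, a, b, Or.inl c⟩)
  obtain ⟨ξ, h₁, h₂⟩ := exists_yes (Y := Y ∩ Nrm ν) inter_subset_right
  refine ⟨ξ, fun d _ hd => Force.reg fun d' a b => ?_, fun d h => force_zero fun r a b v hW => ?_⟩
  · obtain ⟨c, a₁, b₁, c₁⟩ := hν _ (a.res (isLowerSet_Iio ν))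
    obtain ⟨r, a₂, b₂, c₂⟩ := exists_merge a₁ a (subset_univ _) b₁
    have h₃ := c₁.resolve_right fun h => h r a₂ b₂ (hY d r a₂ (c₂.trans b) hd)
    refine ⟨r, a₂, c₂, (W_O.2 ⟨rfl, nrm ν c, h₂ ▸ ⟨hY c _ (a₁.nrm.mono (subset_univ _))
      (nrm_le a₁.T) h₃, a₁.nrm_mem⟩, a₁.nrm.mono (Iio_subset_Iio h₁),
      b₂.trans (le_nrm a₁.T)⟩).force (mem_univ _)⟩
  · obtain ⟨-, c, h₃, -, h₄⟩ := W_O.1 hW
    exact h r a b (hY c r a h₄ (h₂ ▸ h₃).1)

theorem meas_sel' {τ : Θ} {F : X → Set ℕ} (hF : F ∈ Meas (lo τ)) (m : ℕ) :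
    Measurable[gen (mK (lo τ))] fun x => m ∈ sel τ F x :=
  meas_iff (meas_of_set (hF m)) (meas_beq (meas_bit τ F) _)

theorem Sm.link {τ : Θ} {H : X → Set ℕ} (h : Sm τ (res (lo τ) p) H) (hH : H ∈ Meas (lo τ))
    (hd : Mem univ d) (hp : Le d p) :
    ∃ d', Mem univ d' ∧ Le d' d ∧ ∃ 𝓛 : Set (X → Set ℕ), 𝓛.Finite ∧ 𝓛 ⊆ Meas (lo τ) ∧ ∃ n,
      Force univ d' {x | ∀ m, n ≤ m → m ∈ H x → ¬ ∀ F ∈ 𝓛, m ∈ sel τ F x} := by
  obtain ⟨d₁, a₁, b₁, 𝓛, h₁, h₂, h₃⟩ := sm_def.1 h _ (hd.lo τ) (hp.res (lo_lower τ))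
  have h₄ : ∀ n, MS (lo τ) {x | ∀ m, n ≤ m → m ∈ H x → ¬ ∀ F ∈ 𝓛, m ∈ sel τ F x} := fun n =>
    meas_set (meas_all fun m => meas_imp measurable_const (meas_imp (meas_of_set (hH m))
      (meas_not (meas_ball h₁.countable fun F hF => meas_sel' (h₂ hF) m))))
  obtain ⟨d₂, a₂, b₂, n, h₅⟩ := decide_ex h₄ (h₃.mono_set fun x hx => by
    obtain ⟨n, hn⟩ := Finite.bddAbove hx
    exact ⟨n + 1, fun m a b c => (hn ⟨b, mem_iInter₂.2 c⟩).not_gt a⟩) a₁
  obtain ⟨r, a₃, b₃, c₃⟩ := exists_merge a₂ hd (subset_univ _) (b₂.trans b₁)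
  exact ⟨r, a₃, c₃, 𝓛, h₁, h₂, n, (h₅.up' (lo_lower τ) (subset_univ _) (h₄ n) a₂).mono b₃⟩

/-- Setting blocks of rows to a constant value outside a small set. -/
theorem tukey_ext (τ : Θ) (hp : Mem univ p) (V : ℕ → Finset Θ) (hV : Monotone V) (i : Bool) :
    ∃ r, Mem univ r ∧ Le r p ∧ ∃ H ∈ Meas (lo τ), Sm τ (res (lo τ) r) H ∧
      ∀ m d, Mem univ d → Le d r → ∃ d', Mem univ d' ∧ Le d' d ∧ (Force univ d' {x | m ∈ H x} ∨
        ∃ l, ∀ β ∈ V (l + 1), β ∉ V l → Force univ d' (cyl (.H τ β m) i.toNat)) := by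
  let q := grow p (insert τ (⋃ l, V l))
    ((countable_iUnion fun l => (V l).countable_toSet).insert τ)
  have hq : Mem univ q := hp.grow _ (subset_univ _)
  have hτ : τ ∈ q.T := Or.inr (mem_insert _ _)
  let j : ℕ → X → ℕ := fun l x => max l ((V (l + 1)).sup fun β => (q.L τ x).k β)
  have hj : ∀ l, Measurable[gen (mK (lo τ))] (j l) := fun l =>
    meas_max measurable_const (meas_sup _ (q.hL τ).k)
  have hjm : ∀ x l l', l ≤ l' → j l x ≤ j l' x := fun x l l' h =>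
    max_le_max h (Finset.sup_mono (hV (Nat.succ_le_succ h)))
  let r := setrows q (fun τ' x β => if τ' = τ then j (sInf {l | β ∈ V (l + 1)} + 1) x else 0)
    (fun _ _ _ => i) fun τ' β => by
      by_cases h : τ' = τ
      · subst h
        simpa using hj _
      · simp [h]
  have hr : Mem univ r := hq.setrows _ _ _
  have hH : (fun x => {m | (q.L τ x).e m ≤ j 0 x}) ∈ Meas (lo τ) := fun m =>
    meas_set (meas_le ((q.hL τ).e m) (hj 0))
  refine ⟨r, hr, (setrows_le _ _ _ _).trans (grow_le _ _ _), _, hH,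
    sm_bdd (hr.sm hτ) (hj 0) (force_of_forall fun x m h => h), fun m d a b => ?_⟩
  obtain ⟨d₁, a₁, b₁, h | h⟩ := decide_set ((hH m).mono (subset_univ _)) d a
  · exact ⟨d₁, a₁, b₁, Or.inl h⟩
  obtain ⟨d₂, a₂, b₂, l, h'⟩ := decide_fun (A := univ)
    (f := fun x => sInf {l | (q.L τ x).e m ≤ j (l + 1) x}) ((meas_sInf fun l =>
      meas_le ((q.hL τ).e m) (hj _)).mono (gen_mono (mK_mono (subset_univ _))) le_rfl) a₁
  refine ⟨d₂, a₂, b₂.trans b₁, Or.inr ⟨l, fun β h₁ h₂ => ((h.mono b₂).inter h').and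
    ((force_row isLowerSet_univ hr hτ (Or.inr (Or.inr (mem_iUnion.2 ⟨_, h₁⟩)))).mono
      (b₂.trans (b₁.trans b))) fun x ⟨f₁, f₂⟩ f₃ => ?_⟩⟩
  replace f₁ : j 0 x < (q.L τ x).e m := not_le.1 f₁
  replace f₂ : sInf {l | (q.L τ x).e m ≤ j (l + 1) x} = l := f₂
  have h₃ : (q.L τ x).e m ≤ j (l + 1) x := f₂ ▸ Nat.sInf_mem
    (s := {l | (q.L τ x).e m ≤ j (l + 1) x}) ⟨_, (Nat.le_succ _).trans (le_max_left _ _)⟩
  have h₄ : j l x < (q.L τ x).e m := by
    rcases l with _ | l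
    · exact f₁
    · exact not_le.1 (Nat.notMem_of_lt_sInf (s := {l | (q.L τ x).e m ≤ j (l + 1) x})
        (f₂ ▸ Nat.lt_succ_self l))
  have h₅ : (q.L τ x).k β ≤ j l x :=
    (Finset.le_sup (f := fun β => (q.L τ x).k β) h₁).trans (le_max_right _ _)
  have h₆ : l ≤ sInf {l | β ∈ V (l + 1)} := not_lt.1 fun h =>
    h₂ (hV h (Nat.sInf_mem (s := {l | β ∈ V (l + 1)}) ⟨l, h₁⟩))
  have h₇ : (r.L τ x).g β m = i.toNat := by
    simp only [r, setrows, setr_g, if_true]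
    rw [if_neg (by omega), if_pos (h₃.trans (hjm x _ _ (Nat.succ_le_succ h₆)))]
  exact (f₃.1 m (h₇ ▸ Bool.toNat_le _)).trans h₇

/-! ### The final forcing -/

abbrev P : Type 1 := PA univ

instance : OrderTop P where
  top := ⟨⟨univ, ∅, fun _ _ => triv, countable_empty, fun _ => .const _⟩,
    mem_def.2 ⟨FS.univ _, by simp, by simp, by simp⟩⟩
  le_top p := le_of_pw (.of_sub (subset_univ _)) (empty_subset _) (by simp)

def Frc (p : P) (S : Set X) : Prop := Force univ p.1 S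

theorem Frc.mono {p q : P} {S : Set X} (h : Frc p S) (hq : q ≤ p) : Frc q S := Force.mono h hq

theorem Frc.decide {S : Set X} (hS : MS univ S) (p : P) : ∃ d ≤ p, Frc d S ∨ Frc d Sᶜ :=
  let ⟨d, a, b, c⟩ := decide_set hS p.1 p.2
  ⟨⟨d, a⟩, b, c⟩

theorem Frc.reg {p : P} {S : Set X} (h : ∀ d ≤ p, ∃ d' ≤ d, Frc d' S) : Frc p S :=
  Force.reg fun d a b =>
    let ⟨d', h₁, h₂⟩ := h ⟨d, a⟩ b
    ⟨d'.1, d'.2, h₁, h₂⟩

theorem Frc.meet {p : P} {S S' : Set X} (h : Frc p S) (h' : Frc p S') : ∃ x ∈ S, x ∈ S' :=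
  Force.meet h h' p.2

theorem oracle (Y : P → Prop) (hY : ∀ c d, d ≤ c → Y c → Y d) :
    ∃ ξ, (∀ d, Y d → Frc d (cyl (.O ξ) 1)) ∧ ∀ d, (∀ r ≤ d, ¬ Y r) → Frc d (cyl (.O ξ) 0) := by
  obtain ⟨ξ, h₁, h₂⟩ := exists_oracle (Y := {c | ∃ h : Mem univ c, Y ⟨c, h⟩})
    fun c d a b ⟨h, e⟩ => ⟨a, hY ⟨c, h⟩ ⟨d, a⟩ b e⟩
  exact ⟨ξ, fun d h => h₁ d.1 d.2 ⟨d.2, h⟩, fun d h => h₂ d.1 fun r a b ⟨_, e⟩ => h ⟨r, a⟩ b e⟩

theorem meas_O (ξ : Θ) : Measurable[gen (mK univ)] fun x : X => x (.O ξ) = 1 :=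
  meas_eq (gen_eval (K := mK univ) (mem_univ _)) measurable_const

/-- Measurable selectors for dense relations. -/
theorem selector (E : ℕ → P → Prop) (mono : ∀ v c d, d ≤ c → E v c → E v d)
    (dense : ∀ p, ∃ q ≤ p, ∃ v, E v q) :
    ∃ ψ : X → ℕ, Measurable[gen (mK univ)] ψ ∧
      ∀ p, ∃ q ≤ p, ∃ v, E v q ∧ Frc q {x | ψ x = v} := by
  obtain ⟨E', h₁, h₂, h₃, h₄⟩ := exists_functional E dense
  choose ξ h₅ h₆ using fun v => oracle (E' v) fun c d => h₂ v c d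
  refine ⟨fun x => sInf {v | x (.O (ξ v)) = 1}, meas_sInf fun v => meas_O _, fun p => ?_⟩
  obtain ⟨q, a, v, b⟩ := h₃ p
  obtain ⟨c, e, f⟩ := h₁ v q b
  refine ⟨q, a, v, mono v c q e f, Force.and (h₅ v q b) (force_all (Q := fun w x =>
    w ≠ v → x (.O (ξ w)) = 0) fun w => ?_) fun x g k => ?_⟩
  · by_cases h : w = v
    · exact force_of_forall fun _ h' => absurd h h'
    · exact Force.mono_set (h₆ w q fun r a b' => h (h₄ w v r b' (h₂ v q r a b))) fun _ h _ => h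
  · have : {v | x (.O (ξ v)) = 1} = {v} := eq_singleton_iff_unique_mem.2 ⟨g, fun w hw => by
      by_contra h
      exact zero_ne_one ((k w h).symm.trans hw)⟩
    simp [this]

end Pool.Agent.MP_9c82b4_lc

end

section

namespace Pool.Agent.MP_9c82b4_lc

open Set Classical MeasureTheory

noncomputable def resP (ν : Θ) (p : P) : P :=
  ⟨res (Iio ν) p.1, (p.2.res (isLowerSet_Iio ν)).mono (subset_univ _)⟩

def In (ν : Θ) (p : P) : Prop := Mem (Iio ν) p.1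

variable {ν ζ : Θ} {p q c d : P}

theorem in_resP (ν : Θ) (p : P) : In ν (resP ν p) := p.2.res (isLowerSet_Iio ν)

theorem le_resP (ν : Θ) (p : P) : p ≤ resP ν p := le_res _ _

theorem In.resP_le (h : In ν c) (hp : p ≤ c) : resP ν p ≤ c := Le.res_le hp (isLowerSet_Iio ν) h

theorem In.merge (h : In ν d) (hq : d ≤ resP ν q) : ∃ r ≤ d, r ≤ q :=
  let ⟨r, a, b, c⟩ := exists_merge h q.2 (subset_univ _) hq
  ⟨⟨r, a⟩, b, c⟩

theorem Frc.resP {S : Set X} (h : Frc p S) (hS : MS (Iio ν) S) : Frc (resP ν p) S :=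
  (Force.down h (isLowerSet_Iio ν) (subset_univ _) hS p.2).up' (isLowerSet_Iio ν) (subset_univ _)
    hS (in_resP ν p)

theorem fin_dense {Q : Type*} [Preorder Q] {ι : Type*} {I : Set ι} (hI : I.Finite)
    {Φ : ι → Q → Prop} (mono : ∀ i p q, q ≤ p → Φ i p → Φ i q) {p : Q}
    (h : ∀ i ∈ I, ∀ d ≤ p, ∃ d' ≤ d, Φ i d') : ∃ d ≤ p, ∀ i ∈ I, Φ i d := by
  induction I, hI using Set.Finite.induction_on with
  | empty => exact ⟨p, le_rfl, by simp⟩
  | @insert j I _ _ ih =>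
    obtain ⟨d, b, c⟩ := ih fun i hi => h i (mem_insert_of_mem _ hi)
    obtain ⟨d', b', c'⟩ := h j (mem_insert _ _) d b
    refine ⟨d', b'.trans b, ?_⟩
    rintro i (rfl | hi)
    exacts [c', mono _ _ _ b' (c i hi)]

theorem Frc.decide_fun {f : X → ℕ} (hf : Measurable[gen (mK univ)] f) (p : P) :
    ∃ d ≤ p, ∃ v, Frc d {x | f x = v} :=
  let ⟨d, a, b, c⟩ := Pool.Agent.MP_9c82b4_lc.decide_fun hf p.2
  ⟨⟨d, a⟩, b, c⟩

theorem exists_functional_at {V : Type*} [Nonempty V] (d : P) (E : V → P → Prop)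
    (mono : ∀ v p q, q ≤ p → E v p → E v q) (hres : ∀ v p, E v p → E v (resP ζ p))
    (dense : ∀ p ≤ d, ∃ q ≤ p, ∃ v, E v q) :
    ∃ E' : V → P → Prop, (∀ v, ∀ q ≤ d, E' v q → E v q) ∧
      (∀ v p q, q ≤ p → E' v p → E' v q) ∧ (∀ p, ∃ q ≤ p, ∃ v, E' v q) ∧
      (∀ v v' q, E' v q → E' v' q → v = v') ∧ ∀ v p, E' v p → E' v (resP ζ p) := by
  let ι : PA (Iio ζ) → P := fun a => ⟨a.1, a.2.mono (subset_univ _)⟩
  let π : P → PA (Iio ζ) := fun p => ⟨res (Iio ζ) p.1, in_resP ζ p⟩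
  obtain ⟨E', h₁, h₂, h₃, h₄⟩ := exists_functional (Q := PA (Iio ζ))
    (fun v a => (∃ e ≤ ι a, e ≤ d) → E v (ι a)) (fun a => by
      by_cases h : ∃ e ≤ ι a, e ≤ d
      · obtain ⟨e, h₁, h₂⟩ := h
        obtain ⟨q, h₃, v, h₄⟩ := dense e h₂
        exact ⟨π q, In.resP_le (c := ι a) a.2 (h₃.trans h₁), v, fun _ => hres v q h₄⟩
      · exact ⟨a, le_rfl, Classical.arbitrary V, fun h' => absurd h' h⟩)
  refine ⟨fun v p => E' v (π p), fun v q hq h => ?_,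
    fun v p q h => h₂ v _ _ (Le.res h (isLowerSet_Iio ζ)), fun p => ?_,
    fun v v' q => h₄ v v' _, fun v p h => ?_⟩
  · obtain ⟨a, h₅, h₆⟩ := h₁ v _ h
    have : q ≤ ι a := (le_resP ζ q).trans h₅
    exact mono v _ _ this (h₆ ⟨q, this, hq⟩)
  · obtain ⟨a, h₅, v, h₆⟩ := h₃ (π p)
    obtain ⟨r, h₇, h₈⟩ := In.merge (d := ι a) a.2 h₅
    exact ⟨r, h₈, v, h₂ v _ _ (In.resP_le (c := ι a) a.2 h₇) h₆⟩
  · exact h₂ v _ _ (In.resP_le (in_resP ζ p) (le_refl (resP ζ p))) h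

theorem avoid' {A : Set Θ} (hA : IsLowerSet A) (hζ : ζ ∈ A) (hd : Mem A d.1)
    (E : ℕ → Finset ℕ → P → Prop) (hres : ∀ n v p, E n v p → E n v (resP ζ p))
    (hE : ∀ n, ∀ q ≤ resP ζ d, ∃ c ≤ q, ∃ v, v.card ≤ (n + 1) ^ 2 ∧ E n v c) :
    ∃ r ≤ d, Mem A r.1 ∧ ∃ n₁, ∀ n, n₁ ≤ n → ∀ d' ≤ r, ∃ d'' ≤ d', ∃ w < bb n,
      Frc d'' (cyl (.R ζ n) w) ∧ ∃ v c, E n v c ∧ d'' ≤ c ∧ w ∉ v := by
  obtain ⟨r, a, b, n₁, h⟩ := avoid hA hζ hd (fun n v c => ∃ h : Mem univ c, E n v ⟨c, h⟩)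
    (fun n q h₁ h₂ => by
      obtain ⟨c, h₃, v, h₄, h₅⟩ := hE n ⟨q, h₁.mono (subset_univ _)⟩ h₂
      exact ⟨_, in_resP ζ c, In.resP_le (c := ⟨q, h₁.mono (subset_univ _)⟩) h₁ h₃, v, h₄, _,
        hres n v c h₅⟩)
  refine ⟨⟨r, a.mono (subset_univ _)⟩, b, a, n₁, fun n hn d' h₁ => ?_⟩
  obtain ⟨d'', h₂, h₃, w, h₄, h₅, v, c, ⟨h₆, h₇⟩, h₈⟩ := h n hn d'.1 d'.2 h₁
  exact ⟨⟨d'', h₂⟩, h₃, w, h₄, (W_R.2 h₅).force (mem_univ _), v, ⟨c, h₆⟩, h₇, h₈⟩

abbrev Pr : Type 1 := P × (X → Set ℕ)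

def Lev (ν : Θ) : Set Pr := {z | In ν z.1 ∧ z.2 ∈ Meas (Iio ν)}

def Fip (G : Set Pr) : Prop := ∀ s ⊆ G, s.Finite → ∀ d : P, (∀ z ∈ s, d ≤ z.1) →
  ∀ n, ∃ d' ≤ d, ∃ m, n ≤ m ∧ Frc d' {x | ∀ z ∈ s, m ∈ z.2 x}

def MaxF (ν : Θ) (G : Set Pr) : Prop := Maximal (fun G => G ⊆ Lev ν ∧ Fip G) G

def cpl (F : X → Set ℕ) : X → Set ℕ := fun x => (F x)ᶜ

theorem cpl_meas {A : Set Θ} {F : X → Set ℕ} (h : F ∈ Meas A) : cpl F ∈ Meas A :=
  fun m => (h m).compl

theorem Lev.mono (h : ν ≤ ζ) : Lev ν ⊆ Lev ζ := fun _ hz =>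
  ⟨Mem.mono hz.1 (Iio_subset_Iio h), Meas.mono (Iio_subset_Iio h) hz.2⟩

variable {G : Set Pr} {F F' : X → Set ℕ}

theorem Fip.two (h : Fip G) {c' : P} (h₁ : (c, F) ∈ G) (h₂ : (c', F') ∈ G) (h₃ : d ≤ c)
    (h₄ : d ≤ c') : ∃ x m, m ∈ F x ∧ m ∈ F' x := by
  obtain ⟨e, -, m, -, h₅⟩ := h {(c, F), (c', F')} (by simp [insert_subset_iff, h₁, h₂])
    (toFinite _) d (by simp [h₃, h₄]) 0
  obtain ⟨x, hx, -⟩ := h₅.meet h₅
  exact ⟨x, m, by simpa using hx⟩

theorem MaxF.not_mem (h : MaxF ν G) (h₁ : (c, F) ∈ Lev ν) (h₂ : (c, F) ∉ G) :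
    ∃ s ⊆ G, s.Finite ∧ ∃ d ≤ c, (∀ z ∈ s, d ≤ z.1) ∧ ∃ n, ∀ e ≤ d, ∀ m, n ≤ m →
      ¬ Frc e {x | m ∈ F x ∧ ∀ z ∈ s, m ∈ z.2 x} := by
  by_contra hn
  push Not at hn
  refine h₂ (h.le_of_ge (y := insert (c, F) G) ⟨insert_subset h₁ h.prop.1, ?_⟩
    (subset_insert _ _) (mem_insert _ _))
  intro s hs hf d hd n
  by_cases h₃ : (c, F) ∈ s
  · obtain ⟨e, a, m, b, f⟩ := hn (s \ {(c, F)}) (by simpa using hs) hf.sdiff d (hd _ h₃)
      (fun z hz => hd z hz.1) n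
    refine ⟨e, a, m, b, Force.mono_set f fun x hx z hz => ?_⟩
    by_cases h₄ : z = (c, F)
    exacts [h₄ ▸ hx.1, hx.2 z ⟨hz, h₄⟩]
  · exact h.prop.2 s ((subset_insert_iff_of_notMem h₃).1 hs) hf d hd n

theorem MaxF.dec (h : MaxF ν G) (hF : F ∈ Meas (Iio ν)) (p : P) :
    ∃ d ≤ p, ∃ c, d ≤ c ∧ ((c, F) ∈ G ∨ (c, cpl F) ∈ G) := by
  by_cases h₁ : (resP ν p, F) ∈ G
  · exact ⟨p, le_rfl, _, le_resP ν p, Or.inl h₁⟩
  obtain ⟨s, a, b, d, c, e, n, f⟩ := h.not_mem ⟨in_resP ν p, hF⟩ h₁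
  by_cases h₂ : (resP ν d, cpl F) ∈ G
  · obtain ⟨r, h₃, h₄⟩ := (in_resP ν d).merge ((in_resP ν p).resP_le c)
    exact ⟨r, h₄, _, h₃, Or.inr h₂⟩
  exfalso
  obtain ⟨s', a', b', d', c', e', n', f'⟩ := h.not_mem ⟨in_resP ν d, cpl_meas hF⟩ h₂
  obtain ⟨r, h₃, m, h₄, h₅⟩ := h.prop.2 (s ∪ s') (union_subset a a') (b.union b') d' (by
    rintro z (hz | hz)
    exacts [c'.trans ((h.prop.1 (a hz)).1.resP_le (e z hz)), e' z hz]) (max n n')
  obtain ⟨r', h₆, h₇ | h₇⟩ := Frc.decide ((hF m).mono (subset_univ _)) r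
  · obtain ⟨t, h₈, h₉⟩ := (in_resP ν r').merge ((in_resP ν d).resP_le (h₆.trans (h₃.trans c')))
    refine f t h₉ m (le_of_max_le_left h₄) (Frc.mono (Frc.resP (Force.and h₇ (h₅.mono h₆)
      fun x k₁ k₂ => And.intro k₁ fun z hz => k₂ z (Or.inl hz)) ?_) h₈)
    exact meas_set (meas_and (meas_of_set (hF m))
      (meas_ball b.countable fun z hz => meas_of_set ((h.prop.1 (a hz)).2 m)))
  · exact f' r' (h₆.trans h₃) m (le_of_max_le_right h₄) (Force.and h₇ (h₅.mono h₆)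
      fun x k₁ k₂ => ⟨k₁, fun z hz => k₂ z (Or.inr hz)⟩)

def Arr (A : Set Θ) (ψ : ℕ → ℕ → X → ℕ) : Prop := ∀ n m, Measurable[gen (mK A)] (ψ n m)

def npc (ψ : ℕ → ℕ → X → ℕ) (n w : ℕ) : X → Set ℕ := fun x => {m | ψ n m x ≠ w}

def Av (ζ : Θ) (ψ : ℕ → ℕ → X → ℕ) (n₀ : ℕ) : X → Set ℕ :=
  fun x => {m | ∀ n, n₀ ≤ n → ψ n m x ≠ x (.R ζ n)}

def New (ζ : Θ) (G : Set Pr) : Set Pr := {z | In (Order.succ ζ) z.1 ∧ ∃ ψ, Arr (Iio ζ) ψ ∧ ∃ n₀,
  z.2 = Av ζ ψ n₀ ∧ ∀ n, n₀ ≤ n → ∀ d ≤ z.1, ∃ d' ≤ d, ∃ w < bb n, Frc d' (cyl (.R ζ n) w) ∧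
    ∃ c, (c, npc ψ n w) ∈ G ∧ d' ≤ c}

theorem Arr.npc {A ψ} (h : Arr A ψ) (n w : ℕ) : npc ψ n w ∈ Meas A := fun m =>
  meas_set (meas_not (meas_eq (h n m) measurable_const))

theorem new_sub (ζ : Θ) (G : Set Pr) : New ζ G ⊆ Lev (Order.succ ζ) := by
  rintro ⟨c, F⟩ ⟨h₁, ψ, h₂, n₀, rfl, -⟩
  refine ⟨h₁, fun m => meas_set (meas_all fun n => meas_imp measurable_const (meas_not (meas_eq
    ((h₂ n m).mono (gen_mono (mK_mono (Iio_subset_Iio (Order.le_succ ζ)))) le_rfl)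
    (gen_eval (κ := .R ζ n) (Order.lt_succ ζ)))))⟩

theorem MaxF.dec_fin (h : MaxF ν G) {ι : Type*} {I : Set ι} (hI : I.Finite)
    {F : ι → X → Set ℕ} (hF : ∀ i ∈ I, F i ∈ Meas (Iio ν)) (p : P) :
    ∃ d ≤ p, ∀ i ∈ I, ∃ c, d ≤ c ∧ ((c, F i) ∈ G ∨ (c, cpl (F i)) ∈ G) :=
  fin_dense hI (fun _ _ _ h ⟨c, a, b⟩ => ⟨c, h.trans a, b⟩) fun i hi d _ => h.dec (hF i hi) d

theorem MaxF.new_dense (h : MaxF ζ G) {ψ : ℕ → ℕ → X → ℕ} (hψ : Arr (Iio ζ) ψ) (p : P) :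
    ∃ d ≤ p, ∃ c n₀, d ≤ c ∧ (c, Av ζ ψ n₀) ∈ New ζ G := by
  obtain ⟨r, a, b, n₁, c⟩ := avoid' (isLowerSet_Iio _) (Order.lt_succ ζ)
    (in_resP (Order.succ ζ) p)
    (fun n v c => ∀ w < bb n, w ∉ v → ∃ c', (c', npc ψ n w) ∈ G ∧ c ≤ c')
    (fun n v c H w h₁ h₂ => (H w h₁ h₂).imp fun c' h' => ⟨h'.1, (h.prop.1 h'.1).1.resP_le h'.2⟩)
    (fun n q _ => by
      obtain ⟨d, h₁, h₂⟩ := h.dec_fin (finite_Iio (bb n)) (fun w _ => hψ.npc n w) q
      refine ⟨d, h₁, (Finset.range (bb n)).filter fun w => ∃ c, d ≤ c ∧ (c, cpl (npc ψ n w)) ∈ G,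
        le_trans (Finset.card_le_one.2 fun w hw w' hw' => ?_) (Nat.one_le_pow _ _ (by omega)),
        fun w h₃ h₄ => ?_⟩
      · obtain ⟨c, h₃, h₄⟩ := (Finset.mem_filter.1 hw).2
        obtain ⟨c', h₅, h₆⟩ := (Finset.mem_filter.1 hw').2
        obtain ⟨x, m, h₇, h₈⟩ := h.prop.2.two h₄ h₆ h₃ h₅
        exact (not_not.1 h₇).symm.trans (not_not.1 h₈)
      · obtain ⟨c, h₅, h₆ | h₆⟩ := h₂ w h₃
        exacts [⟨c, h₆, h₅⟩, absurd (Finset.mem_filter.2 ⟨Finset.mem_range.2 h₃, c, h₅, h₆⟩) h₄])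
  obtain ⟨d, h₁, h₂⟩ := In.merge b a
  refine ⟨d, h₂, r, n₁, h₁, b, ψ, hψ, n₁, rfl, fun n hn e he => ?_⟩
  obtain ⟨e', h₃, w, h₄, h₅, v, c', h₆, h₇, h₈⟩ := c n hn e he
  obtain ⟨c'', h₉, k⟩ := h₆ w h₄ h₈
  exact ⟨e', h₃, w, h₄, h₅, c'', h₉, h₇.trans k⟩

theorem MaxF.fip_new (h : MaxF ζ G) : Fip (G ∪ New ζ G) := by
  intro s hs hf d hd n₀
  have h₁ : ∀ z ∈ s \ G, z ∈ New ζ G := fun z hz => (hs hz.1).resolve_left hz.2
  choose! ψ hψ N hN hN' using fun z hz => (h₁ z hz).2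
  have up : ∀ {f : X → ℕ}, Measurable[gen (mK (Iio ζ))] f → Measurable[gen (mK univ)] f :=
    fun h => h.mono (gen_mono (mK_mono (subset_univ _))) le_rfl
  let J := (hf.sdiff (t := G)).toFinset
  have hJ : ∀ z, z ∈ J ↔ z ∈ s \ G := fun z => Finite.mem_toFinset _
  have h₂ := fun k => exists_functional_at (ζ := ζ) (resP ζ d) (fun m c => n₀ ≤ m ∧
    Frc c {x | ∀ z ∈ s ∩ G, m ∈ z.2 x} ∧ ∀ z ∈ s \ G, ∀ n < k, ∀ w < bb n,
      Frc c {x | ψ z n m x ≠ w} ∨ ∃ c', c ≤ c' ∧ (c', cpl (npc (ψ z) n w)) ∈ G)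
    (fun m p q a ⟨b, c, e⟩ => ⟨b, c.mono a, fun z hz n hn w hw =>
      (e z hz n hn w hw).imp (·.mono a) fun ⟨c', f, g⟩ => ⟨c', a.trans f, g⟩⟩)
    (fun m p ⟨b, c, e⟩ => ⟨b, c.resP (meas_set (meas_ball (hf.inter_of_left _).countable
      fun z hz => meas_of_set ((h.prop.1 hz.2).2 m))), fun z hz n hn w hw =>
      (e z hz n hn w hw).imp (·.resP ((hψ z hz).npc n w m))
        fun ⟨c', f, g⟩ => ⟨c', (h.prop.1 g).1.resP_le f, g⟩⟩)
    (fun p hp => by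
      have hI : {i : Pr × ℕ × ℕ | i.1 ∈ s \ G ∧ i.2.1 < k ∧ i.2.2 < bb i.2.1}.Finite :=
        (hf.sdiff.prod ((finite_Iio k).biUnion fun n _ =>
          (finite_singleton n).prod (finite_Iio (bb n)))).subset fun i hi =>
            ⟨hi.1, mem_biUnion hi.2.1 ⟨rfl, hi.2.2⟩⟩
      obtain ⟨q, a, b⟩ := h.dec_fin hI (F := fun i => npc (ψ i.1) i.2.1 i.2.2)
        (fun i hi => (hψ _ hi.1).npc _ _) p
      choose! c hc hc' using b
      obtain ⟨q', e, m, f, g⟩ := h.prop.2 (s ∩ G ∪ ((fun i => (c i, npc (ψ i.1) i.2.1 i.2.2)) ''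
        {i : Pr × ℕ × ℕ | i.1 ∈ s \ G ∧ i.2.1 < k ∧ i.2.2 < bb i.2.1}) ∩ G)
        (union_subset inter_subset_right inter_subset_right)
        ((hf.inter_of_left _).union ((hI.image _).inter_of_left _)) q (by
          rintro z (hz | ⟨⟨i, hi, rfl⟩, -⟩)
          exacts [a.trans (hp.trans ((h.prop.1 hz.2).1.resP_le (hd z hz.1))), hc i hi]) n₀
      refine ⟨q', e.trans a, m, f, Force.mono_set g fun x hx z hz => hx z (Or.inl hz),
        fun z hz n hn w hw => (hc' (z, n, w) ⟨hz, hn, hw⟩).imp (fun k₁ => ?_)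
          fun k₁ => ⟨_, e.trans (hc (z, n, w) ⟨hz, hn, hw⟩), k₁⟩⟩
      exact Force.mono_set g fun x hx => hx _ (Or.inr ⟨⟨(z, n, w), ⟨hz, hn, hw⟩, rfl⟩, k₁⟩))
  choose E e₁ e₂ e₃ e₄ e₅ using h₂
  obtain ⟨r, a, -, n₁, b⟩ := avoid' (ζ := ζ) isLowerSet_univ (mem_univ _) d.2
    (fun n v c => J.card ≤ n → ∀ k ≤ n, ∃ m, E k m c ∧ ∀ z ∈ J, ∃ w ∈ v, Frc c {x | ψ z n m x = w})
    (fun n v c H h₃ k hk => (H h₃ k hk).imp fun m hm => ⟨e₅ k m c hm.1, fun z hz =>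
      (hm.2 z hz).imp fun w hw => ⟨hw.1, hw.2.resP
        (meas_set (meas_eq (hψ z ((hJ z).1 hz) n m) measurable_const))⟩⟩)
    (fun n q _ => by
      by_cases h₃ : J.card ≤ n
      · obtain ⟨c, h₄, h₅⟩ := fin_dense (finite_Iic n) (p := q)
          (Φ := fun k c => ∃ m, E k m c ∧ ∀ z ∈ J, ∃ w, Frc c {x | ψ z n m x = w})
          (fun k p q h ⟨m, a, b⟩ => ⟨m, e₂ k m p q h a, fun z hz => (b z hz).imp
            fun w hw => hw.mono h⟩) (fun k _ e _ => by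
            obtain ⟨e', k₁, m, k₂⟩ := e₃ k e
            obtain ⟨e'', k₃, k₄⟩ := fin_dense J.finite_toSet (p := e')
              (Φ := fun z c => ∃ w, Frc c {x | ψ z n m x = w})
              (fun z p q h ⟨w, hw⟩ => ⟨w, hw.mono h⟩)
              fun z hz t _ => Frc.decide_fun (up (hψ z ((hJ z).1 hz) n m)) t
            exact ⟨e'', k₃.trans k₁, m, e₂ k m _ _ k₃ k₂, k₄⟩)
        choose! m h₆ h₇ using h₅
        choose! w h₇ using h₇
        refine ⟨c, h₄, (Finset.range (n + 1) ×ˢ J).image fun i => w i.1 i.2,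
          Finset.card_image_le.trans ?_, fun _ k hk => ⟨m k, h₆ k hk, fun z hz =>
            ⟨w k z, Finset.mem_image_of_mem _ (a := (k, z)) (by simp [hz, hk]), h₇ k hk z hz⟩⟩⟩
        rw [Finset.card_product, Finset.card_range, sq]
        gcongr
        omega
      · exact ⟨q, le_rfl, ∅, by simp, fun h => absurd h h₃⟩)
  obtain ⟨t, h₃, m, h₄⟩ := e₃ (max n₁ J.card) r
  obtain ⟨h₅, h₆, h₇⟩ := e₁ _ m t (h₃.trans (a.trans (le_resP ζ d))) h₄
  refine ⟨t, h₃.trans a, m, h₅, force_ball hf.countable fun z hz => ?_⟩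
  by_cases h₈ : z ∈ G
  · exact Force.mono_set h₆ fun x hx => hx z ⟨hz, h₈⟩
  rw [hN z ⟨hz, h₈⟩]
  refine force_all fun n => force_all fun hn => Frc.reg fun e he => ?_
  rcases lt_or_ge n (max n₁ J.card) with k | k
  · obtain ⟨e', k₁, w, k₂, k₃, c, k₄, k₅⟩ := hN' z ⟨hz, h₈⟩ n hn e
      (he.trans (h₃.trans (a.trans (hd z hz))))
    rcases h₇ z ⟨hz, h₈⟩ n k w k₂ with k₆ | ⟨c', k₆, k₇⟩
    · exact ⟨e', k₁, Force.and k₃ (k₆.mono (k₁.trans he)) fun x f g f' => g (f'.trans f)⟩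
    · obtain ⟨x, m, f, g⟩ := h.prop.2.two k₄ k₇ k₅ (k₁.trans (he.trans k₆))
      exact absurd f g
  · obtain ⟨e', k₁, w, -, k₃, v, c, k₄, k₅, k₆⟩ := b n (le_of_max_le_left k) e (he.trans h₃)
    obtain ⟨m', k₇, k₈⟩ := k₄ (le_of_max_le_right k) _ k
    obtain rfl := e₄ _ m m' e' (e₂ _ _ _ _ (k₁.trans he) h₄) (e₂ _ _ _ _ k₅ k₇)
    obtain ⟨w', k₉, f⟩ := k₈ z ((hJ z).2 ⟨hz, h₈⟩)
    exact ⟨e', k₁, Force.and k₃ (f.mono k₅) fun x f g f' => k₆ ((g.symm.trans (f'.trans f)) ▸ k₉)⟩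

theorem fip_iUnion {ι : Type*} {G : ι → Set Pr} (dir : ∀ i j, ∃ k, G i ⊆ G k ∧ G j ⊆ G k)
    (h : ∀ i, Fip (G i)) : Fip (⋃ i, G i) := by
  intro s hs hf
  have : s = ∅ ∨ ∃ i, s ⊆ G i := by
    induction s, hf using Set.Finite.induction_on with
    | empty => exact Or.inl rfl
    | @insert z s _ _ ih =>
      obtain ⟨i, hi⟩ := mem_iUnion.1 (hs (mem_insert _ _))
      rcases ih ((subset_insert _ _).trans hs) with rfl | ⟨j, hj⟩
      · exact Or.inr ⟨i, by simpa using hi⟩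
      · obtain ⟨k, a, b⟩ := dir i j
        exact Or.inr ⟨k, insert_subset (a hi) (hj.trans b)⟩
  rcases this with rfl | ⟨i, hi⟩
  exacts [fun d _ n => ⟨d, le_rfl, n, le_rfl, force_of_forall (by simp)⟩, h i s hi hf]

noncomputable def GG : Θ → Set Pr := (wellFounded_lt (α := Θ)).fix fun ζ ih =>
  Classical.epsilon fun G => MaxF ζ G ∧ ∀ ξ (h : ξ < ζ), ih ξ h ∪ New ξ (ih ξ h) ⊆ G

theorem GG_spec (ζ : Θ) : MaxF ζ (GG ζ) ∧ ∀ ξ < ζ, GG ξ ∪ New ξ (GG ξ) ⊆ GG ζ := by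
  induction ζ using WellFoundedLT.induction with
  | ind ζ ih =>
    have e : GG ζ = Classical.epsilon fun G => MaxF ζ G ∧ ∀ ξ < ζ, GG ξ ∪ New ξ (GG ξ) ⊆ G := by
      rw [GG, WellFounded.fix_eq]
    rw [e]
    refine Classical.epsilon_spec (p := fun G => MaxF ζ G ∧ ∀ ξ < ζ, GG ξ ∪ New ξ (GG ξ) ⊆ G) ?_
    obtain ⟨G, h₁, h₂⟩ := zorn_subset_nonempty {G | G ⊆ Lev ζ ∧ Fip G} (fun c hc hch _ =>
      ⟨⋃₀ c, ⟨sUnion_subset fun G hG => (hc hG).1, by
        rw [sUnion_eq_iUnion]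
        refine fip_iUnion (fun i j => ?_) fun i => (hc i.2).2
        rcases hch.total i.2 j.2 with h | h
        exacts [⟨j, h, subset_rfl⟩, ⟨i, subset_rfl, h⟩]⟩, fun G hG => subset_sUnion_of_mem hG⟩)
      (⋃ ξ : Iio ζ, GG ξ ∪ New ξ (GG ξ)) ⟨iUnion_subset fun ξ => union_subset
        ((ih ξ ξ.2).1.prop.1.trans (Lev.mono ξ.2.le))
        ((new_sub _ _).trans (Lev.mono (Order.succ_le_of_lt ξ.2))),
        fip_iUnion (fun i j => by
          rcases lt_trichotomy i.1 j.1 with h | h | h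
          · exact ⟨j, ((ih j j.2).2 i h).trans subset_union_left, subset_rfl⟩
          · exact ⟨j, h ▸ subset_rfl, subset_rfl⟩
          · exact ⟨i, subset_rfl, ((ih i i.2).2 j h).trans subset_union_left⟩)
          fun ξ => (ih ξ ξ.2).1.fip_new⟩
    exact ⟨G, h₂, fun ξ h => (subset_iUnion (fun ξ : Iio ζ => GG ξ ∪ New ξ (GG ξ)) ⟨ξ, h⟩).trans h₁⟩

theorem exists_filter : ∃ G : Set Pr, (∀ z ∈ G, z.2 ∈ Meas univ) ∧ Fip G ∧
    (∀ F ∈ Meas univ, ∀ p, ∃ d ≤ p, ∃ c, d ≤ c ∧ ((c, F) ∈ G ∨ (c, cpl F) ∈ G)) ∧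
    ∀ ψ, Arr univ ψ → ∃ ζ, ∀ p, ∃ d ≤ p, ∃ c n₀, d ≤ c ∧ (c, Av ζ ψ n₀) ∈ G := by
  refine ⟨⋃ ζ, GG ζ, fun z hz => ?_, fip_iUnion (fun i j => ?_) fun ζ => (GG_spec ζ).1.prop.2,
    fun F hF p => ?_, fun ψ hψ => ?_⟩
  · obtain ⟨ζ, h⟩ := mem_iUnion.1 hz
    exact Meas.mono (subset_univ _) ((GG_spec ζ).1.prop.1 h).2
  · exact ⟨Order.succ (max i j), subset_union_left.trans ((GG_spec _).2 i
      (Order.lt_succ_of_le (le_max_left _ _))), subset_union_left.trans ((GG_spec _).2 j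
      (Order.lt_succ_of_le (le_max_right _ _)))⟩
  · obtain ⟨ν, h⟩ := meas_level hF
    obtain ⟨d, a, c, b, e⟩ := (GG_spec ν).1.dec h p
    exact ⟨d, a, c, b, e.imp (mem_iUnion_of_mem ν) (mem_iUnion_of_mem ν)⟩
  · choose ν hν using fun z : ℕ × ℕ =>
      meas_level (F := fun x => {v | ψ z.1 z.2 x = v}) fun v => hψ _ _ (measurableSet_singleton v)
    obtain ⟨ζ, hζ⟩ := exists_ub_ct (countable_range ν)
    refine ⟨ζ, fun p => ?_⟩
    obtain ⟨d, a, c, n₀, b, e⟩ := (GG_spec ζ).1.new_dense (ψ := ψ) (fun n m =>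
      @measurable_to_countable' ℕ X _ _ (gen _) _ fun v =>
        (hν (n, m) v).mono (Iio_subset_Iio (hζ ⟨(n, m), rfl⟩).le)) p
    exact ⟨d, a, c, n₀, b, mem_iUnion_of_mem _ ((GG_spec _).2 ζ (Order.lt_succ ζ) (Or.inr e))⟩

end Pool.Agent.MP_9c82b4_lc

end
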