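import Pool.Agent.Mg.F9c82b4.G3c050d
import Pool.Agent.MP_9c82b4_lc.Model

section

namespace Pool.Agent.MP_9c82b4_lc

open Pool.Agent.MP_c6cf52_lc Name Gen Set Filter

section General

universe u

/-- The filter of generics over sufficiently many names. -/
def cof (Q : Type u) [Preorder Q] [OrderTop Q] : Filter (Gen Q) where
  sets := {S | ∃ C : Set (Name Q), C.Countable ∧ ∀ g : Gen Q, C ⊆ g.N → g ∈ S}
  univ_sets := ⟨∅, countable_empty, fun _ _ => trivial⟩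
  sets_of_superset := fun ⟨C, h₁, h₂⟩ h => ⟨C, h₁, fun g hg => h (h₂ g hg)⟩
  inter_sets := fun ⟨C, h₁, h₂⟩ ⟨C', h₃, h₄⟩ => ⟨C ∪ C', h₁.union h₃, fun g hg =>
    ⟨h₂ g (subset_union_left.trans hg), h₄ g (subset_union_right.trans hg)⟩⟩

variable {Q : Type u} [Preorder Q] [OrderTop Q] {g : Gen Q}

instance : CountableInterFilter (cof Q) := ⟨fun S hS h => by
  choose! C h₁ h₂ using h
  exact ⟨⋃ s ∈ S, C s, hS.biUnion h₁, fun g hg s hs =>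
    h₂ s hs g ((subset_biUnion_of_mem hs).trans hg)⟩⟩

theorem ev_mem (σ : Name Q) : ∀ᶠ g in cof Q, σ ∈ g.N :=
  ⟨{σ}, countable_singleton _, fun _ hg => hg rfl⟩

theorem ev_list (l : List (Name Q)) : ∀ᶠ g in cof Q, ∀ x ∈ l, x ∈ g.N :=
  ⟨{x | x ∈ l}, (List.finite_toSet l).countable, fun _ hg => hg⟩

theorem ev_ex {Φ : Gen Q → Prop} (h : ∀ᶠ g in cof Q, Φ g) (p : Q) : ∃ g : Gen Q, p ∈ g.G ∧ Φ g :=
  let ⟨C, h₁, h₂⟩ := h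
  let ⟨g, h₃, h₄⟩ := exists_gen p C h₁
  ⟨g, h₃, h₂ g h₄⟩

theorem ev_below {D : Set Q} {q : Q} (h : ∀ t ≤ q, ∃ t' ≤ t, t' ∈ D) :
    ∀ᶠ g in cof Q, q ∈ g.G → ∃ d ∈ D, d ∈ g.G :=
  (ev_mem (denseN D)).mono fun _ hg hq => meets_below hg hq h

theorem dens' {Ψ : ∀ (M : Type (u + 1)), (M → M → Prop) → (ℕ → M) → Prop} (h : UDef Ψ)
    {l : List (Name Q)} (hl : ∀ x ∈ l, x ∈ g.N)
    (H : ∀ p ∈ g.G, ∃ q ≤ p, ∀ᶠ g' in cof Q, q ∈ g'.G → Ψ g'.M g'.E (g'.w l)) :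
    Ψ g.M g.E (g.w l) :=
  dens h hl fun p hp =>
    let ⟨q, h₁, C, h₂, h₃⟩ := H p hp
    ⟨q, h₁, C, h₂, fun g' a b _ => h₃ g' b a⟩

theorem transfer' {Ψ : ∀ (M : Type (u + 1)), (M → M → Prop) → (ℕ → M) → Prop} (h : UDef Ψ)
    {l : List (Name Q)} (hl : ∀ x ∈ l, x ∈ g.N) (hΨ : Ψ g.M g.E (g.w l)) :
    ∃ p ∈ g.G, ∀ᶠ g' in cof Q, p ∈ g'.G → Ψ g'.M g'.E (g'.w l) :=
  let ⟨p, h₁, h₂⟩ := transfer h hl hΨ
  ⟨p, h₁, (ev_list l).mono fun g' a b => h₂ g' b a⟩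

theorem sub_ext {a b : g.M} (ha : Sub g.E a (g.v wN)) (hb : Sub g.E b (g.v wN))
    (h : ∀ m, g.E (g.v (nN m)) a ↔ g.E (g.v (nN m)) b) : a = b := by
  refine Gen.ext fun x => ⟨fun hx => ?_, fun hx => ?_⟩
  · obtain ⟨m, rfl⟩ := E_wN.1 (ha x hx)
    exact (h m).1 hx
  · obtain ⟨m, rfl⟩ := E_wN.1 (hb x hx)
    exact (h m).2 hx

end General

variable {g : Gen P}

theorem exists_wit (S : Set X) : ∃ 𝒟 : Set (Set Pre), 𝒟.Countable ∧ (∀ D ∈ 𝒟, Dense univ D) ∧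
    ∀ s, Chain univ s → (∀ D ∈ 𝒟, ∃ n, ∃ d ∈ D, Le (s n) d) → ∀ c : P, Frc c S →
      (∀ n, ∃ r ≤ c, Le r.1 (s n)) → pt univ s ∈ S := by
  obtain ⟨ξ, h₁, h₂⟩ := oracle (fun c => Frc c S) fun _ _ a b => b.mono a
  have h₃ : Frc ⊤ {x | x (.O ξ) = 1 → x ∈ S} := Frc.reg fun d _ => by
    by_cases h : ∀ r ≤ d, ¬ Frc r S
    · exact ⟨d, le_rfl, Force.mono_set (h₂ d h) fun x hx e => absurd (hx.symm.trans e) zero_ne_one⟩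
    · push Not at h
      obtain ⟨r, a, b⟩ := h
      exact ⟨r, a, Force.mono_set b fun x hx _ => hx⟩
  obtain ⟨𝒟, a, b, e⟩ := force_def.1 h₃
  refine ⟨insert {d | W (.O ξ) 1 d ∨ ∀ r, Mem univ r → Le r d → ∀ v, ¬ W (.O ξ) v r} 𝒟,
    a.insert _, ?_, fun s hs H c hc hn => e s hs ⟨0, le_top (α := P) (a := ⟨_, hs.mem 0⟩)⟩
      (fun D hD => H D (mem_insert_of_mem _ hD)) ?_⟩
  · rintro D (rfl | hD)
    · refine dense_def.2 fun q hq => ?_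
      by_cases h : ∀ r, Mem univ r → Le r q → ∀ v, ¬ W (.O ξ) v r
      · exact ⟨q, hq, .refl _, q, Or.inr h, .refl _⟩
      · push Not at h
        obtain ⟨r, k₁, k₂, v, k₃⟩ := h
        obtain rfl := (W_O.1 k₃).1
        exact ⟨r, k₁, k₂, r, Or.inl k₃, .refl _⟩
    · exact b D hD
  · obtain ⟨n, d, k₁ | k₁, k₂⟩ := H _ (mem_insert _ _)
    · exact pt_eq hs (mem_univ _) (k₁.mono k₂)
    · obtain ⟨r, k₃, k₄⟩ := hn n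
      obtain ⟨x, k₅, k₆⟩ := ((h₁ c hc).mono k₃).meet ((force_zero k₁).mono (k₄.trans k₂))
      exact absurd (k₆.symm.trans k₅) zero_ne_one

theorem point₀ {𝓢 : Set (Set X)} (h : 𝓢.Countable) :
    ∀ᶠ g in cof P, ∃ x, ∀ S ∈ 𝓢, ∀ c ∈ g.G, Frc c S → x ∈ S := by
  choose 𝒟 h₁ h₂ h₃ using exists_wit
  obtain ⟨D, hD⟩ := ((h.biUnion fun S _ => h₁ S).insert univ).exists_eq_range (insert_nonempty _ _)
  have h₄ : ∀ n, ∀ t ≤ (⊤ : P), ∃ t' ≤ t, t' ∈ {c : P | ∃ d ∈ D n, Le c.1 d} := by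
    intro n q _
    rcases (hD ▸ mem_range_self n : D n ∈ insert univ _) with e | e
    · exact ⟨q, le_rfl, q.1, e ▸ mem_univ _, .refl _⟩
    · obtain ⟨S, -, e⟩ := mem_iUnion₂.1 e
      obtain ⟨q', a, b⟩ := dense_def.1 (h₂ S _ e) q.1 q.2
      exact ⟨⟨q', a⟩, b⟩
  filter_upwards [eventually_countable_forall.2 fun n => ev_below (h₄ n)] with g hg
  have h₅ : ∀ n, ∀ q : g.G, ∃ q' : g.G, q'.1 ≤ q.1 ∧ ∃ d ∈ D n, Le q'.1.1 d := fun n q =>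
    let ⟨_, ⟨d, a, b⟩, e⟩ := hg n g.top
    let ⟨r, k₁, k₂, k₃⟩ := g.dir q.2 e
    ⟨⟨r, k₁⟩, k₂, d, a, Le.trans k₃ b⟩
  choose f hf hf' using h₅
  let s : ℕ → g.G := fun n => Nat.rec ⟨⊤, g.top⟩ f n
  refine ⟨_, fun S hS c hc k => h₃ S (fun n => (s n).1.1)
    (chain_def.2 ⟨fun n => (s n).1.2, fun n m h => ?_⟩) (fun E hE => ?_) c k fun n => ?_⟩
  · exact antitone_nat_of_succ_le (f := fun n => (s n).1) (fun n => hf n (s n)) h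
  · obtain ⟨n, rfl⟩ : E ∈ range D := hD ▸ mem_insert_of_mem _ (mem_biUnion hS hE)
    exact ⟨n + 1, hf' n (s n)⟩
  · obtain ⟨r, -, k₁⟩ := g.dir hc (s n).2
    exact ⟨r, k₁⟩

/-- The name of the set of natural numbers read off by `F`. -/
noncomputable def nm (F : X → Set ℕ) : Name P := locN fun c m => Frc c {x | m ∈ F x}

def Ok (g : Gen P) (x : X) (ξ : Θ) : Prop := ∀ v, ∀ c ∈ g.G, Frc c (cyl (.O ξ) v) → x (.O ξ) = v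

def Rd (g : Gen P) (x : X) (F : X → Set ℕ) : Prop :=
  nm F ∈ g.N ∧ ∀ m, g.E (g.v (nN m)) (g.v (nm F)) ↔ m ∈ F x

theorem point {𝓢 : Set (Set X)} (h : 𝓢.Countable) {K : Set Θ} (hK : K.Countable)
    {𝓕 : Set (X → Set ℕ)} (hF : 𝓕.Countable) (hm : 𝓕 ⊆ Meas univ) :
    ∀ᶠ g in cof P, ∃ x, (∀ S ∈ 𝓢, ∀ c ∈ g.G, Frc c S → x ∈ S) ∧ (∀ ξ ∈ K, Ok g x ξ) ∧
      ∀ F ∈ 𝓕, Rd g x F := by
  filter_upwards [point₀ (h.union ((hK.biUnion fun ξ _ => countable_range (cyl (.O ξ))).union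
    (hF.biUnion fun F _ => (countable_range fun m => {x | m ∈ F x}).union
      (countable_range fun m => {x | m ∈ F x}ᶜ)))),
    (eventually_countable_ball hF).2 fun F _ => ev_mem (nm F)] with g ⟨x, hx⟩ hg
  refine ⟨x, fun S hS => hx S (Or.inl hS),
    fun ξ hξ v => hx _ (Or.inr (Or.inl (mem_biUnion hξ ⟨v, rfl⟩))), fun F h₁ => ⟨hg F h₁, fun m =>
      ⟨fun h₂ => ?_, fun h₂ => by_contra fun h₃ => ?_⟩⟩⟩
  · obtain ⟨c, a, b⟩ := (nN_locN (hg F h₁)).1 h₂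
    exact hx _ (Or.inr (Or.inr (mem_biUnion h₁ (Or.inl ⟨m, rfl⟩)))) c a b
  · obtain ⟨c, a, b⟩ := not_fmem (nN_mem m) (hg F h₁) h₃
    exact hx _ (Or.inr (Or.inr (mem_biUnion h₁ (Or.inr ⟨m, rfl⟩)))) c a
      (force_compl (hm h₁ m) fun d k₁ k₂ k₃ => b ⟨d, k₁⟩ k₂
        (FMem.of_feq (τ := nm F) (j := ⟨(m, ⟨d, k₁⟩), k₃⟩) le_rfl (feq_refl _ _))) h₂

/-- The truth value of a formula is recorded by an oracle coordinate. -/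
theorem readF {Ψ : ∀ (M : Type 2), (M → M → Prop) → (ℕ → M) → Prop} (h : UDef Ψ)
    (l : List (Name P)) : ∃ ξ, ∀ (g : Gen P) x, (∀ σ ∈ l, σ ∈ g.N) → Ok g x ξ →
      (Ψ g.M g.E (g.w l) ↔ x (.O ξ) = 1) := by
  obtain ⟨φ, h⟩ := h
  obtain ⟨ξ, h₁, h₂⟩ := oracle (Forces φ (env emp l)) fun _ _ a b => b.mono a
  refine ⟨ξ, fun g x hl hx => ?_⟩
  rw [← h, truth φ hl]
  refine ⟨fun ⟨p, a, b⟩ => hx 1 p a (h₁ p b), fun e => ?_⟩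
  obtain ⟨q, a, -, -, b | b⟩ := g.meets 2 φ 0 l hl
  exacts [⟨q, a, b⟩, absurd ((hx 0 q a (h₂ q b)).symm.trans e) zero_ne_one]

theorem read (σ : Name P) : ∃ F ∈ Meas univ, ∃ K : Set Θ, K.Countable ∧ ∀ (g : Gen P) x,
    σ ∈ g.N → (∀ ξ ∈ K, Ok g x ξ) → ∀ m, g.E (g.v (nN m)) (g.v σ) ↔ m ∈ F x := by
  choose ξ h using fun m => readF (UDef.mem 0 1) [nN m, σ]
  exact ⟨fun x => {m | x (.O (ξ m)) = 1}, fun m => meas_set (meas_O _), range ξ, countable_range _,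
    fun g x h₁ h₂ m => h m g x (l2 (nN_mem m) h₁) (h₂ _ ⟨m, rfl⟩)⟩

theorem read' (σ : Name P) : ∃ F ∈ Meas univ, ∀ᶠ g in cof P,
    Sub g.E (g.v σ) (g.v wN) → g.v (nm F) = g.v σ := by
  obtain ⟨F, h₁, K, h₂, h₃⟩ := read σ
  refine ⟨F, h₁, ?_⟩
  filter_upwards [point countable_empty h₂ (countable_singleton F) (by simpa using h₁), ev_mem σ]
    with g ⟨x, _, a, b⟩ c e
  exact sub_ext (locN_sub (b F rfl).1) e fun m => ((b F rfl).2 m).trans (h₃ g x c a m).symm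

end Pool.Agent.MP_9c82b4_lc

end

section

namespace Pool.Agent.MP_9c82b4_lc

open Pool.Agent.MP_c6cf52_lc Name Gen Set Filter

variable {g : Gen P} {G : Set Pr}

noncomputable def UN (G : Set Pr) : Name P := Name.mk G (fun z => nm z.1.2) (fun z => z.1.1)

theorem nm_sub {F : X → Set ℕ} (h : nm F ∈ g.N) : Sub g.E (g.v (nm F)) (g.v wN) := locN_sub h

theorem E_UN (h : UN G ∈ g.N) {a : g.M} :
    g.E a (g.v (UN G)) ↔ ∃ z ∈ G, z.1 ∈ g.G ∧ nm z.2 ∈ g.N ∧ g.v (nm z.2) = a := by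
  rw [E_v h]
  exact ⟨fun ⟨z, h⟩ => ⟨z.1, z.2, h⟩, fun ⟨z, h₁, h⟩ => ⟨⟨z, h₁⟩, h⟩⟩

theorem isUltra_UN (h₁ : Fip G)
    (h₂ : ∀ F ∈ Meas univ, ∀ p, ∃ d ≤ p, ∃ c, d ≤ c ∧ ((c, F) ∈ G ∨ (c, cpl F) ∈ G))
    (h : UN G ∈ g.N) : IsUltra g.E (g.v wN) (g.v (UN G)) := by
  refine isUltra_of (fun a ha => ?_) (fun a b c ha hb hc n hn => ?_) fun a b => ?_
  · obtain ⟨z, -, -, k, rfl⟩ := (E_UN h).1 ha
    exact locN_sub k
  · obtain ⟨z₁, a₁, b₁, c₁, rfl⟩ := (E_UN h).1 ha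
    obtain ⟨z₂, a₂, b₂, c₂, rfl⟩ := (E_UN h).1 hb
    obtain ⟨z₃, a₃, b₃, c₃, rfl⟩ := (E_UN h).1 hc
    obtain ⟨n, rfl⟩ := E_wN.1 hn
    have hU : UDef.{2} (fun _ E w => ∃ m, E m (w 0) ∧ E m (w 1) ∧ E m (w 2) ∧ m ≠ w 3) :=
      UDef.ex ((UDef.mem _ _).and ((UDef.mem _ _).and ((UDef.mem _ _).and (UDef.ne _ _))))
    refine dens' hU (l4 c₁ c₂ c₃ (nN_mem n)) fun p hp => ?_
    obtain ⟨d, -, k₁, k₂⟩ := dir_fin (toFinite {z₁, z₂, z₃}) (Φ := fun z d => d ≤ z.1)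
      (fun _ _ _ a b => a.trans b) (by
        rintro z (rfl | rfl | rfl)
        exacts [⟨_, b₁, le_rfl⟩, ⟨_, b₂, le_rfl⟩, ⟨_, b₃, le_rfl⟩]) hp
    obtain ⟨d', k₃, m, k₄, k₅⟩ := h₁ {z₁, z₂, z₃} (by simp [insert_subset_iff, *]) (toFinite _) d k₂
      (n + 1)
    refine ⟨d', k₃.trans k₁, ?_⟩
    filter_upwards [ev_mem (nm z₁.2), ev_mem (nm z₂.2), ev_mem (nm z₃.2)] with g e₁ e₂ e₃ e
    exact ⟨g.v (nN m), (nN_locN e₁).2 ⟨_, e, Force.mono_set k₅ fun x hx => hx _ (by simp)⟩,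
      (nN_locN e₂).2 ⟨_, e, Force.mono_set k₅ fun x hx => hx _ (by simp)⟩,
      (nN_locN e₃).2 ⟨_, e, Force.mono_set k₅ fun x hx => hx _ (by simp)⟩,
      fun e' => (Nat.lt_of_succ_le k₄).ne' (nN_inj e')⟩
  · obtain ⟨σ, hσ, rfl⟩ := exists_v a
    obtain ⟨σ', hσ', rfl⟩ := exists_v b
    have hU : UDef.{2} (fun _ E w => Sub E (w 0) (w 2) →
        (∀ n, E n (w 1) ↔ E n (w 2) ∧ ¬ E n (w 0)) → E (w 0) (w 3) ∨ E (w 1) (w 3)) := by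
      repeat' first
        | exact UDef.mem _ _ | exact UD.sub _ _
        | apply UDef.and | apply UDef.or | apply UDef.iff | apply UDef.not | apply UDef.imp
        | apply UDef.all
    refine dens' hU (l4 hσ hσ' wN_mem h) fun p _ => ?_
    obtain ⟨F, k₁, k₂⟩ := read' σ
    obtain ⟨d, k₃, c, k₄, k₅⟩ := h₂ F k₁ p
    refine ⟨d, k₃, ?_⟩
    filter_upwards [k₂, ev_mem (UN G), point countable_empty countable_empty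
      (toFinite {F, cpl F}).countable (by simp [insert_subset_iff, k₁, cpl_meas k₁])]
      with g e₁ e₂ ⟨x, _, _, e₃⟩ e₄ e₅ e₆
    have f₁ := e₃ F (by simp)
    have f₂ := e₃ (cpl F) (by simp)
    have f₃ := f₁.2
    rw [e₁ e₅] at f₃
    refine k₅.imp (fun k => (E_UN e₂).2 ⟨_, k, g.up e₄ k₄, f₁.1, e₁ e₅⟩) fun k =>
      (E_UN e₂).2 ⟨(c, cpl F), k, g.up e₄ k₄, f₂.1, sub_ext (nm_sub f₂.1)
        (fun n hn => ((e₆ n).1 hn).1) fun m => (f₂.2 m).trans (Iff.trans ?_ (e₆ _).symm)⟩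
    exact ⟨fun a => ⟨nN_wN m, fun b => a ((f₃ m).1 b)⟩, fun a b => a.2 ((f₃ m).2 b)⟩

/-! ### Chains in dense orders -/

noncomputable def ch (lt : ℕ → ℕ → Prop) (i j : ℕ) : ℕ → ℕ
  | 0 => i
  | w + 1 => sInf {a | lt (ch lt i j w) a ∧ lt a j}

theorem ch_spec {lt : ℕ → ℕ → Prop} (irr : ∀ a, ¬ lt a a)
    (tr : ∀ a b c, lt a b → lt b c → lt a c) (dn : ∀ a b, lt a b → ∃ c, lt a c ∧ lt c b)
    {i j : ℕ} (h : lt i j) (w : ℕ) : lt i (ch lt i j (w + 1)) ∧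
      lt (ch lt i j (w + 1)) (ch lt i j (w + 2)) ∧ lt (ch lt i j (w + 2)) j ∧
      ∀ a, lt (ch lt i j (w + 1)) a → lt a (ch lt i j (w + 2)) →
        sInf {w | lt a (ch lt i j (w + 2))} = w := by
  have h₁ : ∀ w, lt (ch lt i j w) j := fun w => by
    induction w with
    | zero => exact h
    | succ w ih => exact (Nat.sInf_mem (dn _ _ ih)).2
  have h₂ : ∀ w w', w < w' → lt (ch lt i j w) (ch lt i j w') := fun w w' h => by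
    induction w', h using Nat.le_induction with
    | base => exact (Nat.sInf_mem (dn _ _ (h₁ w))).1
    | succ w' _ ih => exact tr _ _ _ ih (Nat.sInf_mem (dn _ _ (h₁ w'))).1
  refine ⟨h₂ 0 _ w.succ_pos, h₂ _ _ (by omega), h₁ _, fun a h₃ h₄ => le_antisymm
    (Nat.sInf_le h₄) (not_lt.1 fun h₅ => ?_)⟩
  have h₆ := Nat.sInf_mem (s := {w | lt a (ch lt i j (w + 2))}) ⟨w, h₄⟩
  refine irr a (tr _ _ _ h₆ ?_)
  rcases (Nat.succ_le_of_lt h₅).eq_or_lt with e | e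
  · rwa [← e] at h₃
  · exact tr _ _ _ (h₂ _ _ (by omega)) h₃

theorem meas_rel₂ {α : Type*} {_ : MeasurableSpace α} {lt : α → ℕ → ℕ → Prop}
    (h : ∀ a b, Measurable fun x => lt x a b) {f f' : α → ℕ} (hf : Measurable f)
    (hf' : Measurable f') : Measurable fun x => lt x (f x) (f' x) :=
  meas_app (F := fun a x => lt x a (f' x)) (fun a => meas_app (F := fun b x => lt x a b) (h a) hf') hf

theorem meas_ch {α : Type*} {_ : MeasurableSpace α} {lt : α → ℕ → ℕ → Prop}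
    (h : ∀ a b, Measurable fun x => lt x a b) (i j w : ℕ) : Measurable fun x => ch (lt x) i j w := by
  induction w with
  | zero => exact measurable_const
  | succ w ih => exact meas_sInf fun a => meas_and (meas_rel₂ h ih measurable_const) (h a j)

theorem nwdIm_of {Q r f h A : g.M} (hr : IsRat g.E (g.v wN) Q r) (hh : IsInj g.E h Q (g.v wN))
    (hf : IsFun g.E f (g.v wN) Q) (hA : Sub g.E A (g.v wN)) {lt fv : ℕ → ℕ → Prop}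
    (h₁ : ∀ a b, (∃ s t, App g.E h s (g.v (nN a)) ∧ App g.E h t (g.v (nN b)) ∧ App g.E r s t) ↔
      lt a b)
    (h₂ : ∀ m a, (∃ y, App g.E f (g.v (nN m)) y ∧ App g.E h y (g.v (nN a))) ↔ fv m a)
    (h₃ : ∀ i j, ∃ w, ∀ m, g.E (g.v (nN m)) A →
      sInf {w | lt (sInf {a | fv m a}) (ch lt i j (w + 2))} ≠ w) : NwdIm g.E Q r f A := by
  obtain ⟨-, -, irr, tr, -, dn, -⟩ := hr
  have cd : ∀ s, g.E s Q → ∃ a, App g.E h s (g.v (nN a)) := fun s hs => by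
    obtain ⟨b, k₁, k₂⟩ := fun_ex hh.1 hs
    obtain ⟨a, rfl⟩ := E_wN.1 k₁
    exact ⟨a, k₂⟩
  have mem : ∀ {s a}, App g.E h s a → g.E s Q := fun k => (fun_mem hh.1 k).1
  have key : ∀ {s t a b}, App g.E h s (g.v (nN a)) → App g.E h t (g.v (nN b)) →
      (lt a b ↔ App g.E r s t) := fun k₁ k₂ => (h₁ _ _).symm.trans ⟨fun ⟨_, _, a, b, c⟩ =>
        hh.2 _ _ _ a k₁ ▸ hh.2 _ _ _ b k₂ ▸ c, fun c => ⟨_, _, k₁, k₂, c⟩⟩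
  intro s t hs ht hst
  obtain ⟨i, hi⟩ := cd s hs
  obtain ⟨j, hj⟩ := cd t ht
  obtain ⟨w, hw⟩ := h₃ i j
  obtain ⟨k₁, k₂, k₃, k₄⟩ := ch_spec (lt := lt)
    (fun a k => by
      obtain ⟨s, -, e, -⟩ := (h₁ _ _).2 k
      exact irr s (mem e) ((key e e).1 k))
    (fun a b c k k' => by
      obtain ⟨s, t, e₁, e₂, e₃⟩ := (h₁ _ _).2 k
      obtain ⟨-, u, -, e₄, -⟩ := (h₁ _ _).2 k'
      exact (key e₁ e₄).2 (tr s t u (mem e₁) (mem e₂) (mem e₄) e₃ ((key e₂ e₄).1 k')))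
    (fun a b k => by
      obtain ⟨s, t, e₁, e₂, e₃⟩ := (h₁ _ _).2 k
      obtain ⟨u, e₄, e₅, e₆⟩ := dn s t (mem e₁) (mem e₂) e₃
      obtain ⟨c, e₇⟩ := cd u e₄
      exact ⟨c, (key e₁ e₇).2 e₅, (key e₇ e₂).2 e₆⟩) ((key hi hj).2 hst) w
  obtain ⟨s', t', e₁, e₂, e₃⟩ := (h₁ _ _).2 k₂
  refine ⟨s', t', mem e₁, mem e₂, (key hi e₁).1 k₁, e₃, (key e₂ hj).1 k₃,
    fun n y hn hy ⟨e₄, e₅⟩ => ?_⟩
  obtain ⟨m, rfl⟩ := E_wN.1 (hA n hn)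
  obtain ⟨a, ha⟩ := cd y (fun_mem hf hy).2
  have e₆ : {a | fv m a} = {a} := eq_singleton_iff_unique_mem.2 ⟨(h₂ _ _).1 ⟨y, hy, ha⟩,
    fun b hb => by
      obtain ⟨y', e₆, e₇⟩ := (h₂ _ _).2 hb
      obtain rfl := fun_uniq hf hy e₆
      exact nN_inj (fun_uniq hh.1 e₇ ha)⟩
  refine hw m hn ?_
  rw [e₆, csInf_singleton]
  exact k₄ a ((key e₁ ha).2 e₄) ((key ha e₂).2 e₅)

theorem isNwd_UN (h₀ : ∀ z ∈ G, z.2 ∈ Meas univ)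
    (h₁ : ∀ ψ, Arr univ ψ → ∃ ζ, ∀ p, ∃ d ≤ p, ∃ c n₀, d ≤ c ∧ (c, Av ζ ψ n₀) ∈ G)
    (h : UN G ∈ g.N) : IsNwd g.E (g.v wN) (g.v (UN G)) := by
  intro Q r hr f hf
  obtain ⟨k, hk⟩ := hr.1
  obtain ⟨σQ, hQ, rfl⟩ := exists_v Q
  obtain ⟨σr, hr', rfl⟩ := exists_v r
  obtain ⟨σf, hf', rfl⟩ := exists_v f
  obtain ⟨σk, hk', rfl⟩ := exists_v k
  have hU : UDef.{2} (fun _ E w => IsRat E (w 0) (w 2) (w 3) → IsInj E (w 5) (w 2) (w 0) →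
      IsFun E (w 4) (w 0) (w 2) → ∃ A, E A (w 1) ∧ NwdIm E (w 2) (w 3) (w 4) A) :=
    (UD.isRat _ _ _).imp ((UDef.isInj _ _ _).imp ((UDef.isFun _ _ _).imp
      (UDef.ex ((UDef.mem _ _).and (UD.nwdIm _ _ _ _)))))
  refine dens' hU (lcons wN_mem (lcons h (l4 hQ hr' hf' hk'))) (fun p _ => ?_) hr hk hf
  have hL : UDef.{2} (fun _ E w => ∃ s t, App E (w 0) s (w 2) ∧ App E (w 0) t (w 3) ∧
      App E (w 1) s t) :=
    UDef.ex (UDef.ex ((UDef.app _ _ _).and ((UDef.app _ _ _).and (UDef.app _ _ _))))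
  have hF : UDef.{2} (fun _ E w => ∃ y, App E (w 1) (w 2) y ∧ App E (w 0) y (w 3)) :=
    UDef.ex ((UDef.app _ _ _).and (UDef.app _ _ _))
  choose ξ hξ using fun z : ℕ × ℕ => readF hL [σk, σr, nN z.1, nN z.2]
  choose η hη using fun z : ℕ × ℕ => readF hF [σk, σf, nN z.1, nN z.2]
  obtain ⟨ζ, hζ⟩ := h₁ (fun n m x => sInf {w | x (.O (ξ (sInf {a | x (.O (η (m, a))) = 1},
      ch (fun a b => x (.O (ξ (a, b))) = 1) n.unpair.1.unpair.1 n.unpair.1.unpair.2 (w + 2)))) = 1})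
    fun n m => meas_sInf fun w => meas_rel₂ (lt := fun (x : X) a b => x (.O (ξ (a, b))) = 1)
      (fun _ _ => meas_O _) (meas_sInf fun _ => meas_O _) (meas_ch (fun _ _ => meas_O _) _ _ _)
  obtain ⟨d, k₁, c, n₀, k₂, k₃⟩ := hζ p
  refine ⟨d, k₁, ?_⟩
  filter_upwards [ev_mem (UN G), ev_mem σk, ev_mem σr, ev_mem σf, point countable_empty
    ((countable_range ξ).union (countable_range η)) (countable_singleton _)
    (singleton_subset_iff.2 (h₀ _ k₃))] with g e₁ e₂ e₃ e₄ ⟨x, _, e₅, e₆⟩ e₇ f₁ f₂ f₃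
  obtain ⟨e₈, e₉⟩ := e₆ _ rfl
  refine ⟨_, (E_UN e₁).2 ⟨_, k₃, g.up e₇ k₂, e₈, rfl⟩, nwdIm_of f₁ f₂ f₃ (locN_sub e₈)
    (fun a b => hξ (a, b) g x (l4 e₂ e₃ (nN_mem _) (nN_mem _)) (e₅ _ (Or.inl ⟨_, rfl⟩)))
    (fun a b => hη (a, b) g x (l4 e₂ e₄ (nN_mem _) (nN_mem _)) (e₅ _ (Or.inr ⟨_, rfl⟩)))
    fun i j => ⟨x (.R ζ ((i.pair j).pair n₀)), fun m hm => ?_⟩⟩
  simpa using (e₉ m).1 hm _ (Nat.right_le_pair (i.pair j) n₀)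

end Pool.Agent.MP_9c82b4_lc

end

section

namespace Pool.Agent.MP_9c82b4_lc

open Pool.Agent.MP_c6cf52_lc Name Gen Set Filter

variable {g : Gen P}

theorem exists_enum : ∃ en : Θ → X → Set ℕ, ∀ F ∈ Meas univ, ∃ β, en β = F := by
  obtain ⟨bk, h⟩ := exists_book (fun ν => Meas (Iio ν)) small_meas
  refine ⟨fun β => (bk β).2, fun F hF => ?_⟩
  obtain ⟨ν, hν⟩ := meas_level hF
  obtain ⟨ξ, -, e⟩ := h ν F hν
  exact ⟨ξ, congrArg Prod.snd e⟩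

/-- A node that reads the ultrafilter on its level. -/
theorem exists_reader (σ : Name P) : ∃ τ, ∀ F ∈ Meas (lo τ), ∀ (g : Gen P) x, σ ∈ g.N →
    IsUltra g.E (g.v wN) (g.v σ) → Ok g x (xi τ F) → Rd g x F → Big (g.v σ) (sel τ F x) := by
  choose ξ h using fun F => readF (UDef.mem 0 1) [nm F, σ]
  choose ρ hρ using fun α => exists_ub (ξ '' Meas (Iio α))
  obtain ⟨ν, h₁, h₂⟩ := closing ρ
  have h₃ : ∀ F ∈ Meas (Iio ν), ξ F < ν := fun F hF => by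
    obtain ⟨S, a, b, c⟩ := meas_ct hF
    obtain ⟨α, e, f⟩ := h₂ S b a
    exact (hρ α ⟨F, c _ f, rfl⟩).trans (h₁ α e)
  obtain ⟨τ, rfl, h₄⟩ := exists_node h₃
  refine ⟨τ, fun F hF g x a b c e => ?_⟩
  rw [h₄ F hF] at c
  have h₅ : g.E (g.v (nm F)) (g.v σ) ↔ bit τ F x = true :=
    (h F g x (l2 e.1 a) c).trans (by simp [bit, h₄ F hF, h₃ F hF])
  by_cases h₆ : g.E (g.v (nm F)) (g.v σ)
  · exact ⟨_, h₆, fun n hn => iff_of_true ((e.2 n).1 hn) (h₅.1 h₆)⟩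
  · exact ((big_or b (nm_sub e.1)).resolve_left h₆).mono fun n hn =>
      iff_of_false (mt (e.2 n).2 hn) (mt h₅.2 h₆)

def rs (τ β : Θ) (i : Bool) : X → Set ℕ := fun x => {m | x (.H τ β m) = 1 ↔ i = true}

theorem rs_meas (τ β : Θ) (i : Bool) : rs τ β i ∈ Meas univ := fun _ => meas_set (meas_iff
  (meas_eq (gen_eval (K := mK univ) (mem_univ _)) measurable_const) measurable_const)

section Family

variable (en : Θ → X → Set ℕ) (τ : Θ) (σ : Name P)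

def Lst (β : Θ) (i : Bool) (c : P) : Prop :=
  (∀ β' < β, ∀ d ≤ c, ¬ ∀ᶠ g in cof P, d ∈ g.G → g.v (nm (en β')) = g.v (nm (en β))) ∧
    FMem (nm (rs τ β i)) σ c

noncomputable def aN : Name P := relN (ι := {z : Θ × Bool × P // Lst en τ σ z.1 z.2.1 z.2.2})
  (fun z => nm (en z.1.1)) (fun z => nm (rs τ z.1.1 z.1.2.1)) (fun z => z.1.2.2)

variable {en τ σ}

theorem Lst.mono {β i c d} (h : Lst en τ σ β i c) (hd : d ≤ c) : Lst en τ σ β i d :=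
  ⟨fun β' a e b => h.1 β' a e (b.trans hd), h.2.mono hd⟩

theorem app_aN (h : aN en τ σ ∈ g.N) {s t : g.M} : App g.E (g.v (aN en τ σ)) s t ↔
    ∃ β i c, Lst en τ σ β i c ∧ c ∈ g.G ∧ nm (en β) ∈ g.N ∧ nm (rs τ β i) ∈ g.N ∧
      s = g.v (nm (en β)) ∧ t = g.v (nm (rs τ β i)) :=
  (app_relN h).trans ⟨fun ⟨z, a⟩ => ⟨_, _, _, z.2, a⟩, fun ⟨β, i, c, a, b⟩ => ⟨⟨(β, i, c), a⟩, b⟩⟩

theorem isFun_aN (hen : ∀ F ∈ Meas univ, ∃ β, en β = F) (h : aN en τ σ ∈ g.N) (hσ : σ ∈ g.N)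
    (hU : IsUltra g.E (g.v wN) (g.v σ)) {W : g.M} (hW : ∀ x, g.E x W ↔ Sub g.E x (g.v wN)) :
    IsFun g.E (g.v (aN en τ σ)) W (g.v σ) := by
  refine ⟨fun p hp => ?_, fun y hy => existsUnique_of_exists_of_unique ?_ fun b b' h₁ h₂ => ?_⟩
  · obtain ⟨z, a, b, c, rfl⟩ := (E_relN h).1 hp
    exact ⟨_, _, (hW _).2 (nm_sub b), (v_mem_iff c hσ).2 ⟨_, a, z.2.2⟩, isPair_pr _ _⟩
  · obtain ⟨σ', hσ', rfl⟩ := exists_v y
    have hD : UDef.{2} (fun _ E w => IsUltra E (w 0) (w 1) → Sub E (w 2) (w 0) →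
        ∃ b, App E (w 3) (w 2) b) :=
      (UD.isUltra _ _).imp ((UD.sub _ _).imp (UDef.ex (UDef.app _ _ _)))
    refine dens' hD (l4 wN_mem hσ hσ' h) (fun p _ => ?_) hU ((hW _).1 hy)
    obtain ⟨F, h₁, h₂⟩ := read' σ'
    obtain ⟨β₀, rfl⟩ := hen F h₁
    obtain ⟨β, ⟨d, h₃, h₄⟩, h₅⟩ := (wellFounded_lt (α := Θ)).has_min {β | ∃ d ≤ p, ∀ᶠ g in cof P,
      d ∈ g.G → Sub g.E (g.v σ') (g.v wN) → g.v (nm (en β)) = g.v σ'}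
      ⟨β₀, p, le_rfl, h₂.mono fun _ a _ => a⟩
    refine ⟨d, h₃, ?_⟩
    filter_upwards [h₄, ev_mem σ, ev_mem (aN en τ σ), point countable_empty countable_empty
      (to_countable (range (rs τ β))) (range_subset_iff.2 (rs_meas τ β)), ev_mem (nm (en β))]
      with g e₁ e₂ e₃ ⟨x, _, _, e₄⟩ e₅ e₆ e₇ e₈
    have f₁ := e₄ _ ⟨true, rfl⟩
    have f₂ := e₄ _ ⟨false, rfl⟩
    obtain ⟨i, k₁, k₂⟩ : ∃ i, nm (rs τ β i) ∈ g.N ∧ g.E (g.v (nm (rs τ β i))) (g.v σ) := by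
      rcases big_or e₇ (nm_sub f₁.1) with k | k
      · exact ⟨_, f₁.1, k⟩
      · exact ⟨_, f₂.1, k.mem e₇ (nm_sub f₂.1) fun n hn => (f₂.2 n).2 (by
          simpa [rs] using mt (f₁.2 n).2 hn)⟩
    obtain ⟨c, k₃, k₄⟩ := (v_mem_iff k₁ e₂).1 k₂
    obtain ⟨r, k₅, k₆, k₇⟩ := g.dir k₃ e₆
    refine ⟨_, (app_aN e₃).2 ⟨β, i, r, ⟨fun β' a e b f => h₅ β' ⟨e, b.trans (k₇.trans h₃), ?_⟩ a,
      k₄.mono k₆⟩, k₅, e₅, k₁, (e₁ e₆ e₈).symm, rfl⟩⟩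
    filter_upwards [f, h₄] with g a₁ a₂ a₃ a₄ using (a₁ a₃).trans (a₂ (g.up a₃ (b.trans k₇)) a₄)
  · obtain ⟨β, i, c, a₁, a₂, a₃, a₄, rfl, rfl⟩ := (app_aN h).1 h₁
    obtain ⟨β', i', c', b₁, b₂, b₃, b₄, e, rfl⟩ := (app_aN h).1 h₂
    have key : ∀ {β β' i c}, Lst en τ σ β i c → c ∈ g.G → nm (en β) ∈ g.N → nm (en β') ∈ g.N →
        g.v (nm (en β')) = g.v (nm (en β)) → β ≤ β' := fun a₁ a₂ a₃ a₄ e => not_lt.1 fun k => by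
      obtain ⟨p, k₁, k₂⟩ := transfer' (UDef.eq 0 1) (l2 a₄ a₃) e
      obtain ⟨d, -, k₃, k₄⟩ := g.dir k₁ a₂
      exact a₁.1 _ k d k₄ (k₂.mono fun g a b => a (g.up b k₃))
    obtain rfl := le_antisymm (key a₁ a₂ a₃ b₃ e.symm) (key b₁ b₂ b₃ a₃ e)
    obtain ⟨m, k₁, k₂⟩ := (Big.inter hU ⟨_, (v_mem_iff a₄ hσ).2 ⟨c, a₂, a₁.2⟩, fun _ => id⟩
      ⟨_, (v_mem_iff b₄ hσ).2 ⟨c', b₂, b₁.2⟩, fun _ => id⟩).nonempty hU
    obtain ⟨d, k₃, k₄⟩ := (nN_locN a₄).1 k₁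
    obtain ⟨d', k₅, k₆⟩ := (nN_locN b₄).1 k₂
    obtain ⟨r, -, k₇, k₈⟩ := g.dir k₃ k₅
    obtain ⟨x, f₁, f₂⟩ := (k₄.mono k₇).meet (k₆.mono k₈)
    rw [Bool.eq_iff_iff.2 (f₁.symm.trans f₂)]

end Family

theorem exists_blocks {In : Θ → Bool → P → Prop} (mono : ∀ β i c d, d ≤ c → In β i c → In β i d)
    {p : P} (h : ∀ V : Finset Θ, ∀ d ≤ p, ∃ d' ≤ d, ∃ β ∉ V, ∃ i, In β i d') :
    ∃ r ≤ p, ∃ i, ∃ V : ℕ → Finset Θ, Monotone V ∧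
      ∀ l, ∀ d ≤ r, ∃ d' ≤ d, ∃ β ∈ V (l + 1), β ∉ V l ∧ In β i d' := by
  classical
  obtain ⟨i, q, h₁, h₂⟩ : ∃ i, ∃ q ≤ p, ∀ V : Finset Θ, ∀ d ≤ q, ∃ d' ≤ d, ∃ β ∉ V, In β i d' := by
    by_cases k : ∀ V : Finset Θ, ∀ d ≤ p, ∃ d' ≤ d, ∃ β ∉ V, In β true d'
    · exact ⟨true, p, le_rfl, k⟩
    push Not at k
    obtain ⟨V₀, q, a, b⟩ := k
    refine ⟨false, q, a, fun V d e => ?_⟩
    obtain ⟨d', f₁, β, f₂, _ | _, f₃⟩ := h (V ∪ V₀) d (e.trans a)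
    · exact ⟨d', f₁, β, fun k => f₂ (Finset.mem_union_left _ k), f₃⟩
    · exact absurd f₃ (b d' (f₁.trans e) β fun k => f₂ (Finset.mem_union_right _ k))
  have h₃ : ∀ n, ∀ d ≤ q, ∃ d' ≤ d, ∃ S : Finset Θ, S.card = n ∧ ∀ β ∈ S, In β i d' := by
    intro n d hd
    induction n with
    | zero => exact ⟨d, le_rfl, ∅, rfl, by simp⟩
    | succ n ih =>
      obtain ⟨d', a, S, b, c⟩ := ih
      obtain ⟨e, f₁, β, f₂, f₃⟩ := h₂ S d' (a.trans hd)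
      refine ⟨e, f₁.trans a, insert β S, by rw [Finset.card_insert_of_notMem f₂, b], fun γ k => ?_⟩
      rcases Finset.mem_insert.1 k with rfl | k
      exacts [f₃, mono _ _ _ _ f₁ (c γ k)]
  obtain ⟨r, a, b, c⟩ := bounding isLowerSet_univ q.2 (fun n => {c | ∃ hc : Mem univ c,
    ∃ S : Finset Θ, S.card = n ∧ ∀ β ∈ S, In β i ⟨c, hc⟩}) fun n d k₁ k₂ =>
      let ⟨d', f₁, f₂⟩ := h₃ n ⟨d, k₁⟩ k₂
      ⟨d'.1, d'.2, f₁, d'.2, f₂⟩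
  have h₄ : ∀ n, ∃ T : Finset Θ, ∀ d : P, Le d.1 r → ∃ d' ≤ d, ∃ S ⊆ T, S.card = n ∧
      ∀ β ∈ S, In β i d' := by
    intro n
    obtain ⟨𝒱, k₁, k₂, k₃⟩ := c n
    choose hc S k₄ k₅ using fun z : 𝒱 => k₁ z.2
    have := k₂.fintype
    refine ⟨Finset.univ.biUnion S, fun d k => ?_⟩
    obtain ⟨d', f₁, f₂, e, f₃, f₄⟩ := k₃ d.1 d.2 k
    exact ⟨⟨d', f₁⟩, f₂, S ⟨e, f₃⟩, Finset.subset_biUnion_of_mem S (Finset.mem_univ _), k₄ _,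
      fun β hβ => mono _ _ _ _ f₄ (k₅ ⟨e, f₃⟩ β hβ)⟩
  choose T hT using h₄
  let V : ℕ → Finset Θ := fun l => Nat.rec ∅ (fun _ V => V ∪ T (V.card + 1)) l
  refine ⟨⟨r, a⟩, Le.trans b h₁, i, V, monotone_nat_of_le_succ fun l => Finset.subset_union_left,
    fun l d hd => ?_⟩
  obtain ⟨d', f₁, S, f₂, f₃, f₄⟩ := hT ((V l).card + 1) d hd
  obtain ⟨β, f₅, f₆⟩ := Finset.exists_mem_notMem_of_card_lt_card (s := V l) (t := S) (by omega)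
  exact ⟨d', f₁, β, Finset.mem_union_right _ (f₂ f₅), f₆, f₄ β f₅⟩

theorem isTop {p : g.M} (hp : IsUltra g.E (g.v wN) p) : IsTop g.E (g.v wN) p := by
  obtain ⟨σ, hσ, rfl⟩ := exists_v p
  refine dens' ((UD.isUltra 0 1).imp (UD.isTop 0 1)) (l2 wN_mem hσ) (fun q _ => ⟨q, le_rfl, ?_⟩) hp
  obtain ⟨en, hen⟩ := exists_enum
  obtain ⟨τ, hτ⟩ := exists_reader σ
  clear hp hσ
  filter_upwards [ev_mem σ, ev_mem (aN en τ σ)] with g hσ ha _ hp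
  obtain ⟨W, hW⟩ := exists_power (g.v wN)
  have hf := isFun_aN hen ha hσ hp hW
  refine ⟨W, _, hW, hf, fun I h₁ h₂ y h₃ h₄ => ?_⟩
  obtain ⟨σI, hI, rfl⟩ := exists_v I
  obtain ⟨σy, hy, rfl⟩ := exists_v y
  have hD : UDef.{2} (fun _ E w => IsUltra E (w 0) (w 1) ∧ E (w 3) (w 1) ∧ ¬ IsFin E (w 0) (w 2) ∧
      (∀ x, E x (w 2) → ∃ b, App E (w 4) x b) ∧
      ∀ n x b, E n (w 3) → E x (w 2) → App E (w 4) x b → E n b) := by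
    repeat' first
      | exact UDef.mem _ _ | exact UD.isUltra _ _ | exact UD.isFin _ _ | exact UDef.app _ _ _
      | apply UDef.and | apply UDef.not | apply UDef.imp | apply UDef.all | apply UDef.ex
  obtain ⟨p₀, -, H⟩ := transfer' hD (lcons wN_mem (l4 hσ hI hy ha)) ⟨hp, h₄, h₂,
    fun x hx => (fun_ex hf (h₁ x hx)).imp fun _ h => h.2,
    fun n x b a => ((h₃ n).1 a).2 x b⟩
  clear hp h₄ h₃ h₂ h₁ hf hW hσ ha hI hy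
  obtain ⟨r, k₁, i, V, k₂, k₃⟩ := exists_blocks (p := p₀)
    (In := fun β i c => Lst en τ σ β i c ∧ FMem (nm (en β)) σI c)
    (fun _ _ _ _ a b => ⟨b.1.mono a, b.2.mono a⟩) (fun V d hd => by
      obtain ⟨g, e₁, e₂, e₃, e₄⟩ := ev_ex (H.and ((ev_mem σI).and (ev_mem (aN en τ σ)))) d
      obtain ⟨-, -, f₁, f₂, -⟩ := e₂ (g.up e₁ hd)
      obtain ⟨x, f₃, f₄⟩ := Infinite.exists_notMem_finite (mt isFin_iff.2 f₁)
        (V.finite_toSet.image fun β => g.v (nm (en β)))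
      obtain ⟨b, f₅⟩ := f₂ x f₃
      obtain ⟨β, i, c, a₁, a₂, a₃, -, rfl, -⟩ := (app_aN e₄).1 f₅
      obtain ⟨c', a₄, a₅⟩ := (v_mem_iff a₃ e₃).1 f₃
      obtain ⟨s, a₆, a₇, a₈⟩ := g.dir a₂ a₄
      obtain ⟨t, -, a₉, b₁⟩ := g.dir a₆ e₁
      exact ⟨t, b₁, β, fun k => f₄ ⟨β, k, rfl⟩, i, a₁.mono (a₉.trans a₇), a₅.mono (a₉.trans a₈)⟩)
  obtain ⟨r', a₁, a₂, Z, a₃, a₄, a₅⟩ := tukey_ext τ r.2 V k₂ (!i)
  have up := Meas.mono (subset_univ (lo τ))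
  obtain ⟨F, b₁, K, b₂, b₃⟩ := read σy
  have b₄ : ∀ m, Frc ⟨r', a₁⟩ {x | m ∈ F x → m ∈ Z x} := fun m => Frc.reg fun d hd => by
    obtain ⟨d₁, c₁, c₂, c₃ | ⟨l, c₃⟩⟩ := a₅ m d.1 d.2 hd
    · exact ⟨⟨d₁, c₁⟩, c₂, Force.mono_set c₃ fun _ a _ => a⟩
    have c₄ : LE.le (α := P) ⟨d₁, c₁⟩ r := Le.trans c₂ (Le.trans hd a₂)
    obtain ⟨d₂, c₅, β, c₆, c₇, c₈, c₉⟩ := k₃ l _ c₄
    refine ⟨d₂, Le.trans c₅ c₂, Force.mono_set (force_compl (b₁ m) fun e f₁ f₂ f₃ => ?_)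
      fun _ a b => absurd b a⟩
    obtain ⟨g, e₁, e₂, e₃, e₄, e₅, e₆, x, e₇, e₈, e₉⟩ := ev_ex (H.and ((ev_mem σI).and
      ((ev_mem (aN en τ σ)).and ((ev_mem σy).and ((ev_mem (nm (en β))).and (point
        (toFinite {{x | m ∈ F x}, cyl (.H τ β m) (!i).toNat}).countable b₂ (countable_singleton _)
        (singleton_subset_iff.2 (rs_meas τ β i)))))))) ⟨e, f₁⟩
    have f₄ : d₂ ∈ g.G := g.up e₁ f₂
    have f₅ := e₇ _ (Or.inr rfl) _ f₄ ((c₃ β c₆ c₇).mono c₅)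
    have f₆ := ((e₉ _ rfl).2 m).1 ((e₂ (g.up f₄ (c₅.trans (c₄.trans k₁)))).2.2.2.2 _ _ _
      ((b₃ g x e₅ e₈ m).2 (e₇ _ (Or.inl rfl) _ e₁ f₃)) ((v_mem_iff e₆ e₃).2 ⟨_, f₄, c₉⟩)
      ((app_aN e₄).2 ⟨β, i, _, c₈, f₄, e₆, (e₉ _ rfl).1, rfl, rfl⟩))
    cases i <;> simp_all [rs, cyl]
  obtain ⟨d, c₁, c₂, 𝓛, c₃, c₄, n, c₅⟩ := a₄.link a₃ a₁ (.refl _)
  obtain ⟨g, e₁, e₂, e₃, e₄, x, e₅, e₆, e₇⟩ := ev_ex (H.and ((ev_mem σ).and ((ev_mem σy).and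
    (point (countable_singleton _) (b₂.union (c₃.image (xi τ)).countable) c₃.countable
      (c₄.trans up))))) ⟨d, c₁⟩
  obtain ⟨f₁, f₂⟩ := e₅ _ rfl _ e₁ (c₅.inter ((force_all b₄).mono c₂))
  obtain ⟨f₃, f₄, -⟩ := e₂ (g.up e₁ (Le.trans c₂ (Le.trans a₂ k₁)))
  obtain ⟨m, ⟨f₅, f₆⟩, f₇⟩ := (((big_ge f₃ n).inter f₃ ⟨_, f₄, fun _ => id⟩).inter f₃
    (big_biInter f₃ c₃ fun F hF => hτ F (c₄ hF) g x e₃ f₃ (e₆ _ (Or.inr ⟨F, hF, rfl⟩))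
      (e₇ F hF))).nonempty f₃
  exact f₁ m f₅ (f₂ m ((b₃ g x e₄ (fun ξ h => e₆ ξ (Or.inl h)) m).1 f₆)) f₇

theorem main : ∃ (M : Type 2) (E : M → M → Prop), IsZFC E ∧ ∃ w : M, IsOmega E w ∧
    (∀ p, IsUltra E w p → IsTop E w p) ∧ ∃ p, IsUltra E w p ∧ IsNwd E w p := by
  obtain ⟨G, h₀, h₁, h₂, h₃⟩ := exists_filter
  obtain ⟨g, -, h⟩ := ev_ex (ev_mem (UN G)) ⊤
  exact ⟨g.M, g.E, isZFC g, _, isOmega, fun _ => isTop, _, isUltra_UN h₁ h₂ h, isNwd_UN h₀ h₃ h⟩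

end Pool.Agent.MP_9c82b4_lc

end
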